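import Pool.Agent.RGR.St

/-!
# Entire limits are linear
-/

set_option autoImplicit false

namespace Pool.Agent.RGR

open MeasureTheory Metric Set Filter Topology Complex
open scoped ContDiff Real ENNReal
open Pool.Agent.LibHelper41 Pool.Agent.LibHelper41.Remov

theorem t_AF : S_AF := by
  intro F R₁ hR hF h0 h1 h2 h3
  have hd : Differentiable ℂ (dslope F 0) := by
    rw [← differentiableOn_univ]
    exact (Complex.differentiableOn_dslope univ_mem).2 hF.differentiableOn
  have hsl : ∀ z : ℂ, z ≠ 0 → dslope F 0 z = F z / z := by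
    intro z hz
    rw [dslope_of_ne _ hz, slope_def_field, h0, sub_zero, sub_zero]
  have hb : Bornology.IsBounded (range (dslope F 0)) := by
    obtain ⟨C, hC⟩ := (isCompact_closedBall (0 : ℂ) R₁).exists_bound_of_continuousOn
      hd.continuous.continuousOn
    rw [isBounded_iff_forall_norm_le]
    refine ⟨max C (1 / R₁), ?_⟩
    rintro _ ⟨z, rfl⟩
    by_cases hz : ‖z‖ ≤ R₁
    · exact (hC z (by simpa using hz)).trans (le_max_left _ _)
    · refine le_trans ?_ (le_max_right _ _)
      push Not at hz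
      have hz0 : z ≠ 0 := by
        rintro rfl
        rw [norm_zero] at hz
        linarith
      have hzp : 0 < ‖z‖ := norm_pos_iff.2 hz0
      rw [hsl z hz0, norm_div, div_le_iff₀ hzp]
      calc ‖F z‖ ≤ ‖z‖ / R₁ := h3 z hz.le
        _ = 1 / R₁ * ‖z‖ := by ring
  have hc : ∀ z, dslope F 0 z = dslope F 0 0 := fun z => hd.apply_eq_apply_of_bounded hb z 0
  have hlin : ∀ z, F z = dslope F 0 0 * z := by
    intro z
    by_cases hz : z = 0
    · rw [hz, h0, mul_zero]
    · have h4 := hc z
      rw [hsl z hz] at h4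
      rw [← h4]
      field_simp
  refine ⟨dslope F 0 0, le_antisymm ?_ ?_, hlin⟩
  · have hn : ‖(R₁ : ℂ)‖ = R₁ := by rw [Complex.norm_real, Real.norm_eq_abs, abs_of_pos hR]
    have h5 := h1 (R₁ : ℂ) hn.le
    rw [hlin, norm_mul, hn] at h5
    exact h5
  · obtain ⟨z, hz, hz1⟩ := h2
    rw [hlin, norm_mul] at hz1
    rw [← hz1]
    exact mul_le_mul_of_nonneg_left hz (norm_nonneg _)

end Pool.Agent.RGR
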