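import Pool.Agent.RGR.St
import Pool.Agent.Lib_helper41.Weld.Thick

/-!
# Circle domains

The theorem for circle domains from the theorem of the rings.
-/

set_option autoImplicit false

namespace Pool.Agent.RGR

open MeasureTheory Metric Set Filter Topology Complex
open scoped ContDiff Real ENNReal
open Pool.Agent.LibHelper41 Pool.Agent.LibHelper41.Remov

namespace CIR_aux

theorem isOpen_UU (Q : ℝ) (E : Set ℂ) (ε : ℝ) : IsOpen (UU Q E ε) := by
  rw [isOpen_iff_mem_nhds]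
  rintro z ⟨c, r, hr, hrε, hd, hz⟩
  refine Filter.mem_of_superset (isOpen_ball.mem_nhds hz) ?_
  intro w hw
  exact ⟨c, r, hr, hrε, hd, hw⟩

end CIR_aux

theorem t_CIR : S_FIN → S_CIR := by
  intro hF Ω hΩ hconn hbd hc hcan Q hQ hfin f hf
  have hfc : frontier Ω ⊆ Ωᶜ := fun x hx hxΩ => by
    rw [hΩ.frontier_eq] at hx
    exact hx.2 hxΩ
  have hEc : IsCompact (frontier Ω) :=
    Metric.isCompact_of_isClosed_isBounded isClosed_frontier (hbd.subset hfc)
  refine hF (frontier Ω) Q hEc hQ (fun ε hε => ?_) f hf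
  intro F hFd
  have hcl : IsClosed (frontier Ω \ UU Q (frontier Ω) ε) :=
    isClosed_frontier.sdiff (CIR_aux.isOpen_UU Q _ ε)
  have hN : ∀ z ∈ Weld.NH F, z ∈ frontier Ω \ UU Q (frontier Ω) ε := by
    intro z hz
    by_contra hcon
    exact Weld.not_NH_of_diff hcl.isOpen_compl hFd hcon hz
  have hFd' : DifferentiableOn ℂ F (frontier Ω)ᶜ :=
    hFd.mono (compl_subset_compl.2 sdiff_subset)
  have hth := Weld.NH_thick hΩ hc hcan hFd'
  intro z
  by_contra hz
  have hzN : z ∈ Weld.NH F := fun h => hz h.differentiableAt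
  refine hth z hzN univ isOpen_univ (mem_univ z) ((hfin ε hε).subset ?_)
  rintro B ⟨⟨x, hx, hxB, c, r, hr, hBeq⟩, hntd⟩
  refine ⟨⟨x, hx, hxB⟩, ⟨c, r, hr, hBeq⟩, ?_⟩
  rintro ⟨c', r', hr', hrε', hring, hsub⟩
  refine hntd ?_
  have hemp : Weld.NH F ∩ B ∩ univ = ∅ := by
    rw [Set.eq_empty_iff_forall_notMem]
    rintro w ⟨⟨hw1, hw2⟩, -⟩
    refine (hN w hw1).2 ⟨c', r', hr', hrε', ?_, hsub hw2⟩
    rw [Set.disjoint_left]
    intro y hy1 hy2
    exact hfc hy2 (hring hy1)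
  rw [hemp]
  exact isTotallyDisconnected_empty

end Pool.Agent.RGR
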