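import Pool.Agent.RGR.St
import Pool.Agent.Lib_helper41.Weld.Inj

/-!
Module CUT: a cut-off function for the image of a ring.
-/

set_option autoImplicit false

namespace Pool.Agent.RGR

open MeasureTheory Metric Set Filter Topology Complex
open scoped ContDiff Real ENNReal
open Pool.Agent.LibHelper41 Pool.Agent.LibHelper41.Remov

namespace CUT_aux

theorem exists_chi0 (x₁ x₂ : ℝ) (h : x₁ < x₂) : ∃ (χ₀ : ℝ → ℝ) (C₀ : ℝ), 0 < C₀ ∧
    ContDiff ℝ ∞ χ₀ ∧ (∀ x, 0 ≤ χ₀ x) ∧ (∀ x, χ₀ x ≤ 1) ∧ (∀ x, x ≤ x₁ → χ₀ x = 1) ∧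
    (∀ x, x₂ ≤ x → χ₀ x = 0) ∧ ∀ x, |deriv χ₀ x| ≤ C₀ := by
  obtain ⟨χ₀, hχ⟩ : ∃ χ₀ : ℝ → ℝ, χ₀ = fun x => Real.smoothTransition ((x₂ - x) / (x₂ - x₁)) :=
    ⟨_, rfl⟩
  have hd : 0 < x₂ - x₁ := by linarith
  have hcd : ContDiff ℝ ∞ χ₀ := by
    rw [hχ]
    exact Real.smoothTransition.contDiff.comp ((contDiff_const.sub contDiff_id).div_const _)
  have h1 : ∀ x, x ≤ x₁ → χ₀ x = 1 := by
    intro x hx
    rw [hχ]
    apply Real.smoothTransition.one_of_one_le
    rw [le_div_iff₀ hd]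
    linarith
  have h2 : ∀ x, x₂ ≤ x → χ₀ x = 0 := by
    intro x hx
    rw [hχ]
    apply Real.smoothTransition.zero_of_nonpos
    apply div_nonpos_of_nonpos_of_nonneg _ hd.le
    linarith
  obtain ⟨C, hC⟩ := (isCompact_Icc (a := x₁) (b := x₂)).exists_bound_of_continuousOn
    (hcd.continuous_deriv (by norm_num)).continuousOn
  refine ⟨χ₀, max C 1, lt_of_lt_of_le one_pos (le_max_right _ _), hcd, ?_, ?_, h1, h2, ?_⟩
  · intro x
    rw [hχ]
    exact Real.smoothTransition.nonneg _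
  · intro x
    rw [hχ]
    exact Real.smoothTransition.le_one _
  · intro x
    by_cases hx : x ∈ Icc x₁ x₂
    · exact (hC x hx).trans (le_max_left _ _)
    · have h0 : deriv χ₀ x = 0 := by
        rcases lt_or_ge x x₁ with hlt | hge
        · have he : χ₀ =ᶠ[𝓝 x] fun _ => 1 := by
            filter_upwards [Iio_mem_nhds hlt] with y hy
            exact h1 y (le_of_lt hy)
          rw [he.deriv_eq, deriv_const]
        · have hgt : x₂ < x := by
            by_contra hc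
            exact hx ⟨hge, not_lt.1 hc⟩
          have he : χ₀ =ᶠ[𝓝 x] fun _ => 0 := by
            filter_upwards [Ioi_mem_nhds hgt] with y hy
            exact h2 y (le_of_lt hy)
          rw [he.deriv_eq, deriv_const]
      rw [h0, abs_zero]
      exact le_trans zero_le_one (le_max_right _ _)

theorem isOpen_Ann (c : ℂ) (a b : ℝ) : IsOpen (Ann c a b) := by
  have hc : Continuous fun z : ℂ => ‖z - c‖ := (continuous_id.sub continuous_const).norm
  exact (isOpen_lt continuous_const hc).inter (isOpen_lt hc continuous_const)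

theorem symm_diff (f : ℂ ≃ₜ ℂ) {U : Set ℂ} (hU : IsOpen U) (hf : DifferentiableOn ℂ f U) :
    DifferentiableOn ℂ f.symm (f '' U) := by
  rintro _ ⟨z, hz, rfl⟩
  have h1 : HasDerivAt f (deriv f z) (f.symm (f z)) := by
    rw [f.symm_apply_apply]
    exact (hf.differentiableAt (hU.mem_nhds hz)).hasDerivAt
  have hd := Pool.Agent.LibHelper41.Weld.deriv_ne_zero_of_injOn hU hf f.injective.injOn hz
  exact (HasDerivAt.of_local_left_inverse f.symm.continuous.continuousAt h1 hd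
    (Eventually.of_forall fun x => f.apply_symm_apply x)).differentiableAt.differentiableWithinAt

/-- Cauchy-Schwarz -/
theorem cs (V : Set ℂ) (k : ℂ → ℝ≥0∞) (hk : Measurable k) :
    (∫⁻ w in V, k w) ^ 2 ≤ volume V * ∫⁻ w in V, k w ^ 2 := by
  have h1 := ENNReal.lintegral_mul_le_Lp_mul_Lq (volume.restrict V) Real.HolderConjugate.two_two
    (f := fun _ => (1 : ℝ≥0∞)) (g := k) aemeasurable_const hk.aemeasurable
  have e1 : ∫⁻ w in V, k w = ∫⁻ w in V, ((fun _ : ℂ => (1 : ℝ≥0∞)) * k) w := by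
    refine lintegral_congr fun w => ?_
    rw [Pi.mul_apply, one_mul]
  rw [e1]
  refine (pow_le_pow_left' h1 2).trans (le_of_eq ?_)
  have e2 : ∀ x : ℝ≥0∞, (x ^ (1 / (2 : ℝ))) ^ 2 = x := by
    intro x
    rw [← ENNReal.rpow_natCast, ← ENNReal.rpow_mul]
    norm_num
  rw [mul_pow, e2, e2]
  simp

/-- the derivative of the cut-off function -/
theorem dbar_bound (χ₀ : ℝ → ℝ) (C₀ : ℝ) (hcd : ContDiff ℝ ∞ χ₀) (hder : ∀ x, |deriv χ₀ x| ≤ C₀)
    (hC₀ : 0 < C₀) (g : ℂ → ℂ) (c w : ℂ) (r : ℝ) (hr : 0 < r) (hg : DifferentiableAt ℂ g w)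
    (hne : g w - c ≠ 0) :
    ‖dbar (fun w => ((χ₀ (‖g w - c‖ / r) : ℝ) : ℂ)) w‖ₑ ≤
      ENNReal.ofReal (C₀ / r) * ‖deriv g w‖ₑ := by
  obtain ⟨N', hN'⟩ : ∃ N' : ℂ →L[ℝ] ℝ, N' = fderiv ℝ (fun z : ℂ => ‖z‖) (g w - c) := ⟨_, rfl⟩
  have hN1 : ‖N'‖ ≤ 1 := by
    rw [hN']
    have := norm_fderiv_le_of_lipschitz ℝ (f := fun z : ℂ => ‖z‖) (x₀ := g w - c)
      (C := 1) lipschitzWith_one_norm
    simpa using this
  have hNd : HasFDerivAt (fun z : ℂ => ‖z‖) N' (g w - c) := by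
    rw [hN']
    exact ((contDiffAt_norm ℝ hne).differentiableAt (n := 1) (by norm_num)).hasFDerivAt
  have hgd : HasFDerivAt g ((ContinuousLinearMap.toSpanSingleton ℂ (deriv g w)).restrictScalars ℝ)
      w := hg.hasDerivAt.hasFDerivAt.restrictScalars ℝ
  have h1 : HasFDerivAt (fun w => ‖g w - c‖)
      (N'.comp ((ContinuousLinearMap.toSpanSingleton ℂ (deriv g w)).restrictScalars ℝ)) w :=
    HasFDerivAt.comp (g := fun z : ℂ => ‖z‖) (f := fun w => g w - c) w hNd (hgd.sub_const c)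
  have h2 : HasFDerivAt (fun w => χ₀ (‖g w - c‖ / r))
      (deriv χ₀ (‖g w - c‖ / r) • (r⁻¹ •
        (N'.comp ((ContinuousLinearMap.toSpanSingleton ℂ (deriv g w)).restrictScalars ℝ)))) w := by
    have h3 : HasFDerivAt (fun w => ‖g w - c‖ / r) (r⁻¹ •
        (N'.comp ((ContinuousLinearMap.toSpanSingleton ℂ (deriv g w)).restrictScalars ℝ))) w := by
      have := h1.const_mul r⁻¹
      refine this.congr_of_eventuallyEq (Eventually.of_forall fun x => ?_)
      show ‖g x - c‖ / r = r⁻¹ * ‖g x - c‖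
      rw [div_eq_inv_mul]
    exact ((hcd.differentiable (by norm_num)) _).hasDerivAt.comp_hasFDerivAt w h3
  have h4 := (Complex.ofRealCLM.hasFDerivAt (x := χ₀ (‖g w - c‖ / r))).comp w h2
  have h5 : fderiv ℝ (fun w => ((χ₀ (‖g w - c‖ / r) : ℝ) : ℂ)) w = _ := h4.fderiv
  have h6 : ∀ v : ℂ, ‖fderiv ℝ (fun w => ((χ₀ (‖g w - c‖ / r) : ℝ) : ℂ)) w v‖ ≤
      C₀ / r * ‖deriv g w‖ * ‖v‖ := by
    intro v
    rw [h5]
    simp only [ContinuousLinearMap.comp_apply, _root_.smul_apply, smul_eq_mul,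
      Complex.ofRealCLM_apply, ContinuousLinearMap.coe_restrictScalars',
      ContinuousLinearMap.toSpanSingleton_apply]
    rw [Complex.norm_real, norm_mul, norm_mul, Real.norm_eq_abs, norm_inv, Real.norm_eq_abs,
      abs_of_pos hr]
    have h7 : ‖N' (v * deriv g w)‖ ≤ ‖deriv g w‖ * ‖v‖ := by
      refine (N'.le_opNorm _).trans ?_
      rw [norm_mul]
      have : 0 ≤ ‖v‖ * ‖deriv g w‖ := by positivity
      nlinarith
    calc |deriv χ₀ (‖g w - c‖ / r)| * (r⁻¹ * ‖N' (v * deriv g w)‖)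
        ≤ C₀ * (r⁻¹ * (‖deriv g w‖ * ‖v‖)) :=
          mul_le_mul (hder _) (mul_le_mul_of_nonneg_left h7 (by positivity)) (by positivity) hC₀.le
      _ = C₀ / r * ‖deriv g w‖ * ‖v‖ := by ring
  have h8 : ‖dbar (fun w => ((χ₀ (‖g w - c‖ / r) : ℝ) : ℂ)) w‖ ≤ C₀ / r * ‖deriv g w‖ := by
    unfold dbar
    rw [norm_div]
    have h9 := h6 1
    have h10 := h6 I
    rw [norm_one, mul_one] at h9
    rw [Complex.norm_I, mul_one] at h10
    have h11 := norm_add_le (fderiv ℝ (fun w => ((χ₀ (‖g w - c‖ / r) : ℝ) : ℂ)) w 1)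
      (I * fderiv ℝ (fun w => ((χ₀ (‖g w - c‖ / r) : ℝ) : ℂ)) w I)
    rw [norm_mul, Complex.norm_I, one_mul] at h11
    have h12 : ‖(2 : ℂ)‖ = 2 := by simp
    rw [h12, div_le_iff₀ (by norm_num)]
    linarith
  rw [← ofReal_norm, ← ofReal_norm, ← ENNReal.ofReal_mul (by positivity)]
  exact ENNReal.ofReal_le_ofReal h8

end CUT_aux

open CUT_aux in
theorem t_CUT : S_CUT := by
  intro q hq
  have hq0 : (0 : ℝ) < q := by linarith
  have hl1 : 1 < √q := by
    rw [Real.lt_sqrt (by norm_num)]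
    linarith
  have hlq : √q < q := by
    have := Real.mul_self_sqrt hq0.le
    nlinarith
  obtain ⟨l, hl⟩ : ∃ l : ℝ, l = √q := ⟨_, rfl⟩
  rw [← hl] at hl1 hlq ⊢
  obtain ⟨χ₀, C₀, hC₀, hcd, h0, h1, hone, hzero, hder⟩ :=
    exists_chi0 (1 + (l - 1) / 3) (1 + 2 * (l - 1) / 3) (by linarith)
  refine ⟨ENNReal.ofReal (C₀ ^ 2 * (q ^ 2 * π)), ENNReal.ofReal_ne_top, ?_⟩
  intro f c r hr hf
  obtain ⟨V, hV⟩ : ∃ V : Set ℂ, V = f '' Ann c r (q * r) := ⟨_, rfl⟩
  rw [← hV]
  have hVo : IsOpen V := by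
    rw [hV]
    exact f.isOpenMap _ (isOpen_Ann _ _ _)
  have hg : DifferentiableOn ℂ f.symm V := by
    rw [hV]
    exact symm_diff f (isOpen_Ann _ _ _) hf
  obtain ⟨χ, hχ⟩ : ∃ χ : ℂ → ℝ, χ = fun w => χ₀ (‖f.symm w - c‖ / r) := ⟨_, rfl⟩
  have hcn : Continuous fun x => ‖f.symm x - c‖ := (f.symm.continuous.sub continuous_const).norm
  have hA : ∀ w, ‖f.symm w - c‖ < (1 + (l - 1) / 3) * r → ∀ᶠ x in 𝓝 w, χ x = 1 := by
    intro w hw
    filter_upwards [(isOpen_lt hcn continuous_const).mem_nhds hw] with x hx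
    rw [hχ]
    apply hone
    rw [div_le_iff₀ hr]
    exact le_of_lt hx
  have hB : ∀ w, (1 + 2 * (l - 1) / 3) * r < ‖f.symm w - c‖ → ∀ᶠ x in 𝓝 w, χ x = 0 := by
    intro w hw
    filter_upwards [(isOpen_lt continuous_const hcn).mem_nhds hw] with x hx
    rw [hχ]
    apply hzero
    rw [le_div_iff₀ hr]
    exact le_of_lt hx
  have hmemV : ∀ w, r < ‖f.symm w - c‖ → ‖f.symm w - c‖ < q * r → w ∈ V := by
    intro w h1 h2
    rw [hV]
    exact ⟨f.symm w, ⟨h1, h2⟩, f.apply_symm_apply w⟩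
  have hlr : 0 < (l - 1) * r := mul_pos (by linarith) hr
  have hlqr : l * r < q * r := mul_lt_mul_of_pos_right hlq hr
  have hsm : ContDiff ℝ 1 χ := by
    rw [contDiff_iff_contDiffAt]
    intro w
    rcases lt_or_ge ‖f.symm w - c‖ ((1 + (l - 1) / 3) * r) with hw | hw
    · exact contDiffAt_const.congr_of_eventuallyEq (hA w hw)
    · rcases lt_or_ge ((1 + 2 * (l - 1) / 3) * r) ‖f.symm w - c‖ with hw2 | hw2
      · exact contDiffAt_const.congr_of_eventuallyEq (hB w hw2)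
      · have hwV : w ∈ V := hmemV w (by nlinarith) (by nlinarith)
        have hne : f.symm w - c ≠ 0 := by
          intro h
          rw [h, norm_zero] at hw
          nlinarith
        have hga : ContDiffAt ℝ 1 f.symm w :=
          ((hg.analyticOnNhd hVo w hwV).contDiffAt (n := 1)).restrict_scalars ℝ
        have hcd1 : ContDiff ℝ 1 χ₀ := hcd.of_le (by exact_mod_cast le_top)
        rw [hχ]
        exact hcd1.contDiffAt.comp w (((hga.sub contDiffAt_const).norm ℝ hne).div_const r)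
  have hout : ∀ w, w ∉ f '' closedBall c (l * r) → (1 + 2 * (l - 1) / 3) * r < ‖f.symm w - c‖ := by
    intro w hw
    by_contra hc
    rw [not_lt] at hc
    apply hw
    refine ⟨f.symm w, ?_, f.apply_symm_apply w⟩
    rw [mem_closedBall, dist_eq_norm]
    nlinarith
  have hdb1 : ∀ w, ‖f.symm w - c‖ < (1 + (l - 1) / 3) * r →
      dbar (fun w => (χ w : ℂ)) w = 0 := by
    intro w hw
    rw [dbar_congr (v := fun _ => (1 : ℂ)), dbar_const]
    filter_upwards [hA w hw] with x hx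
    rw [hx, Complex.ofReal_one]
  have hdb2 : ∀ w, (1 + 2 * (l - 1) / 3) * r < ‖f.symm w - c‖ →
      dbar (fun w => (χ w : ℂ)) w = 0 := by
    intro w hw
    rw [dbar_congr (v := fun _ => (0 : ℂ)), dbar_const]
    filter_upwards [hB w hw] with x hx
    rw [hx, Complex.ofReal_zero]
  refine ⟨χ, hsm, ?_, ?_, ?_, ?_, ?_, ?_⟩
  · intro w
    rw [hχ]
    exact h0 _
  · intro w
    rw [hχ]
    exact h1 _
  · rintro _ ⟨z, hz, rfl⟩
    apply hA
    rw [f.symm_apply_apply]
    rw [mem_closedBall, dist_eq_norm] at hz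
    nlinarith
  · intro w hw
    exact (hB w (hout w hw)).self_of_nhds
  · intro w hw
    exact hdb2 w (hout w hw)
  · have hb : ∀ w, ‖dbar (fun w => (χ w : ℂ)) w‖ₑ ≤
        V.indicator (fun w => ENNReal.ofReal (C₀ / r) * ‖deriv f.symm w‖ₑ) w := by
      intro w
      by_cases hw : w ∈ V
      · rw [indicator_of_mem hw]
        have hne : f.symm w - c ≠ 0 := by
          rw [hV] at hw
          obtain ⟨z, hz, rfl⟩ := hw
          rw [f.symm_apply_apply]
          intro h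
          have := hz.1
          rw [h, norm_zero] at this
          linarith
        have := dbar_bound χ₀ C₀ hcd hder hC₀ f.symm c w r hr
          (hg.differentiableAt (hVo.mem_nhds hw)) hne
        rw [hχ]
        exact this
      · rw [indicator_of_notMem hw]
        have h3 : dbar (fun w => (χ w : ℂ)) w = 0 := by
          by_contra hc
          apply hw
          apply hmemV
          · by_contra hc2
            rw [not_lt] at hc2
            exact hc (hdb1 w (by nlinarith))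
          · by_contra hc2
            rw [not_lt] at hc2
            exact hc (hdb2 w (by nlinarith))
        rw [h3, enorm_zero]
    have hi1 : ∫⁻ w, ‖dbar (fun w => (χ w : ℂ)) w‖ₑ ≤
        ENNReal.ofReal (C₀ / r) * ∫⁻ w in V, ‖deriv f.symm w‖ₑ := by
      refine (lintegral_mono hb).trans (le_of_eq ?_)
      rw [lintegral_indicator hVo.measurableSet, lintegral_const_mul' _ _ ENNReal.ofReal_ne_top]
    have hi2 := cs V (fun w => ‖deriv f.symm w‖ₑ) (measurable_deriv _).enorm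
    have hi3 : ∫⁻ w in V, ‖deriv f.symm w‖ₑ ^ 2 ≤ ENNReal.ofReal (q * r) ^ 2 * NNReal.pi := by
      have h4 := lintegral_cv (G := f.symm) (U := V) (S := V) hVo hg f.symm.injective.injOn
        hVo.measurableSet subset_rfl (fun _ => 1)
      simp only [one_mul] at h4
      rw [← h4, setLIntegral_one, ← Complex.volume_ball c]
      apply measure_mono
      rw [hV]
      rintro _ ⟨_, ⟨z, hz, rfl⟩, rfl⟩
      rw [f.symm_apply_apply, mem_ball, dist_eq_norm]
      exact hz.2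
    calc (∫⁻ w, ‖dbar (fun w => (χ w : ℂ)) w‖ₑ) ^ 2
        ≤ (ENNReal.ofReal (C₀ / r) * ∫⁻ w in V, ‖deriv f.symm w‖ₑ) ^ 2 := pow_le_pow_left' hi1 2
      _ = ENNReal.ofReal (C₀ / r) ^ 2 * (∫⁻ w in V, ‖deriv f.symm w‖ₑ) ^ 2 := mul_pow _ _ _
      _ ≤ ENNReal.ofReal (C₀ / r) ^ 2 *
          (volume V * (ENNReal.ofReal (q * r) ^ 2 * NNReal.pi)) := by
            gcongr
            exact hi2.trans (by gcongr)
      _ = ENNReal.ofReal (C₀ ^ 2 * (q ^ 2 * π)) * volume V := by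
            have e1 : (NNReal.pi : ℝ≥0∞) = ENNReal.ofReal π := by
              rw [← NNReal.coe_real_pi, ENNReal.ofReal_coe_nnreal]
            have e2 : ENNReal.ofReal (C₀ ^ 2 * (q ^ 2 * π)) =
                ENNReal.ofReal (C₀ / r) ^ 2 * (ENNReal.ofReal (q * r) ^ 2 * ENNReal.ofReal π) := by
              rw [← ENNReal.ofReal_pow (by positivity), ← ENNReal.ofReal_pow (by positivity),
                ← ENNReal.ofReal_mul (by positivity), ← ENNReal.ofReal_mul (by positivity)]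
              congr 1
              field_simp
            rw [e1, e2]
            ring

end Pool.Agent.RGR
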