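import Pool.Agent.RGR.St

/-!
# Module EQ: equicontinuity of the glued maps at the points outside of the discs
-/

set_option autoImplicit false

namespace Pool.Agent.RGR

open MeasureTheory Metric Set Filter Topology Complex
open scoped ContDiff Real ENNReal
open Pool.Agent.LibHelper41 Pool.Agent.LibHelper41.Remov

namespace EQ_aux

/-- A unit number which turns `v` into its norm. -/
theorem exists_unit (v : ℂ) : ∃ u : ℂ, ‖u‖ = 1 ∧ (u * v).re = ‖v‖ := by
  by_cases hv : v = 0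
  · exact ⟨1, by simp, by simp [hv]⟩
  · have hn : (‖v‖ : ℝ) ≠ 0 := norm_ne_zero_iff.2 hv
    refine ⟨(starRingEnd ℂ) v / ‖v‖, ?_, ?_⟩
    · rw [norm_div, RCLike.norm_conj, Complex.norm_real, norm_norm, div_self hn]
    · have h : (starRingEnd ℂ) v / ‖v‖ * v = ((‖v‖ : ℝ) : ℂ) := by
        have hn' : ((‖v‖ : ℝ) : ℂ) ≠ 0 := by exact_mod_cast hn
        rw [div_mul_eq_mul_div, mul_comm, Complex.mul_conj, Complex.normSq_eq_norm_sq,
          div_eq_iff hn']
        push_cast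
        ring
      rw [h, Complex.ofReal_re]

theorem lip_re (u : ℂ) (hu : ‖u‖ = 1) : LipschitzWith 1 (fun v : ℂ => (u * v).re) := by
  refine LipschitzWith.of_dist_le_mul fun x y => ?_
  rw [Real.dist_eq, ← Complex.sub_re, ← mul_sub, NNReal.coe_one, one_mul, dist_eq_norm]
  calc |(u * (x - y)).re| ≤ ‖u * (x - y)‖ := Complex.abs_re_le_norm _
    _ = ‖x - y‖ := by rw [norm_mul, hu, one_mul]

theorem diff_re (u : ℂ) (V : Set ℂ) : DifferentiableOn ℝ (fun v : ℂ => (u * v).re) V := by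
  have h : Differentiable ℝ (fun v : ℂ => (u * v).re) :=
    (Complex.reCLM.differentiable).comp ((differentiable_id).const_mul u)
  exact h.differentiableOn

/-- The image of a circle around `p` under a functional of norm one has length at least the distance
of the images of `p` and of a point inside of the circle. -/
theorem vol_cross (hTOP : S_TOP) (g : ℂ ≃ₜ ℂ) (p w u : ℂ) (ρ : ℝ) (V : Set ℂ) (hρ : 0 < ρ)
    (hw : w ∈ closedBall p ρ) (hu : ‖u‖ = 1) (hV : g '' sphere p ρ ⊆ V)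
    (h : (u * (g w - g p)).re = ‖g w - g p‖) :
    edist (g w) (g p) ≤ volume ((fun v : ℂ => (u * v).re) '' (V ∩ g '' sphere p ρ)) := by
  rw [inter_eq_right.2 hV]
  have hcon : IsPreconnected ((fun v : ℂ => (u * v).re) '' (g '' sphere p ρ)) := by
    have h1 : IsPreconnected (sphere p ρ) := by
      refine isPreconnected_sphere ?_ p ρ
      rw [Complex.rank_real_complex]
      exact_mod_cast Nat.one_lt_two
    have h2 : IsPreconnected (g '' sphere p ρ) := h1.image _ g.continuous.continuousOn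
    exact h2.image _ (lip_re u hu).continuous.continuousOn
  obtain ⟨y₁, hy₁, e₁⟩ := hTOP.1 g p u ρ hρ hu w hw
  obtain ⟨y₂, hy₂, e₂⟩ := hTOP.1 g p u ρ hρ hu p (mem_closedBall_self hρ.le)
  have m₁ : (u * g w).re ∈ (fun v : ℂ => (u * v).re) '' (g '' sphere p ρ) :=
    ⟨g y₁, ⟨y₁, hy₁, rfl⟩, e₁⟩
  have m₂ : (u * g p).re ∈ (fun v : ℂ => (u * v).re) '' (g '' sphere p ρ) :=
    ⟨g y₂, ⟨y₂, hy₂, rfl⟩, e₂⟩
  calc edist (g w) (g p) = ENNReal.ofReal ((u * g w).re - (u * g p).re) := by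
        rw [edist_dist, dist_eq_norm, ← h, mul_sub, Complex.sub_re]
    _ = volume (Icc ((u * g p).re) ((u * g w).re)) := (Real.volume_Icc).symm
    _ ≤ _ := measure_mono (hcon.Icc_subset m₂ m₁)

end EQ_aux

open EQ_aux in
theorem t_EQ : S_MN → S_TOP → S_EQ := by
  intro hMN hTOP ι q R₁ N E c r f hR hf z₀ hz₀ η hη
  have hR1 : 0 < R₁ := hR.R1
  have hcpt : IsCompact (f.symm '' closedBall (f z₀) 1) :=
    (isCompact_closedBall (f z₀) 1).image f.symm.continuous
  obtain ⟨ρ₁, hρ₁⟩ := hcpt.isBounded.subset_closedBall (0 : ℂ)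
  obtain ⟨M', hM'⟩ : ∃ M' : ℝ, M' = max 1 (ρ₁ / R₁) := ⟨_, rfl⟩
  have hbd : ∀ (s : Finset ι) (F : ℂ ≃ₜ ℂ), Good f E R₁ c r s F →
      ∀ w ∈ closedBall (f z₀) 1, ‖F (f.symm w)‖ ≤ M' := by
    intro s F hF w hw
    have h1 : f.symm w ∈ closedBall (0 : ℂ) ρ₁ := hρ₁ ⟨w, hw, rfl⟩
    have h2 : ‖f.symm w‖ ≤ ρ₁ := by simpa using h1
    rw [hM']
    rcases le_total ‖f.symm w‖ R₁ with h | h
    · exact (hF.nrm.le_one _ h).trans (le_max_left _ _)
    · exact (hF.nrm.up _ h).trans ((div_le_div_of_nonneg_right h2 hR1.le).trans (le_max_right _ _))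
  obtain ⟨M, hM⟩ : ∃ M : ℝ≥0∞, M = max (volume (ball (0 : ℂ) (M' + 1)))
    (volume (ball (0 : ℂ) 2)) := ⟨_, rfl⟩
  have hMt : M < ⊤ := by
    rw [hM]
    exact max_lt measure_ball_lt_top measure_ball_lt_top
  -- the annuli miss `E`
  have hann : ∀ j, Ann (c j) (r j) (q * r j) ⊆ Eᶜ := by
    intro j z hz hzE
    have hz' : r j < ‖z - c j‖ ∧ ‖z - c j‖ < q * r j := hz
    refine Set.disjoint_left.1 (hR.off j) ⟨?_, ?_⟩ hzE
    · rw [mem_closedBall, dist_eq_norm]; exact hz'.2.le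
    · rw [mem_ball, dist_eq_norm]; exact not_lt.2 hz'.1.le
  have hmult : ∀ (s : Finset ι) (z : ℂ),
      {j | j ∈ s ∧ z ∈ Ann (c j) (r j) (q * r j)}.encard ≤ N := by
    intro s z
    rcases Set.eq_empty_or_nonempty {j | j ∈ s ∧ z ∈ Ann (c j) (r j) (q * r j)} with h | ⟨j₀, hj₀⟩
    · rw [h, Set.encard_empty]; exact zero_le
    · refine (Set.encard_le_encard ?_).trans (hR.nb j₀)
      intro k hk
      have h1 : r j₀ < ‖z - c j₀‖ ∧ ‖z - c j₀‖ < q * r j₀ := hj₀.2
      have h2 : r k < ‖z - c k‖ ∧ ‖z - c k‖ < q * r k := hk.2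
      have m1 : z ∈ closedBall (c j₀) (q * r j₀) := by
        rw [mem_closedBall, dist_eq_norm]; exact h1.2.le
      have m2 : z ∈ closedBall (c k) (q * r k) := by
        rw [mem_closedBall, dist_eq_norm]; exact h2.2.le
      exact fun hd => Set.disjoint_left.1 hd m1 m2
  have key : ∀ δ : ℝ, 0 < δ → δ < 1 → ∀ (s : Finset ι) (F : ℂ ≃ₜ ℂ), Good f E R₁ c r s F →
      ∀ w ∈ ball (f z₀) δ, edist (F (f.symm w)) (F z₀) ^ 2 * ENNReal.ofReal (Real.log (1 / δ)) ≤
        ENNReal.ofReal (2 * π * (1 + 2 * π * N / Real.log q) ^ 2) * M := by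
    intro δ hδ hδ1 s F hF w hw
    refine hMN f F ι s c r q N (f z₀) δ 1 (ball 0 (M' + 1)) (ball 0 2) _ M hR.q1
      (fun j _ => hR.pos j) (hmult s) (fun j _ => hf.mono (hann j)) (fun j _ => ?_) hF.glue
      (fun j _ => ?_) hδ hδ1 isOpen_ball ?_ (fun j _ => ?_) ?_ ?_
    · refine hF.hol.mono fun z hz hz' => ?_
      exact hann j hz hz'.1
    · rintro ⟨x, hx, hxe⟩
      rw [f.injective hxe] at hx
      exact hz₀ j hx
    · rw [hM]; exact le_max_left _ _
    · rintro _ ⟨z, hz, rfl⟩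
      have h2 : r j < ‖z - c j‖ ∧ ‖z - c j‖ < q * r j := hz
      have h3 : z ∈ ball (0 : ℂ) R₁ := by
        refine hR.inb j ?_
        rw [mem_closedBall, dist_eq_norm]; exact h2.2.le
      have h4 : ‖F z‖ ≤ 1 := hF.nrm.le_one z (by simpa using (mem_ball.1 h3).le)
      rw [mem_ball, dist_zero_right]
      linarith
    · rw [hM]; exact le_max_right _ _
    · intro ρ hρ
      obtain ⟨u, hu, hu'⟩ := exists_unit (F (f.symm w) - F (f.symm (f z₀)))
      have hsub : (f.symm.trans F) '' sphere (f z₀) ρ ⊆ ball (0 : ℂ) (M' + 1) := by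
        rintro _ ⟨x, hx, rfl⟩
        have hx1 : x ∈ closedBall (f z₀) 1 := by
          rw [mem_closedBall, mem_sphere.1 hx]; exact hρ.2.le
        have h5 := hbd s F hF x hx1
        rw [mem_ball, dist_zero_right]
        exact lt_of_le_of_lt h5 (lt_add_one _)
      have hv := vol_cross hTOP (f.symm.trans F) (f z₀) w u ρ (ball 0 (M' + 1)) (hδ.trans hρ.1)
        (by rw [mem_closedBall]; exact ((mem_ball.1 hw).trans hρ.1).le) hu hsub hu'
      refine ⟨fun v => (u * v).re, ball 0 (M' + 1), lip_re u hu, isOpen_ball, subset_rfl,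
        diff_re u _, ?_⟩
      have e1 : (f.symm.trans F) (f z₀) = F z₀ := by simp
      rw [e1] at hv
      exact hv
  -- the choice of `δ`
  obtain ⟨K, hK⟩ : ∃ K : ℝ, K =
    (ENNReal.ofReal (2 * π * (1 + 2 * π * N / Real.log q) ^ 2) * M).toReal := ⟨_, rfl⟩
  have hK0 : 0 ≤ K := by rw [hK]; exact ENNReal.toReal_nonneg
  have hKe : ENNReal.ofReal (2 * π * (1 + 2 * π * N / Real.log q) ^ 2) * M = ENNReal.ofReal K := by
    rw [hK, ENNReal.ofReal_toReal]
    exact ENNReal.mul_ne_top ENNReal.ofReal_ne_top hMt.ne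
  obtain ⟨L, hL⟩ : ∃ L : ℝ, L = K / η ^ 2 + 1 := ⟨_, rfl⟩
  have hL1 : 0 < L := by rw [hL]; positivity
  have hδ1 : Real.exp (-L) < 1 := by rw [Real.exp_lt_one_iff]; linarith
  have hlog : Real.log (1 / Real.exp (-L)) = L := by
    rw [one_div, ← Real.exp_neg, neg_neg, Real.log_exp]
  obtain ⟨κ, hκ, hκ'⟩ := Metric.continuous_iff.1 f.continuous z₀ (Real.exp (-L)) (Real.exp_pos _)
  refine ⟨κ, hκ, fun s F hF z hz => ?_⟩
  have h1 := key (Real.exp (-L)) (Real.exp_pos _) hδ1 s F hF (f z) (hκ' z hz)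
  rw [hlog, hKe, f.symm_apply_apply, edist_dist, ← ENNReal.ofReal_pow dist_nonneg,
    ← ENNReal.ofReal_mul (by positivity), ENNReal.ofReal_le_ofReal_iff hK0] at h1
  by_contra hcon
  push Not at hcon
  have h2 : η ^ 2 < dist (F z) (F z₀) ^ 2 := by
    have := hη.le
    exact pow_lt_pow_left₀ hcon this (by norm_num)
  have h3 : η ^ 2 * L = K + η ^ 2 := by
    rw [hL]; field_simp
  have h4 : η ^ 2 * L < dist (F z) (F z₀) ^ 2 * L := mul_lt_mul_of_pos_right h2 hL1
  have h5 : 0 < η ^ 2 := by positivity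
  linarith

end Pool.Agent.RGR
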