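import Pool.Agent.RGR.St

/-!
# Module EX: existence of the normalised glued maps
-/

set_option autoImplicit false

namespace Pool.Agent.RGR

open MeasureTheory Metric Set Filter Topology Complex
open scoped ContDiff Real ENNReal
open Pool.Agent.LibHelper41 Pool.Agent.LibHelper41.Remov

theorem t_EX : S_GLU → S_NRM → S_EX := by
  intro hG hN ι q R₁ N E c r f hR hf s
  have hsph : ∀ j ∈ s, Disjoint (sphere (c j) (r j)) E := by
    intro j _
    refine (hR.off j).mono_left fun z hz => ?_
    rw [mem_sphere] at hz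
    refine ⟨?_, ?_⟩
    · rw [mem_closedBall, hz]
      have h1 := hR.pos j
      have h2 := hR.q1
      nlinarith
    · rw [mem_ball, hz]
      exact lt_irrefl _
  obtain ⟨F, hF1, hF2, hF3⟩ := hG f E ι s c r hR.cpt hf hsph
  obtain ⟨a, b, ha, hn⟩ := hN F (E \ ⋃ j ∈ s, ball (c j) (r j)) R₁ hR.R1
    (sdiff_subset.trans hR.sub) hF1 hF2
  refine ⟨F.trans ((Homeomorph.mulLeft₀ a ha).trans (Homeomorph.addRight b)), ?_, ?_, ?_⟩
  · exact hn
  · exact (hF1.const_mul a).add_const b
  · exact (hF3.const_mul a).add_const b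

end Pool.Agent.RGR
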