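import Pool.Agent.RGR.St
import Pool.Agent.Lib_helper41.Remov.Weyl
import Pool.Agent.Lib_helper41.Weld.Inj

/-!
# Rings and conformal removability: module FIN
-/

set_option autoImplicit false

namespace Pool.Agent.RGR

open MeasureTheory Metric Set Filter Topology Complex
open scoped ContDiff Real ENNReal
open Pool.Agent.LibHelper41 Pool.Agent.LibHelper41.Remov

namespace FIN_aux

/-- the points of the ball off `E` with distance at most `δ` from `E` -/
def Sh (E : Set ℂ) (R₁ δ : ℝ) : Set ℂ := {z | z ∈ ball (0 : ℂ) R₁ ∧ z ∉ E ∧ infDist z E ≤ δ}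

theorem Sh_mono {E : Set ℂ} {R₁ δ δ' : ℝ} (h : δ ≤ δ') : Sh E R₁ δ ⊆ Sh E R₁ δ' :=
  fun _ hz => ⟨hz.1, hz.2.1, hz.2.2.trans h⟩

theorem Sh_meas {E : Set ℂ} (hE : IsCompact E) (R₁ δ : ℝ) : MeasurableSet (Sh E R₁ δ) := by
  have h1 : Sh E R₁ δ = ball (0 : ℂ) R₁ ∩ (Eᶜ ∩ {z | infDist z E ≤ δ}) := rfl
  rw [h1]
  exact measurableSet_ball.inter (hE.isClosed.measurableSet.compl.inter
    (isClosed_le (continuous_infDist_pt E) continuous_const).measurableSet)

theorem rm_mono {K K' : Set ℂ} (h : Rm K) (hK : K' ⊆ K) : Rm K' :=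
  fun F hF => h F (hF.mono (compl_subset_compl.2 hK))

theorem vol_tendsto (f : ℂ ≃ₜ ℂ) {E : Set ℂ} (hE : IsCompact E) (hne : E.Nonempty) {R₁ κ : ℝ}
    (hκ : 0 ≤ κ) :
    Tendsto (fun n : ℕ => volume (f '' Sh E R₁ (κ * (1 / ((n : ℝ) + 1))))) atTop (𝓝 0) := by
  have hlim : Tendsto (fun n : ℕ => κ * (1 / ((n : ℝ) + 1))) atTop (𝓝 0) := by
    simpa using (tendsto_one_div_add_atTop_nhds_zero_nat (𝕜 := ℝ)).const_mul κ
  have h1 : Tendsto (volume ∘ fun n : ℕ => f '' Sh E R₁ (κ * (1 / ((n : ℝ) + 1)))) atTop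
      (𝓝 (volume (⋂ n : ℕ, f '' Sh E R₁ (κ * (1 / ((n : ℝ) + 1)))))) := by
    refine tendsto_measure_iInter_atTop ?_ ?_ ?_
    · intro n
      exact (f.toMeasurableEquiv.measurableSet_image.2 (Sh_meas hE _ _)).nullMeasurableSet
    · intro m n hmn
      refine image_mono (Sh_mono ?_)
      refine mul_le_mul_of_nonneg_left ?_ hκ
      exact one_div_le_one_div_of_le (by positivity) (by exact_mod_cast Nat.add_le_add_right hmn 1)
    · refine ⟨0, ne_of_lt ?_⟩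
      refine lt_of_le_of_lt (measure_mono (image_mono
        (fun z hz => ball_subset_closedBall hz.1 : Sh E R₁ _ ⊆ closedBall (0 : ℂ) R₁))) ?_
      exact ((isCompact_closedBall (0 : ℂ) R₁).image f.continuous).measure_lt_top
  have h2 : (⋂ n : ℕ, f '' Sh E R₁ (κ * (1 / ((n : ℝ) + 1)))) = ∅ := by
    refine eq_empty_iff_forall_notMem.2 fun w hw => ?_
    have h3 : ∀ n : ℕ, f.symm w ∈ Sh E R₁ (κ * (1 / ((n : ℝ) + 1))) := by
      intro n
      obtain ⟨z, hz, hzw⟩ := mem_iInter.1 hw n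
      rw [← hzw, f.symm_apply_apply]
      exact hz
    have h4 : infDist (f.symm w) E ≤ 0 :=
      ge_of_tendsto' hlim fun n => (h3 n).2.2
    have h5 : infDist (f.symm w) E = 0 := le_antisymm h4 infDist_nonneg
    exact (h3 0).2.1 ((hE.isClosed.mem_iff_infDist_zero hne).2 h5)
  rw [h2, measure_empty] at h1
  exact h1

theorem ann_sub {ι : Type} {q R₁ : ℝ} {N : ℕ} {E : Set ℂ} {c : ι → ℂ} {r : ι → ℝ}
    (h : Rings q R₁ N E c r) {ε : ℝ} (hr : ∀ j, r j ≤ ε)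
    (hn : ∀ j, (E ∩ ball (c j) (r j)).Nonempty) :
    (⋃ j, Ann (c j) (r j) (q * r j)) ⊆ Sh E R₁ ((1 + q) * ε) := by
  intro z hz
  obtain ⟨j, hj⟩ := mem_iUnion.1 hz
  have hj1 : r j < ‖z - c j‖ := hj.1
  have hj2 : ‖z - c j‖ < q * r j := hj.2
  have hzb : z ∈ closedBall (c j) (q * r j) := by
    rw [mem_closedBall, dist_eq_norm]
    exact hj2.le
  have hznb : z ∉ ball (c j) (r j) := by
    rw [mem_ball, dist_eq_norm]
    exact not_lt.2 hj1.le
  refine ⟨h.inb j hzb, fun hzE => ?_, ?_⟩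
  · exact (disjoint_left.1 (h.off j)) ⟨hzb, hznb⟩ hzE
  · obtain ⟨e, heE, heb⟩ := hn j
    have h1 : infDist z E ≤ dist z e := infDist_le_dist_of_mem heE
    have h2 : dist z e ≤ dist z (c j) + dist (c j) e := dist_triangle _ _ _
    have h3 : dist (c j) e < r j := by rw [dist_comm]; exact heb
    have h4 : dist z (c j) < q * r j := by rw [dist_eq_norm]; exact hj2
    have h5 : (1 + q) * r j ≤ (1 + q) * ε :=
      mul_le_mul_of_nonneg_left (hr j) (by linarith [h.q1])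
    nlinarith

theorem int_zero (hO : S_ONE) (hS : S_SEL) {E : Set ℂ} {Q : ℝ} (hE : IsCompact E)
    (hne : E.Nonempty) (hQ : 1 < Q) (h : ∀ ε : ℝ, 0 < ε → Rm (E \ UU Q E ε)) (f : ℂ ≃ₜ ℂ)
    (hf : DifferentiableOn ℂ f Eᶜ) (φ : ℂ → ℂ) (hφ : ContDiff ℝ ∞ φ)
    (hφc : HasCompactSupport φ) : ∫ w, f.symm w * dbar φ w = 0 := by
  obtain ⟨N, hN⟩ := hS Q hQ
  obtain ⟨R_E, hR0, hRE⟩ := hE.isBounded.subset_ball_lt 0 (0 : ℂ)
  have hq : 1 < √Q := by
    rw [Real.lt_sqrt (by norm_num)]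
    simpa using hQ
  obtain ⟨C, hC, hC2⟩ := hO (√Q) (R_E + 1 + Q) N E f φ hq (by linarith) hf hφ hφc
  have h1 : ∀ n : ℕ, ‖∫ w, f.symm w * dbar φ w‖ₑ ^ 2 ≤
      C * volume (f '' Sh E (R_E + 1 + Q) ((1 + √Q) * (1 / ((n : ℝ) + 1)))) := by
    intro n
    have hε0 : 0 < 1 / ((n : ℝ) + 1) := Nat.one_div_pos_of_nat
    have hε1 : 1 / ((n : ℝ) + 1) ≤ 1 := by
      rw [div_le_one (by positivity)]
      have := Nat.cast_nonneg (α := ℝ) n
      linarith
    obtain ⟨ι, c, r, hR, hr, hn, hcov⟩ := hN E R_E hE hR0 hRE _ hε0 hε1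
    have h2 : Rm (E \ ⋃ j, ball (c j) (r j)) := by
      refine rm_mono (h _ hε0) ?_
      intro z hz
      exact ⟨hz.1, fun hzU => hz.2 (hcov ⟨hz.1, hzU⟩)⟩
    refine (hC2 ι c r hR h2).trans ?_
    exact mul_le_mul_right (measure_mono (image_mono (ann_sub hR hr hn))) C
  have h3 : Tendsto (fun n : ℕ => C *
      volume (f '' Sh E (R_E + 1 + Q) ((1 + √Q) * (1 / ((n : ℝ) + 1))))) atTop (𝓝 (C * 0)) :=
    ENNReal.Tendsto.const_mul (vol_tendsto f hE hne (by positivity)) (Or.inr hC)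
  have h4 : ‖∫ w, f.symm w * dbar φ w‖ₑ ^ 2 ≤ C * 0 := ge_of_tendsto' h3 h1
  rw [mul_zero] at h4
  have h5 : ‖∫ w, f.symm w * dbar φ w‖ₑ ^ 2 = 0 := le_antisymm h4 zero_le
  have h6 : ‖∫ w, f.symm w * dbar φ w‖ₑ = 0 := by
    by_contra hcon
    exact (pow_ne_zero 2 hcon) h5
  exact enorm_eq_zero.1 h6

end FIN_aux

open FIN_aux in
theorem t_FIN : S_ONE → S_SEL → S_FIN := by
  intro hO hS E Q hE hQ h f hf
  rcases E.eq_empty_or_nonempty with hne | hne
  · rw [hne, compl_empty] at hf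
    exact differentiableOn_univ.1 hf
  have hWD : WD univ f.symm (fun _ => 0) := by
    intro φ hφ hφc _
    rw [int_zero hO hS hE hne hQ h f hf φ hφ hφc]
    simp
  have hd : DifferentiableOn ℂ f.symm univ :=
    WD.differentiableOn f.symm.continuous isOpen_univ hWD (Eventually.of_forall fun _ _ => rfl)
  intro z
  have hdz : deriv f.symm (f z) ≠ 0 :=
    Pool.Agent.LibHelper41.Weld.deriv_ne_zero_of_injOn isOpen_univ hd f.symm.injective.injOn
      (mem_univ (f z))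
  have h1 : HasDerivAt f.symm (deriv f.symm (f z)) (f z) :=
    (hd.differentiableAt univ_mem).hasDerivAt
  exact (HasDerivAt.of_local_left_inverse f.continuous.continuousAt h1 hdz
    (Eventually.of_forall fun x => f.symm_apply_apply x)).differentiableAt

end Pool.Agent.RGR
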