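import Pool.Agent.RGR.St
import Pool.Agent.Lib_helper41.Weld.Glob

/-!
# GLU: finite conformal gluing
-/

set_option autoImplicit false

open MeasureTheory Metric Set Filter Topology Complex
open scoped ContDiff Real ENNReal
open Pool.Agent.LibHelper41 Pool.Agent.LibHelper41.Remov

namespace Pool.Agent.RGR

theorem t_GLU : S_GLU := by
  intro f E ι s c r hE hf hs
  set K : Set ℂ := E \ ⋃ j ∈ s, ball (c j) (r j) with hKdef
  set G : Set ℂ := (⋃ j ∈ s, closedBall (c j) (r j))ᶜ with hGdef
  have hK : IsCompact K := hE.diff (isOpen_biUnion fun j _ => isOpen_ball)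
  have hG : IsOpen G := (isClosed_biUnion_finset fun j _ => isClosed_closedBall).isOpen_compl
  have hKG : K ⊆ G := by
    rintro z ⟨hzE, hzB⟩ hz
    simp only [mem_iUnion, exists_prop, not_exists, not_and] at hzB
    obtain ⟨j, hj, hzj⟩ := mem_iUnion₂.1 hz
    rw [← ball_union_sphere] at hzj
    rcases hzj with h | h
    · exact hzB j hj h
    · exact Set.disjoint_left.1 (hs j hj) h hzE
  have hGE : G \ K ⊆ Eᶜ := by
    rintro z ⟨hzG, hzK⟩ hzE
    apply hzK
    refine ⟨hzE, fun hz => hzG ?_⟩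
    obtain ⟨j, hj, hzj⟩ := mem_iUnion₂.1 hz
    exact mem_iUnion₂.2 ⟨j, hj, ball_subset_closedBall hzj⟩
  obtain ⟨F, Φ, W, hFd, hFinf, hW, hKW, hWG, hΦ, hFW⟩ :=
    Weld.exists_global f hK hG hKG (hf.mono hGE)
  refine ⟨F, hFd, hFinf, ?_⟩
  intro w hw
  set z := f.symm w with hz
  have hfz : f z = w := f.apply_symm_apply w
  have hzG : z ∈ G := by
    intro h
    obtain ⟨j, hj, hzj⟩ := mem_iUnion₂.1 h
    exact hw (mem_iUnion₂.2 ⟨j, hj, z, hzj, hfz⟩)
  apply DifferentiableAt.differentiableWithinAt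
  by_cases hzW : z ∈ W
  · have h1 : DifferentiableAt ℂ Φ w := by
      rw [← hfz]
      exact (hΦ z hzW).differentiableAt
    refine h1.congr_of_eventuallyEq ?_
    have h2 : ∀ᶠ w' in 𝓝 w, f.symm w' ∈ W :=
      f.symm.continuous.continuousAt.eventually_mem (hW.mem_nhds hzW)
    filter_upwards [h2] with w' hw'
    rw [hFW _ hw', f.apply_symm_apply]
  · have hzK : z ∉ K := fun h => hzW (hKW h)
    have hzE : z ∈ Eᶜ := hGE ⟨hzG, hzK⟩
    have hEo : IsOpen Eᶜ := hE.isClosed.isOpen_compl
    have hd := Weld.deriv_ne_zero_of_injOn hEo hf (f.injective.injOn) hzE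
    have hfd : DifferentiableAt ℂ f z := hf.differentiableAt (hEo.mem_nhds hzE)
    have h1 : HasDerivAt f (deriv f z) (f.symm w) := hfd.hasDerivAt
    have h2 : HasDerivAt (fun w => f.symm w) (deriv f z)⁻¹ w :=
      HasDerivAt.of_local_left_inverse f.symm.continuous.continuousAt h1 hd
        (Eventually.of_forall fun y => f.apply_symm_apply y)
    have h3 : DifferentiableAt ℂ F (f.symm w) :=
      hFd.differentiableAt (hK.isClosed.isOpen_compl.mem_nhds hzK)
    exact h3.comp w h2.differentiableAt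

end Pool.Agent.RGR
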