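import Pool.Agent.RGR.St
import Pool.Agent.Lib_helper41.Weld.Inj

/-!
# Module IN: uniform injectivity
-/

set_option autoImplicit false

namespace Pool.Agent.RGR

open MeasureTheory Metric Set Filter Topology Complex
open scoped ContDiff Real ENNReal
open Pool.Agent.LibHelper41 Pool.Agent.LibHelper41.Remov

namespace IN_aux

/-- the inverse of a glued homeomorphism is holomorphic -/
theorem inv_diff (f F : ℂ ≃ₜ ℂ) (K : Set ℂ) (hK : IsCompact K)
    (h : DifferentiableOn ℂ (fun w => F (f.symm w)) (f '' K)ᶜ) :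
    DifferentiableOn ℂ (fun w => f (F.symm w)) (F '' K)ᶜ := by
  have hO : IsOpen (f '' K)ᶜ := (hK.image f.continuous).isClosed.isOpen_compl
  intro w hw
  have hv : f (F.symm w) ∈ (f '' K)ᶜ := by
    rintro ⟨x, hx, hxw⟩
    apply hw
    refine ⟨x, hx, ?_⟩
    rw [f.injective hxw, F.apply_symm_apply]
  have hinj : InjOn (fun w => F (f.symm w)) (f '' K)ᶜ := fun x _ y _ hxy =>
    f.symm.injective (F.injective hxy)
  have hd := Pool.Agent.LibHelper41.Weld.deriv_ne_zero_of_injOn hO h hinj hv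
  have hda : HasDerivAt (fun w => F (f.symm w)) (deriv (fun w => F (f.symm w)) (f (F.symm w)))
      (f (F.symm w)) := (h.differentiableAt (hO.mem_nhds hv)).hasDerivAt
  have hcont : ContinuousAt (fun w => f (F.symm w)) w :=
    (f.continuous.comp F.symm.continuous).continuousAt
  have h2 := HasDerivAt.of_local_left_inverse (f := fun w => F (f.symm w))
    (g := fun w => f (F.symm w)) (a := w) hcont hda hd
    (Filter.Eventually.of_forall fun y => by
      rw [f.symm_apply_apply, F.apply_symm_apply])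
  exact h2.differentiableAt.differentiableWithinAt

theorem exists_rot (v : ℂ) : ∃ u : ℂ, ‖u‖ = 1 ∧ u * v = (‖v‖ : ℂ) := by
  by_cases hv : v = 0
  · exact ⟨1, norm_one, by rw [hv]; simp⟩
  · have hn : (‖v‖ : ℂ) ≠ 0 := by
      rw [Ne, Complex.ofReal_eq_zero, norm_eq_zero]
      exact hv
    refine ⟨(starRingEnd ℂ) v / (‖v‖ : ℂ), ?_, ?_⟩
    · rw [norm_div, RCLike.norm_conj, Complex.norm_real, norm_norm, div_self]
      rwa [Ne, norm_eq_zero]
    · rw [div_mul_eq_mul_div, mul_comm ((starRingEnd ℂ) v) v, Complex.mul_conj, div_eq_iff hn,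
        Complex.normSq_eq_norm_sq]
      push_cast
      ring

theorem lip_re (u : ℂ) (hu : ‖u‖ = 1) : LipschitzWith 1 fun v : ℂ => (u * v).re := by
  refine LipschitzWith.of_dist_le_mul fun x y => ?_
  rw [Real.dist_eq, NNReal.coe_one, one_mul, ← Complex.sub_re, ← mul_sub, Complex.dist_eq]
  refine (Complex.abs_re_le_norm _).trans ?_
  rw [norm_mul, hu, one_mul]

theorem sphere_conn (p : ℂ) (ρ : ℝ) : IsPreconnected (sphere p ρ) := by
  refine isPreconnected_sphere ?_ p ρ
  rw [Complex.rank_real_complex]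
  norm_num

/-- the image of a circle which surrounds two points -/
theorem cross (hTOP : S_TOP) (g : ℂ ≃ₜ ℂ) (p x y : ℂ) (ρ M₀ : ℝ) (hρ : 0 < ρ)
    (hx : x ∈ closedBall p ρ) (hy : y ∈ closedBall p ρ) (hM : 0 < M₀)
    (h1 : ∃ w ∈ sphere p ρ, g w ∈ ball 0 M₀) :
    ∃ (ψ : ℂ → ℝ) (V' : Set ℂ), LipschitzWith 1 ψ ∧ IsOpen V' ∧ V' ⊆ ball 0 (2 * M₀) ∧
      DifferentiableOn ℝ ψ V' ∧
      ENNReal.ofReal (min ‖g x - g y‖ M₀) ≤ volume (ψ '' (V' ∩ g '' sphere p ρ)) := by
  have hT : IsPreconnected (g '' sphere p ρ) :=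
    (sphere_conn p ρ).image g g.continuous.continuousOn
  by_cases h2 : g '' sphere p ρ ⊆ ball 0 (2 * M₀)
  · obtain ⟨u, hu, hux⟩ := exists_rot (g x - g y)
    refine ⟨fun v => (u * v).re, ball 0 (2 * M₀), lip_re u hu, isOpen_ball, le_rfl, ?_, ?_⟩
    · have : Differentiable ℝ fun v : ℂ => (u * v).re :=
        Complex.reCLM.differentiable.comp ((differentiable_const u).mul differentiable_id)
      exact this.differentiableOn
    · rw [inter_eq_right.2 h2]
      obtain ⟨x', hx', hx''⟩ := hTOP.1 g p u ρ hρ hu x hx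
      obtain ⟨y', hy', hy''⟩ := hTOP.1 g p u ρ hρ hu y hy
      have hsub : Icc ((u * g y).re) ((u * g x).re) ⊆
          (fun v : ℂ => (u * v).re) '' (g '' sphere p ρ) := by
        rw [← hx'', ← hy'']
        exact hT.intermediate_value (mem_image_of_mem g hy') (mem_image_of_mem g hx')
          (lip_re u hu).continuous.continuousOn
      refine le_trans ?_ (measure_mono hsub)
      rw [Real.volume_Icc]
      refine ENNReal.ofReal_le_ofReal ((min_le_left _ _).trans (le_of_eq ?_))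
      rw [← Complex.sub_re, ← mul_sub, hux, Complex.ofReal_re]
  · obtain ⟨z, hz, hz2⟩ := not_subset.1 h2
    obtain ⟨w, hw, hw2⟩ := h1
    refine ⟨fun v => ‖v‖, {v | M₀ < ‖v‖ ∧ ‖v‖ < 2 * M₀}, lipschitzWith_one_norm, ?_, ?_, ?_, ?_⟩
    · exact (isOpen_lt continuous_const continuous_norm).inter
        (isOpen_lt continuous_norm continuous_const)
    · intro v hv
      rw [mem_ball_zero_iff]
      exact hv.2
    · intro v hv
      have hv0 : v ≠ 0 := by
        rintro rfl
        have := hv.1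
        rw [norm_zero] at this
        linarith
      exact ((contDiffAt_norm ℝ hv0).differentiableAt one_ne_zero).differentiableWithinAt
    · have hsub : Ioo M₀ (2 * M₀) ⊆
          (fun v : ℂ => ‖v‖) '' ({v | M₀ < ‖v‖ ∧ ‖v‖ < 2 * M₀} ∩ g '' sphere p ρ) := by
        intro t ht
        have hcont : ContinuousOn (fun v : ℂ => ‖v‖) (g '' sphere p ρ) :=
          continuous_norm.continuousOn
        have h3 := hT.intermediate_value (mem_image_of_mem g hw) hz hcont
        rw [mem_ball_zero_iff] at hw2 hz2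
        obtain ⟨v, hv, hv2⟩ := h3 ⟨(hw2.trans ht.1).le, ht.2.le.trans (not_lt.1 hz2)⟩
        refine ⟨v, ⟨?_, hv⟩, hv2⟩
        change M₀ < ‖v‖ ∧ ‖v‖ < 2 * M₀
        have hv3 : ‖v‖ = t := hv2
        rw [hv3]
        exact ht
      refine le_trans ?_ (measure_mono hsub)
      rw [Real.volume_Ioo]
      refine ENNReal.ofReal_le_ofReal ((min_le_right _ _).trans (le_of_eq ?_))
      ring

end IN_aux

open IN_aux in
theorem t_IN : S_MN → S_TOP → S_IN := by
  intro hMN hTOP ι q R₁ N E c r f hR hf a b hab ha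
  -- the constants
  set ρ₂ : ℝ := max R₁ (max ‖a‖ ‖b‖) with hρ₂
  have hR1 : R₁ ≤ ρ₂ := le_max_left _ _
  have haρ : ‖a‖ ≤ ρ₂ := (le_max_left _ _).trans (le_max_right _ _)
  have hρ₂0 : 0 < ρ₂ := hR.R1.trans_le hR1
  obtain ⟨M₁, hM₁⟩ := ((isCompact_closedBall (0 : ℂ) ρ₂).image f.continuous).isBounded.subset_ball
    (0 : ℂ)
  set M₀ : ℝ := max M₁ 1 with hM₀
  have hM₀1 : 0 < M₀ := lt_of_lt_of_le one_pos (le_max_right _ _)
  have hfM : f '' closedBall 0 ρ₂ ⊆ ball 0 M₀ := hM₁.trans (ball_subset_ball (le_max_left _ _))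
  have hd0 : 0 < min ‖f a - f b‖ M₀ := by
    refine lt_min ?_ hM₀1
    rw [norm_pos_iff, sub_ne_zero]
    exact fun h => hab (f.injective h)
  set d₀ : ℝ := min ‖f a - f b‖ M₀ with hd₀
  have hvol : volume (ball (0 : ℂ) (2 * M₀)) ≠ ⊤ := measure_ball_lt_top.ne
  set K : ℝ≥0∞ := ENNReal.ofReal (2 * π * (1 + 2 * π * N / Real.log q) ^ 2) *
    volume (ball (0 : ℂ) (2 * M₀)) with hK
  have hKt : K ≠ ⊤ := ENNReal.mul_ne_top ENNReal.ofReal_ne_top hvol
  set κ₀ : ℝ := Real.exp (-(K.toReal / d₀ ^ 2)) / 2 with hκ₀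
  have hκpos : 0 < κ₀ := by positivity
  have hκle : κ₀ ≤ 1 / 2 := by
    have : Real.exp (-(K.toReal / d₀ ^ 2)) ≤ 1 := by
      rw [Real.exp_le_one_iff, neg_nonpos]
      positivity
    rw [hκ₀]
    linarith
  refine ⟨κ₀ / 2, by positivity, fun s F hF => ?_⟩
  by_contra hcon
  rw [not_le] at hcon
  set δ : ℝ := κ₀ / 2 with hδ
  have hδ0 : 0 < δ := by positivity
  have hδ1 : δ < 1 / 2 := by
    rw [hδ]
    linarith
  -- the rings
  have hring : ∀ j, ∀ z ∈ Ann (c j) (r j) (q * r j), z ∉ E := by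
    intro j z hz hzE
    refine Set.disjoint_left.1 (hR.off j) ⟨?_, ?_⟩ hzE
    · rw [mem_closedBall, dist_eq_norm]
      exact hz.2.le
    · rw [mem_ball, dist_eq_norm]
      exact not_lt.2 hz.1.le
  have hmult : ∀ z, {j | j ∈ s ∧ z ∈ Ann (c j) (r j) (q * r j)}.encard ≤ N := by
    intro z
    rcases Set.eq_empty_or_nonempty {j | j ∈ s ∧ z ∈ Ann (c j) (r j) (q * r j)} with h0 | ⟨j₀, hj₀⟩
    · rw [h0, Set.encard_empty]
      exact zero_le
    · refine le_trans (Set.encard_le_encard fun j hj => ?_) (hR.nb j₀)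
      refine Set.not_disjoint_iff.2 ⟨z, ?_, ?_⟩
      · rw [mem_closedBall, dist_eq_norm]
        exact hj₀.2.2.le
      · rw [mem_closedBall, dist_eq_norm]
        exact hj.2.2.le
  have hK1 : (⋃ j ∈ s, f '' closedBall (c j) (r j)) = f '' ⋃ j ∈ s, closedBall (c j) (r j) := by
    rw [Set.image_iUnion₂]
  have hK2 : (⋃ j ∈ s, F '' closedBall (c j) (r j)) = F '' ⋃ j ∈ s, closedBall (c j) (r j) := by
    rw [Set.image_iUnion₂]
  have hcomp : IsCompact (⋃ j ∈ s, closedBall (c j) (r j)) :=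
    s.isCompact_biUnion fun j _ => isCompact_closedBall _ _
  have hglue : DifferentiableOn ℂ (fun w => f (F.symm w))
      (⋃ j ∈ s, F '' closedBall (c j) (r j))ᶜ := by
    rw [hK2]
    refine inv_diff f F _ hcomp ?_
    rw [← hK1]
    exact hF.glue
  -- the crossing
  have hcross : Cross (fun w => f (F.symm w)) (F a) δ (1 / 2) (ball 0 (2 * M₀))
      (ENNReal.ofReal d₀) := by
    intro ρ hρ
    have hρ0 : 0 < ρ := hδ0.trans hρ.1
    have h1 : ∃ x ∈ closedBall (0 : ℂ) ρ₂, ‖F x - F a‖ = ρ := by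
      have hpre : IsPreconnected (closedBall (0 : ℂ) ρ₂) :=
        (convex_closedBall (0 : ℂ) ρ₂).isPreconnected
      have hcont : ContinuousOn (fun x => ‖F x - F a‖) (closedBall (0 : ℂ) ρ₂) :=
        (F.continuous.sub continuous_const).norm.continuousOn
      have h2 : ∃ x₁ ∈ closedBall (0 : ℂ) ρ₂, 1 / 2 ≤ ‖F x₁ - F a‖ := by
        obtain ⟨z, hz, hz1⟩ := hF.nrm.eq_one
        by_contra hno
        push Not at hno
        have e1 := hno z (by rw [mem_closedBall, dist_zero_right]; exact hz.trans hR1)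
        have e2 := hno 0 (by rw [mem_closedBall, dist_self]; exact hρ₂0.le)
        rw [hF.nrm.zero] at e2
        have e3 : ‖F z‖ ≤ ‖F z - F a‖ + ‖0 - F a‖ := by
          have e4 : F z = (F z - F a) - (0 - F a) := by ring
          calc ‖F z‖ = ‖(F z - F a) - (0 - F a)‖ := by rw [← e4]
            _ ≤ _ := norm_sub_le _ _
        rw [hz1] at e3
        linarith
      obtain ⟨x₁, hx₁, hx₂⟩ := h2
      have haM : a ∈ closedBall (0 : ℂ) ρ₂ := by
        rw [mem_closedBall, dist_zero_right]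
        exact haρ
      have h3 := hpre.intermediate_value haM hx₁ hcont
      have h4 : ρ ∈ Icc ‖F a - F a‖ ‖F x₁ - F a‖ := by
        rw [sub_self, norm_zero]
        exact ⟨hρ0.le, hρ.2.le.trans hx₂⟩
      obtain ⟨x, hx, hx2⟩ := h3 h4
      exact ⟨x, hx, hx2⟩
    obtain ⟨x, hx, hx2⟩ := h1
    have hbm : F b ∈ closedBall (F a) ρ := by
      rw [mem_closedBall, dist_comm]
      exact (hcon.trans hρ.1).le
    have h2 := cross hTOP (F.symm.trans f) (F a) (F a) (F b) ρ M₀ hρ0
      (mem_closedBall_self hρ0.le) hbm hM₀1 ⟨F x, by rw [mem_sphere, dist_eq_norm]; exact hx2, by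
        rw [Homeomorph.trans_apply, F.symm_apply_apply]
        exact hfM (mem_image_of_mem f hx)⟩
    rw [Homeomorph.trans_apply, Homeomorph.trans_apply, F.symm_apply_apply,
      F.symm_apply_apply] at h2
    exact h2
  have hmain := hMN F f ι s c r q N (F a) δ (1 / 2) (ball 0 (2 * M₀)) (ball 0 (2 * M₀))
    (ENNReal.ofReal d₀) (volume (ball (0 : ℂ) (2 * M₀))) hR.q1 (fun j _ => hR.pos j) hmult
    (fun j _ => hF.hol.mono fun z hz hz' => hring j z hz hz'.1)
    (fun j _ => hf.mono fun z hz => hring j z hz) hglue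
    (fun j _ => by
      rintro ⟨x, hx, hxa⟩
      rw [F.injective hxa] at hx
      exact ha j hx) hδ0 hδ1 isOpen_ball le_rfl
    (fun j _ => by
      refine (Set.image_mono ?_).trans (hfM.trans (ball_subset_ball (by linarith)))
      intro z hz
      have h1 : z ∈ closedBall (c j) (q * r j) := by
        rw [mem_closedBall, dist_eq_norm]
        exact hz.2.le
      exact (ball_subset_closedBall (hR.inb j h1) : z ∈ closedBall 0 R₁) |>
        closedBall_subset_closedBall hR1) le_rfl hcross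
  -- conclusion
  have hlog : 0 < Real.log (1 / 2 / δ) := Real.log_pos (by rw [lt_div_iff₀ hδ0]; linarith)
  have h3 : d₀ ^ 2 * Real.log (1 / 2 / δ) ≤ K.toReal := by
    have h4 : ENNReal.ofReal (d₀ ^ 2 * Real.log (1 / 2 / δ)) ≤ K := by
      rw [ENNReal.ofReal_mul (by positivity), ENNReal.ofReal_pow hd0.le]
      exact hmain
    exact (ENNReal.ofReal_le_iff_le_toReal hKt).1 h4
  have h5 : Real.log (1 / 2 / δ) ≤ K.toReal / d₀ ^ 2 := by
    rw [le_div_iff₀ (by positivity), mul_comm]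
    exact h3
  have h6 : 1 / 2 / δ ≤ Real.exp (K.toReal / d₀ ^ 2) := by
    rw [← Real.log_le_iff_le_exp (by positivity)]
    exact h5
  have h7 : 1 / 2 / δ = 2 * Real.exp (K.toReal / d₀ ^ 2) := by
    rw [hδ, hκ₀, Real.exp_neg]
    field_simp
  rw [h7] at h6
  have h8 : 0 < Real.exp (K.toReal / d₀ ^ 2) := Real.exp_pos _
  linarith

end Pool.Agent.RGR
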