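import Pool.Agent.RGR.St

/-!
# JMP: length-area inequality with jumps
-/

set_option autoImplicit false

namespace Pool.Agent.RGR

open MeasureTheory Metric Set Filter Topology Complex
open scoped ContDiff Real ENNReal
open Pool.Agent.LibHelper41 Pool.Agent.LibHelper41.Remov

namespace JMP_aux

theorem tt_meas {L : Set ℂ} (hL : IsCompact L) (p : ℂ) (δ R : ℝ) :
    MeasurableSet (TT L p δ R) := by
  have e : TT L p δ R = Ioo (Real.log δ) (Real.log R) ∩
      Real.exp ⁻¹' ((fun w => ‖w - p‖) '' L) := by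
    ext t
    constructor
    · rintro ⟨h1, w, hw, h2⟩
      exact ⟨h1, w, hw, h2⟩
    · rintro ⟨h1, w, hw, h2⟩
      exact ⟨h1, w, hw, h2⟩
  rw [e]
  refine measurableSet_Ioo.inter (Real.measurable_exp ?_)
  exact (hL.image (by fun_prop)).isClosed.measurableSet

theorem polar_eq {p w : ℂ} {t : ℝ} (hw : ‖w - p‖ = Real.exp t) :
    p + cexp (t + (w - p).arg * I) = w := by
  rw [Complex.exp_add, ← Complex.ofReal_exp, ← hw, Complex.norm_mul_exp_arg_mul_I]
  ring

/-- The contribution of one circle. -/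
theorem circle {g : ℂ ≃ₜ ℂ} {ι : Type} {s : Finset ι} {L : ι → Set ℂ} {d : ι → ℝ≥0∞}
    {p : ℂ} {δ R : ℝ} {V : Set ℂ} {D : ℝ≥0∞} (hδ : 0 < δ) (_hR : δ < R)
    (hU : IsOpen (⋃ j ∈ s, L j)ᶜ)
    (hg : DifferentiableOn ℂ g (⋃ j ∈ s, L j)ᶜ)
    (hd : ∀ j ∈ s, ∀ x ∈ L j, ∀ y ∈ L j, edist (g x) (g y) ≤ d j)
    (hC : Cross g p δ R V D) {t : ℝ} (ht : t ∈ Ioo (Real.log δ) (Real.log R)) :
    D ≤ (∫⁻ θ in Ioo (-π) π, ((⋃ j ∈ s, L j)ᶜ ∩ g ⁻¹' V).indicator (fun w => ‖deriv g w‖ₑ)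
        (p + cexp (t + θ * I)) * ENNReal.ofReal (Real.exp t)) +
      ∑ j ∈ s, (TT (L j) p δ R).indicator (fun _ => d j) t := by
  classical
  set U : Set ℂ := (⋃ j ∈ s, L j)ᶜ with hUdef
  have hR0 : 0 < R := hδ.trans _hR
  have hρ : Real.exp t ∈ Ioo δ R := by
    constructor
    · have := Real.exp_lt_exp.2 ht.1
      rwa [Real.exp_log hδ] at this
    · have := Real.exp_lt_exp.2 ht.2
      rwa [Real.exp_log hR0] at this
  obtain ⟨ψ, V', hLip, hV'o, hV'V, hψ, hD⟩ := hC _ hρ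
  have hcz : Continuous (fun θ : ℝ => p + cexp (t + θ * I)) := by fun_prop
  set S : Set ℝ := Ioc (-π) π ∩ ((fun θ : ℝ => p + cexp (t + θ * I)) ⁻¹' U ∩
    (fun θ : ℝ => g (p + cexp (t + θ * I))) ⁻¹' V') with hS
  have hSm : MeasurableSet S := measurableSet_Ioc.inter
    ((hU.preimage hcz).measurableSet.inter (hV'o.preimage (g.continuous.comp hcz)).measurableSet)
  refine hD.trans ?_
  have hcover : ψ '' (V' ∩ g '' sphere p (Real.exp t)) ⊆
      ((fun θ : ℝ => ψ (g (p + cexp (t + θ * I)))) '' S) ∪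
        ⋃ j ∈ s, ψ '' (g '' (L j ∩ sphere p (Real.exp t))) := by
    rintro _ ⟨_, ⟨hV', w, hw, rfl⟩, rfl⟩
    have hw1 : ‖w - p‖ = Real.exp t := by rwa [mem_sphere, dist_eq_norm] at hw
    by_cases hwU : w ∈ U
    · left
      have h1 := polar_eq hw1
      refine ⟨(w - p).arg, ⟨⟨Complex.neg_pi_lt_arg _, Complex.arg_le_pi _⟩, ?_, ?_⟩, ?_⟩
      · show p + cexp (t + (w - p).arg * I) ∈ U
        rwa [h1]
      · show g (p + cexp (t + (w - p).arg * I)) ∈ V'
        rwa [h1]
      · show ψ (g (p + cexp (t + (w - p).arg * I))) = ψ (g w)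
        rw [h1]
    · right
      rw [hUdef, mem_compl_iff, not_not] at hwU
      simp only [mem_iUnion] at hwU ⊢
      obtain ⟨j, hj, hwj⟩ := hwU
      exact ⟨j, hj, g w, ⟨w, ⟨hwj, hw⟩, rfl⟩, rfl⟩
  refine (measure_mono hcover).trans ((measure_union_le _ _).trans (add_le_add ?_ ?_))
  · refine (vol_circ hSm (fun θ hθ => ?_) (fun θ hθ => ?_)).trans ?_
    · exact hg.differentiableAt (hU.mem_nhds hθ.2.1)
    · exact hψ.differentiableAt (hV'o.mem_nhds hθ.2.2)
    · have h1 : ∫⁻ θ in S, ‖fderiv ℝ ψ (g (p + cexp (t + θ * I)))‖ₑ *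
          ‖deriv g (p + cexp (t + θ * I))‖ₑ * ENNReal.ofReal (Real.exp t) ≤
          ∫⁻ θ in S, (U ∩ g ⁻¹' V).indicator (fun w => ‖deriv g w‖ₑ)
            (p + cexp (t + θ * I)) * ENNReal.ofReal (Real.exp t) := by
        refine setLIntegral_mono' hSm fun θ hθ => ?_
        have h2 : p + cexp (t + θ * I) ∈ U ∩ g ⁻¹' V := ⟨hθ.2.1, hV'V hθ.2.2⟩
        rw [indicator_of_mem h2]
        refine mul_le_mul_left ?_ _
        have h3 : ‖fderiv ℝ ψ (g (p + cexp (t + θ * I)))‖ₑ ≤ 1 := by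
          have h4 := norm_fderiv_le_of_lipschitz ℝ hLip (x₀ := g (p + cexp (t + θ * I)))
          rw [NNReal.coe_one] at h4
          rw [← ofReal_norm, ← ENNReal.ofReal_one]
          exact ENNReal.ofReal_le_ofReal h4
        calc ‖fderiv ℝ ψ (g (p + cexp (t + θ * I)))‖ₑ * ‖deriv g (p + cexp (t + θ * I))‖ₑ
            ≤ 1 * ‖deriv g (p + cexp (t + θ * I))‖ₑ := mul_le_mul_left h3 _
          _ = _ := one_mul _
      refine h1.trans ?_
      rw [setLIntegral_congr Ioo_ae_eq_Ioc]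
      exact lintegral_mono_set inter_subset_left
  · refine (measure_biUnion_finset_le _ _).trans (Finset.sum_le_sum fun j hj => ?_)
    by_cases htj : t ∈ TT (L j) p δ R
    · rw [indicator_of_mem htj]
      refine (Real.volume_le_diam _).trans (Metric.ediam_le ?_)
      rintro _ ⟨_, ⟨x, hx, rfl⟩, rfl⟩ _ ⟨_, ⟨y, hy, rfl⟩, rfl⟩
      have h1 := hLip.edist_le_mul (g x) (g y)
      rw [ENNReal.coe_one, one_mul] at h1
      exact h1.trans (hd j hj x hx.1 y hy.1)
    · have h1 : L j ∩ sphere p (Real.exp t) = ∅ := by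
        rw [Set.eq_empty_iff_forall_notMem]
        rintro w ⟨hw1, hw2⟩
        rw [mem_sphere, dist_eq_norm] at hw2
        exact htj ⟨ht, w, hw1, hw2⟩
      rw [h1, image_empty, image_empty, measure_empty]
      exact zero_le

end JMP_aux

open JMP_aux in
theorem t_JMP : S_PCS → S_JMP := by
  intro hP g ι s L d p δ R V D hδ hR hL hg hd hV hC
  classical
  have hcl : IsClosed (⋃ j ∈ s, L j) :=
    s.finite_toSet.isClosed_biUnion fun j hj => (hL j hj).isClosed
  set U : Set ℂ := (⋃ j ∈ s, L j)ᶜ with hUdef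
  have hU : IsOpen U := hcl.isOpen_compl
  have hO : IsOpen (U ∩ g ⁻¹' V) := hU.inter (hV.preimage g.continuous)
  set K : ℂ → ℝ≥0∞ := (U ∩ g ⁻¹' V).indicator (fun w => ‖deriv g w‖ₑ) with hK
  have hKm : Measurable K := (measurable_deriv g).enorm.indicator hO.measurableSet
  have hR0 : 0 < R := hδ.trans hR
  have hlog : Real.log (R / δ) = Real.log R - Real.log δ := Real.log_div hR0.ne' hδ.ne'
  -- integrate over `t`
  have h1 : D * ENNReal.ofReal (Real.log (R / δ)) ≤
      (∫⁻ t in Ioo (Real.log δ) (Real.log R), ∫⁻ θ in Ioo (-π) π,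
        K (p + cexp (t + θ * I)) * ENNReal.ofReal (Real.exp t)) +
        ∑ j ∈ s, d j * volume (TT (L j) p δ R) := by
    have e1 : D * ENNReal.ofReal (Real.log (R / δ)) =
        ∫⁻ _ in Ioo (Real.log δ) (Real.log R), D := by
      rw [setLIntegral_const, Real.volume_Ioo, hlog]
    have e2 : ∀ j ∈ s, d j * volume (TT (L j) p δ R) =
        ∫⁻ t in Ioo (Real.log δ) (Real.log R), (TT (L j) p δ R).indicator (fun _ => d j) t := by
      intro j hj
      rw [setLIntegral_indicator (tt_meas (hL j hj) p δ R), setLIntegral_const]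
      congr 2
      exact (inter_eq_self_of_subset_left fun t ht => ht.1).symm
    have e3 : ∑ j ∈ s, d j * volume (TT (L j) p δ R) =
        ∫⁻ t in Ioo (Real.log δ) (Real.log R),
          ∑ j ∈ s, (TT (L j) p δ R).indicator (fun _ => d j) t := by
      rw [Finset.sum_congr rfl e2, lintegral_finsetSum' _ fun j hj =>
        (measurable_const.indicator (tt_meas (hL j hj) p δ R)).aemeasurable]
    have hmeas : Measurable (fun t => ∑ j ∈ s, (TT (L j) p δ R).indicator (fun _ => d j) t) :=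
      Finset.measurable_fun_sum _ fun j hj =>
        measurable_const.indicator (tt_meas (hL j hj) p δ R)
    rw [e1, e3, ← lintegral_add_right _ hmeas]
    refine setLIntegral_mono' measurableSet_Ioo fun t ht => ?_
    exact circle hδ hR hU hg hd hC ht
  refine h1.trans (add_le_add ?_ le_rfl)
  -- Cauchy-Schwarz
  have h2 := hP.2 K p δ R hKm hδ hR
  have h3 : ∫⁻ w in Ann p δ R, K w ^ 2 ≤ volume (V ∩ g '' ball p R) := by
    have hAm : MeasurableSet (Ann p δ R) := by
      have hc : Continuous (fun z : ℂ => ‖z - p‖) := by fun_prop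
      exact ((isOpen_lt continuous_const hc).inter (isOpen_lt hc continuous_const)).measurableSet
    have e1 : (fun w => K w ^ 2) = (U ∩ g ⁻¹' V).indicator (fun w => ‖deriv g w‖ₑ ^ 2) := by
      funext w
      by_cases hw : w ∈ U ∩ g ⁻¹' V
      · rw [hK, indicator_of_mem hw, indicator_of_mem hw]
      · rw [hK, indicator_of_notMem hw, indicator_of_notMem hw]
        simp
    rw [e1, setLIntegral_indicator hO.measurableSet]
    have h4 := lintegral_cv (S := (U ∩ g ⁻¹' V) ∩ Ann p δ R) hU hg g.injective.injOn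
      (hO.measurableSet.inter hAm) (fun w hw => hw.1.1) (fun _ => 1)
    simp only [one_mul] at h4
    rw [← h4, setLIntegral_one]
    refine measure_mono ?_
    rintro _ ⟨w, ⟨⟨_, hw1⟩, hw2⟩, rfl⟩
    exact ⟨hw1, w, by rw [mem_ball, dist_eq_norm]; exact hw2.2, rfl⟩
  have h4 := h2.trans (mul_le_mul_right h3 _)
  have h5 : ∀ x : ℝ≥0∞, x = (x ^ 2) ^ (1 / 2 : ℝ) := by
    intro x
    rw [← ENNReal.rpow_natCast, ← ENNReal.rpow_mul]
    norm_num
  rw [h5 (∫⁻ t in Ioo (Real.log δ) (Real.log R), ∫⁻ θ in Ioo (-π) π,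
    K (p + cexp (t + θ * I)) * ENNReal.ofReal (Real.exp t))]
  exact ENNReal.rpow_le_rpow h4 (by norm_num)

end Pool.Agent.RGR
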