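import Pool.Agent.RGR.St

/-!
# Module LC: the limit along an ultrafilter
-/

set_option autoImplicit false

namespace Pool.Agent.RGR

open MeasureTheory Metric Set Filter Topology Complex
open scoped ContDiff Real ENNReal
open Pool.Agent.LibHelper41 Pool.Agent.LibHelper41.Remov

namespace LC_aux

variable {ι : Type} {q R₁ : ℝ} {N : ℕ} {E : Set ℂ} {c : ι → ℂ} {r : ι → ℝ} {f : ℂ ≃ₜ ℂ}

lemma norm_bound {F : ℂ → ℂ} (h : Nrm R₁ F) (z : ℂ) :
    ‖F z‖ ≤ max 1 (‖z‖ / R₁) := by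
  rcases le_total ‖z‖ R₁ with hz | hz
  · exact (h.le_one z hz).trans (le_max_left _ _)
  · exact (h.up z hz).trans (le_max_right _ _)

lemma hol_ball (hRg : Rings q R₁ N E c r) {s : Finset ι} {F : ℂ ≃ₜ ℂ} (hF : Good f E R₁ c r s F)
    {j : ι} (hj : j ∈ s) : DifferentiableOn ℂ F (ball (c j) (q * r j)) := by
  refine hF.hol.mono ?_
  intro z hz hzE
  refine (Set.disjoint_left.1 (hRg.off j)) ⟨ball_subset_closedBall hz, ?_⟩ hzE.1
  intro hz2
  exact hzE.2 (mem_iUnion₂.2 ⟨j, hj, hz2⟩)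

lemma ev_mem {𝒰 : Filter (Finset ι)} (h : 𝒰 ≤ atTop) (j : ι) : ∀ᶠ s in 𝒰, j ∈ s := by
  have h1 : ∀ᶠ s : Finset ι in atTop, {j} ≤ s := eventually_ge_atTop {j}
  filter_upwards [h h1] with s hs
  exact hs (Finset.mem_singleton_self j)

lemma equi (hEQ : S_EQ) (hRg : Rings q R₁ N E c r) (hf : DifferentiableOn ℂ f Eᶜ)
    {F : Finset ι → (ℂ ≃ₜ ℂ)} (hF : ∀ s, Good f E R₁ c r s (F s))
    {𝒰 : Filter (Finset ι)} (h𝒰 : 𝒰 ≤ atTop) (z₀ : ℂ) {η : ℝ} (hη : 0 < η) :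
    ∃ κ : ℝ, 0 < κ ∧ ∀ᶠ s in 𝒰, ∀ z ∈ ball z₀ κ, dist (F s z) (F s z₀) ≤ η := by
  by_cases hz : ∀ j, z₀ ∉ ball (c j) (q * r j)
  · obtain ⟨κ, hκ, h⟩ := hEQ ι q R₁ N E c r f hRg hf z₀ hz η hη
    exact ⟨κ, hκ, Eventually.of_forall fun s z hz => h s (F s) (hF s) z hz⟩
  · push Not at hz
    obtain ⟨j, hj⟩ := hz
    obtain ⟨ρ, hρ, hsub⟩ := Metric.isOpen_iff.1 isOpen_ball z₀ hj
    refine ⟨min ρ (η * ρ / 3), lt_min hρ (by positivity), ?_⟩
    filter_upwards [ev_mem h𝒰 j] with s hs z hz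
    have hz1 : z ∈ ball z₀ ρ := ball_subset_ball (min_le_left _ _) hz
    have hz2 : dist z z₀ < η * ρ / 3 := lt_of_lt_of_le hz (min_le_right _ _)
    have hone : ∀ w ∈ ball z₀ ρ, ‖F s w‖ ≤ 1 := by
      intro w hw
      have h1 := hRg.inb j (ball_subset_closedBall (hsub hw))
      rw [mem_ball_zero_iff] at h1
      exact (hF s).nrm.le_one w h1.le
    have h1 : dist (F s z) (F s z₀) ≤ 3 / ρ * dist z z₀ := by
      refine Complex.dist_le_div_mul_dist_of_mapsTo_ball ((hol_ball hRg (hF s) hs).mono hsub) ?_ hz1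
      intro w hw
      rw [mem_closedBall, dist_eq_norm]
      have h2 := hone w hw
      have h3 := hone z₀ (mem_ball_self hρ)
      have h4 := norm_sub_le (F s w) (F s z₀)
      linarith
    refine h1.trans ?_
    have h5 : 3 / ρ * dist z z₀ ≤ 3 / ρ * (η * ρ / 3) := by gcongr
    refine h5.trans (le_of_eq ?_)
    field_simp

end LC_aux

open LC_aux in
theorem t_LC : S_EQ → S_LC := by
  intro hEQ ι q R₁ N E c r f hRg hf F hF 𝒰 h𝒰
  have hlim : ∀ z : ℂ, ∃ x : ℂ, Tendsto (fun s => F s z) (𝒰 : Filter (Finset ι)) (𝓝 x) := by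
    intro z
    obtain ⟨x, -, hx⟩ := (isCompact_closedBall (0 : ℂ) (max 1 (‖z‖ / R₁))).ultrafilter_le_nhds
      (𝒰.map fun s => F s z) (by
        rw [le_principal_iff]
        refine Filter.mem_map.2 (Filter.univ_mem' fun s => ?_)
        rw [mem_preimage, mem_closedBall_zero_iff]
        exact norm_bound (hF s).nrm z)
    exact ⟨x, hx⟩
  choose Fi hFi using hlim
  have hequi : ∀ (z₀ : ℂ) (η : ℝ), 0 < η → ∃ κ : ℝ, 0 < κ ∧
      (∀ᶠ s in (𝒰 : Filter (Finset ι)), ∀ z ∈ ball z₀ κ, dist (F s z) (F s z₀) ≤ η) ∧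
      ∀ z ∈ ball z₀ κ, dist (Fi z) (Fi z₀) ≤ η := by
    intro z₀ η hη
    obtain ⟨κ, hκ, h⟩ := equi hEQ hRg hf hF h𝒰 z₀ hη
    refine ⟨κ, hκ, h, fun z hz => ?_⟩
    refine le_of_tendsto ((hFi z).dist (hFi z₀)) ?_
    filter_upwards [h] with s hs
    exact hs z hz
  have htl : TendstoLocallyUniformly (fun s z => F s z) Fi (𝒰 : Filter (Finset ι)) := by
    rw [Metric.tendstoLocallyUniformly_iff]
    intro ε hε z₀
    obtain ⟨κ, hκ, h1, h2⟩ := hequi z₀ (ε / 4) (by positivity)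
    refine ⟨ball z₀ κ, ball_mem_nhds _ hκ, ?_⟩
    have h3 : ∀ᶠ s in (𝒰 : Filter (Finset ι)), dist (F s z₀) (Fi z₀) < ε / 4 :=
      (Metric.tendsto_nhds.1 (hFi z₀)) (ε / 4) (by positivity)
    filter_upwards [h1, h3] with s hs1 hs3 z hz
    have e1 := dist_triangle4 (Fi z) (Fi z₀) (F s z₀) (F s z)
    have e2 := h2 z hz
    have e3 := hs1 z hz
    rw [dist_comm (F s z₀) (F s z), dist_comm (Fi z₀) (F s z₀)] at e1
    linarith
  refine ⟨Fi, htl, ?_⟩
  intro z₀ hz₀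
  apply DifferentiableAt.differentiableWithinAt
  by_cases hE : z₀ ∈ E
  · have hmem : z₀ ∈ ⋃ j, ball (c j) (r j) := by
      by_contra hcon
      exact hz₀ ⟨hE, hcon⟩
    obtain ⟨j, hj⟩ := mem_iUnion.1 hmem
    have hsub : ball (c j) (r j) ⊆ ball (c j) (q * r j) := by
      refine ball_subset_ball ?_
      have := hRg.pos j
      have := hRg.q1
      nlinarith
    have hd : DifferentiableOn ℂ Fi (ball (c j) (r j)) := by
      refine TendstoLocallyUniformlyOn.differentiableOn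
        (φ := (𝒰 : Filter (Finset ι))) (F := fun s z => F s z) htl.tendstoLocallyUniformlyOn ?_
        isOpen_ball
      filter_upwards [ev_mem h𝒰 j] with s hs
      exact (hol_ball hRg (hF s) hs).mono hsub
    exact hd.differentiableAt (isOpen_ball.mem_nhds hj)
  · have hd : DifferentiableOn ℂ Fi Eᶜ := by
      refine TendstoLocallyUniformlyOn.differentiableOn
        (φ := (𝒰 : Filter (Finset ι))) (F := fun s z => F s z) htl.tendstoLocallyUniformlyOn ?_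
        hRg.cpt.isClosed.isOpen_compl
      refine Eventually.of_forall fun s => ?_
      refine (hF s).hol.mono ?_
      intro z hz hz2
      exact hz hz2.1
    exact hd.differentiableAt (hRg.cpt.isClosed.isOpen_compl.mem_nhds hE)

end Pool.Agent.RGR
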