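import Pool.Agent.RGR.St

/-!
# Module LH: the limit is a homeomorphism
-/

set_option autoImplicit false

namespace Pool.Agent.RGR

open MeasureTheory Metric Set Filter Topology Complex
open scoped ContDiff Real ENNReal
open Pool.Agent.LibHelper41 Pool.Agent.LibHelper41.Remov

namespace LH_aux

/-- the lower bound -/
theorem lower {κ : Type} {R₁ : ℝ} {F : κ → (ℂ ≃ₜ ℂ)} {𝒰 : Ultrafilter κ} {Fi : ℂ → ℂ}
    (hR : 0 < R₁) (hF : ∀ s, Nrm R₁ (F s))
    (hlim : TendstoLocallyUniformly (fun s z => F s z) Fi (𝒰 : Filter κ))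
    (hinj : Function.Injective Fi) (hc : Continuous Fi) (h0 : Fi 0 = 0) :
    ∃ m : ℝ, 0 < m ∧ ∀ᶠ s in (𝒰 : Filter κ), ∀ z : ℂ, R₁ ≤ ‖z‖ → m * (‖z‖ / R₁) ≤ ‖F s z‖ := by
  have hne : (sphere (0 : ℂ) R₁).Nonempty := NormedSpace.sphere_nonempty.2 hR.le
  obtain ⟨z₀, hz₀, hmin⟩ := (isCompact_sphere (0 : ℂ) R₁).exists_isMinOn hne
    (hc.norm.continuousOn)
  have hz₀0 : Fi z₀ ≠ 0 := by
    intro h
    have h1 : z₀ = 0 := hinj (h.trans h0.symm)
    rw [h1, mem_sphere, dist_self] at hz₀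
    exact hR.ne hz₀
  have hm : 0 < ‖Fi z₀‖ := norm_pos_iff.2 hz₀0
  have hunif : TendstoUniformlyOn (fun s z => F s z) Fi (𝒰 : Filter κ) (sphere (0 : ℂ) R₁) :=
    (tendstoLocallyUniformlyOn_iff_tendstoUniformlyOn_of_compact (isCompact_sphere _ _)).1
      hlim.tendstoLocallyUniformlyOn
  rw [Metric.tendstoUniformlyOn_iff] at hunif
  refine ⟨‖Fi z₀‖ / 2, half_pos hm, ?_⟩
  filter_upwards [hunif (‖Fi z₀‖ / 2) (half_pos hm)] with s hs
  refine (hF s).low _ (half_pos hm).le ?_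
  intro z hz
  have hz' : z ∈ sphere (0 : ℂ) R₁ := by rw [mem_sphere, dist_zero_right, hz]
  have h1 := hs z hz'
  have h2 : ‖Fi z₀‖ ≤ ‖Fi z‖ := hmin hz'
  rw [dist_eq_norm] at h1
  have h3 := norm_sub_norm_le (Fi z) (F s z)
  linarith

end LH_aux

open LH_aux in
/-- LH -/
theorem t_LH : S_LH := by
  intro κ R₁ F 𝒰 Fi hR hF hlim hinj
  have hc : Continuous Fi := hlim.continuous
    (Filter.Frequently.of_forall fun s => (F s).continuous)
  have hpt : ∀ z, Tendsto (fun s => F s z) (𝒰 : Filter κ) (𝓝 (Fi z)) := fun z =>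
    hlim.tendsto_comp hc.continuousAt tendsto_const_nhds
  have h0 : Fi 0 = 0 := by
    have h1 := hpt 0
    have h2 : (fun s => F s 0) = fun _ => (0 : ℂ) := by
      funext s
      exact (hF s).zero
    rw [h2] at h1
    exact tendsto_nhds_unique h1 tendsto_const_nhds
  obtain ⟨m, hm, hlow⟩ := lower hR hF hlim hinj hc h0
  have hlowi : ∀ z : ℂ, R₁ ≤ ‖z‖ → m * (‖z‖ / R₁) ≤ ‖Fi z‖ := by
    intro z hz
    refine ge_of_tendsto (hpt z).norm ?_
    filter_upwards [hlow] with s hs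
    exact hs z hz
  have hsurj : Function.Surjective Fi := by
    intro w
    have hB : ∀ᶠ s in (𝒰 : Filter κ), (F s).symm w ∈ closedBall (0 : ℂ) (max R₁ (R₁ * ‖w‖ / m)) := by
      filter_upwards [hlow] with s hs
      rw [mem_closedBall_zero_iff]
      rcases le_total R₁ ‖(F s).symm w‖ with h | h
      · refine le_max_of_le_right ?_
        have h1 := hs _ h
        rw [(F s).apply_symm_apply] at h1
        rw [le_div_iff₀ hm]
        rw [← mul_div_assoc, div_le_iff₀ hR] at h1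
        linarith
      · exact le_max_of_le_left h
    have hcomp : IsCompact (closedBall (0 : ℂ) (max R₁ (R₁ * ‖w‖ / m))) := isCompact_closedBall _ _
    rw [isCompact_iff_ultrafilter_le_nhds] at hcomp
    obtain ⟨z, _, hz⟩ := hcomp (𝒰.map fun s => (F s).symm w) (by
      rw [Ultrafilter.coe_map, le_principal_iff, mem_map]
      exact hB)
    refine ⟨z, ?_⟩
    have hz' : Tendsto (fun s => (F s).symm w) (𝒰 : Filter κ) (𝓝 z) := hz
    have h1 := hlim.tendsto_comp hc.continuousAt hz'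
    have h2 : (fun s => F s ((F s).symm w)) = fun _ => w := by
      funext s
      exact (F s).apply_symm_apply w
    rw [h2] at h1
    exact (tendsto_nhds_unique h1 tendsto_const_nhds)
  have hcoc : Tendsto Fi (cocompact ℂ) (cocompact ℂ) := by
    rw [← cobounded_eq_cocompact, ← comap_norm_atTop, tendsto_comap_iff]
    rw [comap_norm_atTop]
    have h1 : Tendsto (fun z : ℂ => m * (‖z‖ / R₁)) (Bornology.cobounded ℂ) atTop :=
      (tendsto_norm_cobounded_atTop.atTop_div_const hR).const_mul_atTop hm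
    refine tendsto_atTop_mono' _ ?_ h1
    filter_upwards [tendsto_norm_cobounded_atTop.eventually_ge_atTop R₁] with z hz
    exact hlowi z hz
  have hprop : IsProperMap Fi := isProperMap_iff_tendsto_cocompact.2 ⟨hc, hcoc⟩
  exact ⟨(Equiv.ofBijective Fi ⟨hinj, hsurj⟩).toHomeomorphOfContinuousClosed hc
    hprop.isClosedMap, fun _ => rfl⟩

end Pool.Agent.RGR
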