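import Pool.Agent.RGR.St

/-!
# Module LI: the limit function is injective
-/

set_option autoImplicit false

namespace Pool.Agent.RGR

open MeasureTheory Metric Set Filter Topology Complex
open scoped ContDiff Real ENNReal
open Pool.Agent.LibHelper41 Pool.Agent.LibHelper41.Remov

namespace LI_aux

/-- A limit of homeomorphisms which is holomorphic near `a` and takes the value `Fi a` also at
`b ≠ a` is constant near `a`. -/
theorem loc {κ : Type} (F : κ → (ℂ ≃ₜ ℂ)) (𝒰 : Ultrafilter κ) (Fi : ℂ → ℂ)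
    (hlim : TendstoLocallyUniformly (fun s z => F s z) Fi (𝒰 : Filter κ))
    (a b : ℂ) (hab : a ≠ b) (hv : Fi a = Fi b) (B : Set ℂ) (hB : IsOpen B) (haB : a ∈ B)
    (hd : DifferentiableOn ℂ Fi B) : ∀ᶠ z in 𝓝 a, Fi z = Fi a := by
  have hc : Continuous Fi := hlim.continuous (Eventually.of_forall fun s => (F s).continuous).frequently
  have han : AnalyticAt ℂ Fi a := hd.analyticAt (hB.mem_nhds haB)
  have hcst : AnalyticAt ℂ (fun _ : ℂ => Fi a) a := analyticAt_const
  rcases han.eventually_eq_or_eventually_ne hcst with h | h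
  · exact h
  exfalso
  rw [eventually_nhdsWithin_iff] at h
  have h2 : ∀ᶠ z in 𝓝 a, z ≠ b := isOpen_ne.mem_nhds hab
  obtain ⟨δ0, hδ0, hδ⟩ := Metric.eventually_nhds_iff_ball.1 (h.and h2)
  obtain ⟨δ, hδp, hδlt⟩ := exists_between hδ0
  have hcb : closedBall a δ ⊆ ball a δ0 := closedBall_subset_ball hδlt
  have hne : ∀ z ∈ sphere a δ, Fi z ≠ Fi a := by
    intro z hz
    refine (hδ z (hcb (sphere_subset_closedBall hz))).1 ?_
    intro hza
    rw [mem_singleton_iff] at hza
    rw [hza, mem_sphere, dist_self] at hz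
    exact hδp.ne hz
  have hbn : b ∉ closedBall a δ := fun hb => (hδ b (hcb hb)).2 rfl
  obtain ⟨x, hx, hxm⟩ := (isCompact_sphere a δ).exists_isMinOn
    (NormedSpace.sphere_nonempty.2 hδp.le)
    ((hc.dist (continuous_const : Continuous fun _ : ℂ => Fi a)).continuousOn)
  set m : ℝ := dist (Fi x) (Fi a) with hm
  have hmpos : 0 < m := dist_pos.2 (hne x hx)
  have hK : IsCompact (closedBall a δ ∪ {b}) := (isCompact_closedBall a δ).union isCompact_singleton
  have hU : TendstoUniformlyOn (fun s z => F s z) Fi (𝒰 : Filter κ) (closedBall a δ ∪ {b}) :=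
    (tendstoLocallyUniformlyOn_iff_tendstoUniformlyOn_of_compact hK).1
      ((tendstoLocallyUniformlyOn_univ.2 hlim).mono (subset_univ _))
  obtain ⟨s, hs⟩ := ((Metric.tendstoUniformlyOn_iff.1 hU) (m / 4) (by positivity)).exists
  have hsa : F s a ∈ ball (Fi a) (m / 2) := by
    have h3 := hs a (Or.inl (mem_closedBall_self hδp.le))
    rw [mem_ball, dist_comm]
    linarith
  have hsb : F s b ∈ ball (Fi a) (m / 2) := by
    have h3 := hs b (Or.inr rfl)
    rw [mem_ball, dist_comm, hv]
    linarith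
  have hsph : ∀ z ∈ sphere a δ, F s z ∉ ball (Fi a) (m / 2) := by
    intro z hz hzb
    have h3 := hs z (Or.inl (sphere_subset_closedBall hz))
    have h4 : m ≤ dist (Fi z) (Fi a) := hxm hz
    have h5 := dist_triangle (Fi z) (F s z) (Fi a)
    rw [mem_ball] at hzb
    linarith
  have hsub : ball (Fi a) (m / 2) ⊆ F s '' ball a δ ∪ (F s '' closedBall a δ)ᶜ := by
    intro w hw
    by_cases hw2 : w ∈ F s '' closedBall a δ
    · left
      obtain ⟨z, hz, rfl⟩ := hw2
      rw [← ball_union_sphere] at hz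
      rcases hz with hz | hz
      · exact mem_image_of_mem _ hz
      · exact absurd hw (hsph z hz)
    · exact Or.inr hw2
  have hopen1 : IsOpen (F s '' ball a δ) := (F s).isOpenMap _ isOpen_ball
  have hopen2 : IsOpen (F s '' closedBall a δ)ᶜ :=
    ((F s).isClosedMap _ isClosed_closedBall).isOpen_compl
  have hdisj : Disjoint (F s '' ball a δ) (F s '' closedBall a δ)ᶜ := by
    rw [disjoint_compl_right_iff_subset]
    exact image_mono ball_subset_closedBall
  have hfull : ball (Fi a) (m / 2) ⊆ F s '' ball a δ :=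
    (convex_ball (Fi a) (m / 2)).isPreconnected.subset_left_of_subset_union hopen1 hopen2 hdisj hsub
      ⟨F s a, hsa, mem_image_of_mem _ (mem_ball_self hδp)⟩
  obtain ⟨z, hz, hzb⟩ := hfull hsb
  have h6 : z = b := (F s).injective hzb
  rw [h6] at hz
  exact hbn (ball_subset_closedBall hz)

end LI_aux

theorem t_LI : S_IN → S_LI := by
  intro hIN ι q R₁ N E c r f hR hf F hG 𝒰 Fi hlim hhol a b hv
  by_contra hab
  have hc : Continuous Fi := hlim.continuous (Eventually.of_forall fun s => (F s).continuous).frequently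
  have hpt : ∀ z, Tendsto (fun s => F s z) (𝒰 : Filter (Finset ι)) (𝓝 (Fi z)) := fun z =>
    (tendstoLocallyUniformlyOn_univ.2 hlim).tendsto_at (mem_univ z)
  have hA : ∀ x y, x ≠ y → Fi x = Fi y → ∃ j, x ∈ ball (c j) (q * r j) := by
    intro x y hxy hFxy
    by_contra hno
    push Not at hno
    obtain ⟨κ, hκ, hκ2⟩ := hIN ι q R₁ N E c r f hR hf x y hxy hno
    have h1 : Tendsto (fun s => dist (F s x) (F s y)) (𝒰 : Filter (Finset ι))
        (𝓝 (dist (Fi x) (Fi y))) := (hpt x).dist (hpt y)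
    have h2 : κ ≤ dist (Fi x) (Fi y) :=
      ge_of_tendsto h1 (Eventually.of_forall fun s => hκ2 s (F s) (hG s))
    rw [hFxy, dist_self] at h2
    exact absurd hκ (not_lt.2 h2)
  have hball : ∀ j, DifferentiableOn ℂ Fi (ball (c j) (q * r j)) := by
    intro j
    refine hhol.mono ?_
    rintro z hz ⟨hzE, hzn⟩
    have h1 : z ∉ ball (c j) (r j) := fun h => hzn (mem_iUnion.2 ⟨j, h⟩)
    exact Set.disjoint_left.1 (hR.off j) ⟨ball_subset_closedBall hz, h1⟩ hzE
  have hkey : ∀ x y, x ≠ y → Fi x = Fi y → ∀ᶠ z in 𝓝 x, Fi z = Fi x := by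
    intro x y hxy hFxy
    obtain ⟨j, hj⟩ := hA x y hxy hFxy
    exact LI_aux.loc F 𝒰 Fi hlim x y hxy hFxy _ isOpen_ball hj (hball j)
  have hopen : IsOpen {z | Fi z = Fi a} := by
    rw [isOpen_iff_mem_nhds]
    intro x hx
    replace hx : Fi x = Fi a := hx
    have h1 : ∀ᶠ z in 𝓝 x, Fi z = Fi x := by
      by_cases hxa : x = a
      · subst hxa
        exact hkey x b hab hv
      · exact hkey x a hxa hx
    filter_upwards [h1] with z hz
    exact hz.trans hx
  have hclosed : IsClosed {z | Fi z = Fi a} := isClosed_eq hc continuous_const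
  have huniv : {z | Fi z = Fi a} = univ := IsClopen.eq_univ ⟨hclosed, hopen⟩ ⟨a, rfl⟩
  have h0 : Fi 0 = 0 := by
    have h1 := hpt 0
    have h2 : (fun s => F s 0) = fun _ => (0 : ℂ) := funext fun s => (hG s).nrm.zero
    rw [h2] at h1
    exact tendsto_nhds_unique h1 tendsto_const_nhds
  have hall : ∀ z, Fi z = 0 := by
    intro z
    have h1 : z ∈ {z | Fi z = Fi a} := by rw [huniv]; exact mem_univ z
    have h2 : (0 : ℂ) ∈ {z | Fi z = Fi a} := by rw [huniv]; exact mem_univ _
    have h3 : Fi z = Fi a := h1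
    have h4 : Fi 0 = Fi a := h2
    rw [h3, ← h4, h0]
  have hU : TendstoUniformlyOn (fun s z => F s z) Fi (𝒰 : Filter (Finset ι)) (closedBall 0 R₁) :=
    (tendstoLocallyUniformlyOn_iff_tendstoUniformlyOn_of_compact (isCompact_closedBall 0 R₁)).1
      ((tendstoLocallyUniformlyOn_univ.2 hlim).mono (subset_univ _))
  obtain ⟨s, hs⟩ := ((Metric.tendstoUniformlyOn_iff.1 hU) 1 one_pos).exists
  obtain ⟨z, hz, hz1⟩ := (hG s).nrm.eq_one
  have h3 := hs z (mem_closedBall_zero_iff.2 hz)
  rw [hall z, dist_zero_left, hz1] at h3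
  exact lt_irrefl _ h3

end Pool.Agent.RGR
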