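import Pool.Agent.RGR.St

/-!
# The main estimate (module MN)
-/

set_option autoImplicit false

namespace Pool.Agent.RGR

open MeasureTheory Metric Set Filter Topology Complex
open scoped ContDiff Real ENNReal
open Pool.Agent.LibHelper41 Pool.Agent.LibHelper41.Remov

namespace MN_aux

theorem rpow_half_sq (X : ℝ≥0∞) : (X ^ (1 / 2 : ℝ)) ^ 2 = X := by
  rw [← ENNReal.rpow_natCast, ← ENNReal.rpow_mul]
  norm_num

theorem rpow_half_rpow (X : ℝ≥0∞) : (X ^ (1 / 2 : ℝ)) ^ (2 : ℝ) = X := by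
  rw [← ENNReal.rpow_mul]
  norm_num

theorem le_rpow_half {x X : ℝ≥0∞} (h : x ^ 2 ≤ X) : x ≤ X ^ (1 / 2 : ℝ) := by
  have h1 := ENNReal.rpow_le_rpow h (z := 1 / 2) (by norm_num)
  rw [← ENNReal.rpow_natCast, ← ENNReal.rpow_mul] at h1
  norm_num at h1
  simpa using h1

/-- Cauchy-Schwarz -/
theorem cs {ι : Type} (s : Finset ι) (f g : ι → ℝ≥0∞) :
    ∑ j ∈ s, f j * g j ≤ (∑ j ∈ s, f j ^ (2 : ℝ)) ^ (1 / 2 : ℝ) *
      (∑ j ∈ s, g j ^ (2 : ℝ)) ^ (1 / 2 : ℝ) :=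
  ENNReal.inner_le_Lp_mul_Lq s f g Real.HolderConjugate.two_two

theorem isOpen_Ann (c : ℂ) (a b : ℝ) : IsOpen (Ann c a b) := by
  have hc : Continuous fun z : ℂ => ‖z - c‖ := by fun_prop
  exact (isOpen_lt continuous_const hc).inter (isOpen_lt hc continuous_const)

theorem image_inter_encard {ι : Type} {s : Finset ι} {A : ι → Set ℂ} {N : ℕ} (G : ℂ ≃ₜ ℂ)
    (S : Set ℂ) (hN : ∀ z, {j | j ∈ s ∧ z ∈ A j}.encard ≤ N) (w : ℂ) :
    {j | j ∈ s ∧ w ∈ S ∩ G '' A j}.encard ≤ N := by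
  refine (encard_le_encard ?_).trans (hN (G.symm w))
  rintro j ⟨hj, -, z, hz, rfl⟩
  exact ⟨hj, by rw [G.symm_apply_apply]; exact hz⟩

/-- the last computation -/
theorem last {D M Λ K T : ℝ≥0∞} (h0 : Λ ≠ 0) (hT : Λ ≠ ⊤)
    (h : D * Λ ≤ (T * Λ * M) ^ (1 / 2 : ℝ) + K * (T * Λ * M) ^ (1 / 2 : ℝ)) :
    D ^ 2 * Λ ≤ T * (1 + K) ^ 2 * M := by
  have h1 : (D * Λ) ^ 2 ≤ ((1 + K) * (T * Λ * M) ^ (1 / 2 : ℝ)) ^ 2 := by
    refine pow_le_pow_left₀ (by positivity) (h.trans (le_of_eq ?_)) 2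
    ring
  rw [mul_pow (1 + K), rpow_half_sq] at h1
  have h2 : D ^ 2 * Λ * Λ ≤ T * (1 + K) ^ 2 * M * Λ := by
    calc D ^ 2 * Λ * Λ = (D * Λ) ^ 2 := by ring
      _ ≤ (1 + K) ^ 2 * (T * Λ * M) := h1
      _ = T * (1 + K) ^ 2 * M * Λ := by ring
  exact (ENNReal.mul_le_mul_iff_left h0 hT).1 h2

end MN_aux

open MN_aux

theorem t_MN : S_PCS → S_RD → S_RT → S_JMP → S_MN := by
  intro hPCS hRD hRT hJMP G₁ G₂ ι s c r q N p δ R V W D M hq hr hN hG₁ hG₂ hg hp hδ hδR hV hVM hW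
    hWM hC
  have hR : 0 < R := hδ.trans hδR
  have hlog : 0 < Real.log q := Real.log_pos hq
  have hΛ : 0 < Real.log (R / δ) := Real.log_pos ((one_lt_div hδ).2 hδR)
  set lq : ℝ≥0∞ := ENNReal.ofReal (Real.log q) with hlq
  have hlq0 : lq ≠ 0 := (ENNReal.ofReal_pos.2 hlog).ne'
  have hlqT : lq ≠ ⊤ := ENNReal.ofReal_ne_top
  set K1 : ℝ≥0∞ := ENNReal.ofReal (2 * π) / lq with hK1
  set Λ : ℝ≥0∞ := ENNReal.ofReal (Real.log (R / δ)) with hΛd
  have hΛ0 : Λ ≠ 0 := (ENNReal.ofReal_pos.2 hΛ).ne'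
  have hΛT : Λ ≠ ⊤ := ENNReal.ofReal_ne_top
  set g : ℂ ≃ₜ ℂ := G₁.symm.trans G₂ with hgd
  have hgw : ∀ w, g w = G₂ (G₁.symm w) := fun w => rfl
  set A : ι → Set ℂ := fun j => Ann (c j) (r j) (q * r j) with hA
  set L : ι → Set ℂ := fun j => G₁ '' closedBall (c j) (r j) with hL
  set d : ι → ℝ≥0∞ := fun j => (K1 * volume (G₂ '' A j)) ^ (1 / 2 : ℝ) with hd
  have hLc : ∀ j ∈ s, IsCompact (L j) := fun j _ =>
    (isCompact_closedBall (c j) (r j)).image G₁.continuous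
  have hdL : ∀ j ∈ s, ∀ x ∈ L j, ∀ y ∈ L j, edist (g x) (g y) ≤ d j := by
    rintro j hj _ ⟨x, hx, rfl⟩ _ ⟨y, hy, rfl⟩
    have h1 := hRD G₂ (c j) (r j) q (hr j hj) hq (hG₂ j hj) x hx y hy
    rw [hgw, hgw, G₁.symm_apply_apply, G₁.symm_apply_apply]
    refine le_rpow_half ?_
    rw [hK1, ENNReal.mul_comm_div, ← mul_div_assoc, ENNReal.le_div_iff_mul_le (Or.inl hlq0) (Or.inl hlqT)]
    refine h1.trans (le_of_eq ?_)
    ring
  set τ : ι → ℝ≥0∞ := fun j => volume (TT (L j) p δ R) with hτ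
  have hgd' : DifferentiableOn ℂ g (⋃ j ∈ s, L j)ᶜ := hg
  have hC' : Cross g p δ R V D := hC
  have hJ := hJMP g ι s L d p δ R V D hδ hδR hLc hgd' hdL hV hC'
  rw [← hΛd] at hJ
  set T : ℝ≥0∞ := ENNReal.ofReal (2 * π) with hT
  have hTΛ : ENNReal.ofReal (2 * π * Real.log (R / δ)) = T * Λ :=
    ENNReal.ofReal_mul (by positivity)
  rw [hTΛ] at hJ
  -- the sum of the `d j ^ 2`
  have hAo : ∀ j, IsOpen (A j) := fun j => isOpen_Ann _ _ _
  have hsd : ∑ j ∈ s, d j ^ (2 : ℝ) ≤ K1 * (N * M) := by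
    have h1 : ∀ j ∈ s, d j ^ (2 : ℝ) = K1 * volume (G₂ '' A j) := fun j _ => rpow_half_rpow _
    rw [Finset.sum_congr rfl h1, ← Finset.mul_sum]
    gcongr
    have h2 := sum_lintegral_le (s := s) (A := fun j => univ ∩ G₂ '' A j) (W := W) (N := N)
      (fun j _ => by
        rw [univ_inter]
        exact (G₂.isOpenMap _ (hAo j)).measurableSet)
      (fun j hj => by
        rw [univ_inter]
        exact hW j hj) (image_inter_encard G₂ univ hN) (fun _ => 1)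
    simp only [univ_inter, lintegral_one, Measure.restrict_apply MeasurableSet.univ] at h2
    exact h2.trans (by gcongr)
  -- the sum of the `τ j ^ 2`
  have hsτ : ∑ j ∈ s, τ j ^ (2 : ℝ) ≤ K1 * (N * (T * Λ)) := by
    have h1 : ∀ j ∈ s, τ j ^ (2 : ℝ) ≤
        K1 * ∫⁻ w in Ann p δ R ∩ G₁ '' A j, (‖w - p‖ₑ⁻¹) ^ 2 := by
      intro j hj
      have h2 := hRT G₁ (c j) p (r j) q δ R (hr j hj) hq hδ hδR (hG₁ j hj) (hp j hj)
      rw [hK1, ENNReal.mul_comm_div, ← mul_div_assoc,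
        ENNReal.le_div_iff_mul_le (Or.inl hlq0) (Or.inl hlqT)]
      rw [ENNReal.rpow_two]
      refine h2.trans (le_of_eq ?_)
      ring
    refine (Finset.sum_le_sum h1).trans ?_
    rw [← Finset.mul_sum]
    gcongr
    have h3 := sum_lintegral_le (s := s) (A := fun j => Ann p δ R ∩ G₁ '' A j) (W := Ann p δ R)
      (N := N) (fun j _ => ((isOpen_Ann _ _ _).inter (G₁.isOpenMap _ (hAo j))).measurableSet)
      (fun j _ => inter_subset_left) (image_inter_encard G₁ (Ann p δ R) hN)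
      (fun w => (‖w - p‖ₑ⁻¹) ^ 2)
    rw [hPCS.1 p δ R hδ hδR, hTΛ] at h3
    exact h3
  -- the product
  have hprod : ∑ j ∈ s, d j * τ j ≤ (K1 * N) * (T * Λ * M) ^ (1 / 2 : ℝ) := by
    refine (cs s d τ).trans ?_
    have h1 : (∑ j ∈ s, d j ^ (2 : ℝ)) ^ (1 / 2 : ℝ) * (∑ j ∈ s, τ j ^ (2 : ℝ)) ^ (1 / 2 : ℝ) ≤
        (K1 * (N * M)) ^ (1 / 2 : ℝ) * (K1 * (N * (T * Λ))) ^ (1 / 2 : ℝ) := by
      gcongr
    refine h1.trans (le_of_eq ?_)
    have hh : (0 : ℝ) ≤ 1 / 2 := by norm_num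
    rw [← ENNReal.mul_rpow_of_nonneg _ _ hh]
    have h2 : K1 * (N * M) * (K1 * (N * (T * Λ))) = (K1 * N) ^ 2 * (T * Λ * M) := by ring
    rw [h2, ENNReal.mul_rpow_of_nonneg _ _ hh]
    congr 1
    rw [← ENNReal.rpow_natCast, ← ENNReal.rpow_mul]
    norm_num
  have hfin : D * Λ ≤ (T * Λ * M) ^ (1 / 2 : ℝ) + (K1 * N) * (T * Λ * M) ^ (1 / 2 : ℝ) := by
    refine hJ.trans ?_
    have h1 : volume (V ∩ g '' ball p R) ≤ M := (measure_mono inter_subset_left).trans hVM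
    gcongr
  have hres := last hΛ0 hΛT hfin
  refine hres.trans (le_of_eq ?_)
  congr 1
  have hKN : ENNReal.ofReal (2 * π * N / Real.log q) = K1 * N := by
    rw [ENNReal.ofReal_div_of_pos hlog,
      ENNReal.ofReal_mul (p := 2 * π) (q := (N : ℝ)) (by positivity), ENNReal.ofReal_natCast, hK1,
      ENNReal.mul_div_right_comm]
  have hpos : 0 ≤ 2 * π * N / Real.log q := by positivity
  rw [ENNReal.ofReal_mul (p := 2 * π) (by positivity), ENNReal.ofReal_pow (by positivity),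
    ENNReal.ofReal_add zero_le_one hpos, ENNReal.ofReal_one, hKN]

end Pool.Agent.RGR
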