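import Pool.Agent.RGR.St

/-!
# Module NRM: normalisation
-/

set_option autoImplicit false

namespace Pool.Agent.RGR

open MeasureTheory Metric Set Filter Topology Complex
open scoped ContDiff Real ENNReal
open Pool.Agent.LibHelper41 Pool.Agent.LibHelper41.Remov

namespace NRM_aux

/-- The maximum principle in the exterior of a disc. -/
theorem ext_bound {h : ℂ → ℂ} {R B : ℝ} {l : ℂ} (hR : 0 < R)
    (hc : ContinuousOn h {z | R ≤ ‖z‖}) (hd : ∀ z, R < ‖z‖ → DifferentiableAt ℂ h z)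
    (hl : Tendsto h (cocompact ℂ) (𝓝 l)) (hB : ∀ z, ‖z‖ = R → ‖h z‖ ≤ B) :
    ∀ z, R ≤ ‖z‖ → ‖h z‖ ≤ B := by
  set H : ℂ → ℂ := Function.update (fun v => h v⁻¹) 0 l with hH
  have hH0 : ContinuousAt H 0 := by
    rw [hH, continuousAt_update_same]
    refine hl.comp ?_
    rw [← Metric.cobounded_eq_cocompact]
    exact tendsto_inv₀_nhdsNE_zero
  have hHne : ∀ v, v ≠ 0 → H =ᶠ[𝓝 v] fun v => h v⁻¹ := by
    intro v hv
    filter_upwards [isOpen_ne.mem_nhds hv] with w hw
    exact Function.update_of_ne hw _ _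
  have hHv : ∀ v, v ≠ 0 → H v = h v⁻¹ := fun v hv => Function.update_of_ne hv _ _
  have hR' : 0 < 1 / R := by positivity
  have hdiff : DifferentiableOn ℂ H (ball 0 (1 / R)) := by
    rw [← Complex.differentiableOn_compl_singleton_and_continuousAt_iff
      (isOpen_ball.mem_nhds (mem_ball_self hR'))]
    refine ⟨fun v hv => ?_, hH0⟩
    have hv0 : v ≠ 0 := hv.2
    have hv1 : ‖v‖ < 1 / R := by simpa using hv.1
    have hv2 : R < ‖v⁻¹‖ := by
      rw [norm_inv, lt_inv_comm₀ hR (norm_pos_iff.2 hv0)]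
      simpa using hv1
    have h1 : DifferentiableAt ℂ (fun v => h v⁻¹) v :=
      DifferentiableAt.comp v (hd _ hv2) (differentiableAt_inv hv0)
    exact (h1.congr_of_eventuallyEq (hHne v hv0)).differentiableWithinAt
  have hcl : ContinuousOn H (closure (ball 0 (1 / R))) := by
    rw [closure_ball _ hR'.ne']
    intro v hv
    rcases eq_or_ne v 0 with rfl | hv0
    · exact hH0.continuousWithinAt
    · have hmaps : ContinuousWithinAt (fun v => h v⁻¹) (closedBall 0 (1 / R) \ {0}) v := by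
        have hv1 : ‖v‖ ≤ 1 / R := by simpa using hv
        refine ContinuousWithinAt.comp (t := {z | R ≤ ‖z‖}) (hc _ ?_)
          (continuousAt_inv₀ hv0).continuousWithinAt ?_
        · rw [mem_setOf_eq, norm_inv, le_inv_comm₀ hR (norm_pos_iff.2 hv0)]
          simpa using hv1
        · intro w hw
          have hw0 : w ≠ 0 := hw.2
          have hw1 : ‖w‖ ≤ 1 / R := by simpa using hw.1
          rw [mem_setOf_eq, norm_inv, le_inv_comm₀ hR (norm_pos_iff.2 hw0)]
          simpa using hw1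
      have h2 : ContinuousWithinAt (fun v => h v⁻¹) (closedBall 0 (1 / R)) v := by
        refine hmaps.mono_of_mem_nhdsWithin ?_
        rw [diff_eq, inter_comm]
        exact inter_mem (mem_nhdsWithin_of_mem_nhds (isOpen_ne.mem_nhds hv0)) self_mem_nhdsWithin
      exact h2.congr_of_eventuallyEq (mem_nhdsWithin_of_mem_nhds (hHne v hv0)) (hHv v hv0)
  intro z hz
  have hz0 : 0 < ‖z‖ := lt_of_lt_of_le hR hz
  have hz0' : z ≠ 0 := norm_pos_iff.1 hz0
  have key := Complex.norm_le_of_forall_mem_frontier_norm_le (z := z⁻¹) (C := B) (f := H)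
    isBounded_ball ⟨hdiff, hcl⟩ ?_ ?_
  · rw [hHv _ (inv_ne_zero hz0'), inv_inv] at key
    exact key
  · intro v hv
    rw [frontier_ball _ hR'.ne'] at hv
    have hv1 : ‖v‖ = 1 / R := by simpa using hv
    have hv0 : v ≠ 0 := norm_pos_iff.1 (by rw [hv1]; exact hR')
    rw [hHv v hv0]
    apply hB
    rw [norm_inv, hv1]
    simp
  · rw [closure_ball _ hR'.ne', mem_closedBall_zero_iff, norm_inv, one_div]
    exact inv_anti₀ hR hz

theorem tendsto_inv_cocompact : Tendsto (fun z : ℂ => z⁻¹) (cocompact ℂ) (𝓝 0) := by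
  rw [← Metric.cobounded_eq_cocompact]
  exact tendsto_inv₀_cobounded

end NRM_aux

open NRM_aux in
/-- **NRM**. -/
theorem t_NRM : S_NRM := by
  intro F K R₁ hR hK hF hT
  -- the maximum
  have hcomp : IsCompact (closedBall (0 : ℂ) R₁) := isCompact_closedBall 0 R₁
  have hcont : Continuous (fun z => ‖F z - F 0‖) := (F.continuous.sub continuous_const).norm
  obtain ⟨z₁, hz₁, hmax⟩ := hcomp.exists_isMaxOn ⟨0, by simp [hR.le]⟩ hcont.continuousOn
  set μ : ℝ := ‖F z₁ - F 0‖ with hμ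
  have hle : ∀ z, ‖z‖ ≤ R₁ → ‖F z - F 0‖ ≤ μ := fun z hz =>
    hmax (mem_closedBall_zero_iff.2 hz)
  have hμpos : 0 < μ := by
    have h1 : ‖(R₁ : ℂ)‖ = R₁ := by simp [abs_of_pos hR]
    refine lt_of_lt_of_le ?_ (hle (R₁ : ℂ) h1.le)
    rw [norm_pos_iff, sub_ne_zero]
    intro h
    have := F.injective h
    rw [this, norm_zero] at h1
    exact hR.ne h1
  have hμc : (μ : ℂ) ≠ 0 := by exact_mod_cast hμpos.ne'
  set a : ℂ := (μ : ℂ)⁻¹ with ha
  have ha0 : a ≠ 0 := inv_ne_zero hμc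
  have hna : ‖a‖ = μ⁻¹ := by rw [ha, norm_inv, Complex.norm_real, Real.norm_of_nonneg hμpos.le]
  set G : ℂ → ℂ := fun z => a * F z + -(a * F 0) with hG
  have hGeq : ∀ z, G z = a * (F z - F 0) := fun z => by simp only [hG]; ring
  have hGn : ∀ z, ‖G z‖ = μ⁻¹ * ‖F z - F 0‖ := fun z => by rw [hGeq, norm_mul, hna]
  have hGne : ∀ z, z ≠ 0 → G z ≠ 0 := by
    intro z hz h
    rw [hGeq, mul_eq_zero] at h
    rcases h with h | h
    · exact ha0 h
    · exact hz (F.injective (sub_eq_zero.1 h))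
  have hGc : Continuous G := (continuous_const.mul F.continuous).add continuous_const
  have hGd : ∀ z, R₁ < ‖z‖ → DifferentiableAt ℂ G z := by
    intro z hz
    have hn : Kᶜ ∈ 𝓝 z := by
      have h1 : {w : ℂ | R₁ < ‖w‖} ∈ 𝓝 z :=
        (isOpen_lt continuous_const continuous_norm).mem_nhds hz
      filter_upwards [h1] with w hw hwK
      have := mem_ball_zero_iff.1 (hK hwK)
      linarith
    exact ((hF.differentiableAt hn).const_mul a).add_const _
  have hle1 : ∀ z, ‖z‖ ≤ R₁ → ‖G z‖ ≤ 1 := by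
    intro z hz
    rw [hGn, inv_mul_le_iff₀ hμpos, mul_one]
    exact hle z hz
  have hlim : Tendsto (fun z => G z / z) (cocompact ℂ) (𝓝 a) := by
    have h1 : Tendsto (fun z => a * ((F z - z) - F 0) * z⁻¹ + a) (cocompact ℂ)
        (𝓝 (a * (0 - F 0) * 0 + a)) :=
      (((hT.sub_const (F 0)).const_mul a).mul tendsto_inv_cocompact).add_const a
    rw [mul_zero, zero_add] at h1
    refine h1.congr' ?_
    have h2 : ({0}ᶜ : Set ℂ) ∈ cocompact ℂ := isCompact_singleton.compl_mem_cocompact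
    filter_upwards [h2] with z hz
    have hz' : z ≠ 0 := hz
    rw [hGeq]
    field_simp
    ring
  have hne : ∀ z : ℂ, R₁ ≤ ‖z‖ → z ≠ 0 := fun z hz => norm_pos_iff.1 (lt_of_lt_of_le hR hz)
  refine ⟨a, -(a * F 0), ha0, ?_⟩
  refine ⟨?_, hle1, ⟨z₁, mem_closedBall_zero_iff.1 hz₁, ?_⟩, ?_, ?_⟩
  · show a * F 0 + -(a * F 0) = 0
    ring
  · show ‖G z₁‖ = 1
    rw [hGn, ← hμ, inv_mul_cancel₀ hμpos.ne']
  · intro z hz
    show ‖G z‖ ≤ ‖z‖ / R₁
    have hz0 : 0 < ‖z‖ := lt_of_lt_of_le hR hz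
    have h1 := ext_bound (h := fun z => G z / z) (B := 1 / R₁) hR
      (hGc.continuousOn.div continuousOn_id fun z hz => hne z hz)
      (fun z hz => (hGd z hz).div differentiableAt_id (hne z hz.le)) hlim
      (fun z hz => by
        rw [norm_div, hz]
        exact div_le_div_of_nonneg_right (hle1 z hz.le) hR.le) z hz
    rw [norm_div, div_le_div_iff₀ hz0 hR, one_mul] at h1
    rw [le_div_iff₀ hR]
    exact h1
  · intro m hm hmz z hz
    show m * (‖z‖ / R₁) ≤ ‖G z‖
    have hmz' : ∀ z, ‖z‖ = R₁ → m ≤ ‖G z‖ := hmz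
    rcases hm.eq_or_lt with rfl | hm0
    · rw [zero_mul]
      exact norm_nonneg _
    · have hz0 : 0 < ‖z‖ := lt_of_lt_of_le hR hz
      have hlim' : Tendsto (fun z => z / G z) (cocompact ℂ) (𝓝 a⁻¹) := by
        refine (hlim.inv₀ ha0).congr fun z => ?_
        rw [inv_div]
      have h1 := ext_bound (h := fun z => z / G z) (B := R₁ / m) hR
        (continuousOn_id.div hGc.continuousOn fun z hz => hGne z (hne z hz))
        (fun z hz => differentiableAt_id.div (hGd z hz) (hGne z (hne z hz.le))) hlim'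
        (fun z hz => by
          rw [norm_div, hz]
          exact div_le_div_of_nonneg_left hR.le hm0 (hmz' z hz)) z hz
      have hG0 : 0 < ‖G z‖ := norm_pos_iff.2 (hGne z (hne z hz))
      rw [norm_div, div_le_div_iff₀ hG0 hm0] at h1
      rw [← mul_div_assoc, div_le_iff₀ hR]
      linarith

end Pool.Agent.RGR
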