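import Pool.Agent.RGR.St

/-!
# Module ONE: the theorem for one family of rings
-/

set_option autoImplicit false

namespace Pool.Agent.RGR

open MeasureTheory Metric Set Filter Topology Complex
open scoped ContDiff Real ENNReal
open Pool.Agent.LibHelper41 Pool.Agent.LibHelper41.Remov

namespace ONE_aux

/-- The integrals converge along the filter, for locally uniformly convergent functions. -/
theorem tendsto_int {κ : Type} {𝒰 : Filter κ} {F : κ → (ℂ ≃ₜ ℂ)} {Fi : ℂ → ℂ}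
    (h : TendstoLocallyUniformly (fun s z => F s z) Fi 𝒰) (hFi : Continuous Fi) (f : ℂ ≃ₜ ℂ)
    {φ : ℂ → ℂ} (hφ : ContDiff ℝ ∞ φ) (hc : HasCompactSupport φ) :
    Tendsto (fun s => ∫ w, F s (f.symm w) * dbar φ w) 𝒰
      (𝓝 (∫ w, Fi (f.symm w) * dbar φ w)) := by
  have hK : IsCompact (f.symm '' tsupport φ) := hc.isCompact.image f.symm.continuous
  have hu : TendstoUniformlyOn (fun s z => F s z) Fi 𝒰 (f.symm '' tsupport φ) :=
    (tendstoLocallyUniformlyOn_iff_tendstoUniformlyOn_of_compact hK).1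
      h.tendstoLocallyUniformlyOn
  have hi : Integrable (fun w => Fi (f.symm w) * dbar φ w) :=
    integral_u_dbar_integrable (hFi.comp f.symm.continuous) hφ hc
  have his : ∀ s, Integrable (fun w => F s (f.symm w) * dbar φ w) := fun s =>
    integral_u_dbar_integrable ((F s).continuous.comp f.symm.continuous) hφ hc
  have hd : Integrable (fun w => ‖dbar φ w‖) := by
    have h1 : Integrable (dbar φ) :=
      (continuous_dbar (hφ.of_le (by exact_mod_cast le_top))).integrable_of_hasCompactSupport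
        (hasCompactSupport_dbar hc)
    exact h1.norm
  rw [Metric.tendsto_nhds]
  intro ε hε
  have hB : 0 ≤ ∫ w, ‖dbar φ w‖ := integral_nonneg fun w => norm_nonneg _
  have hη : 0 < ε / ((∫ w, ‖dbar φ w‖) + 1) := by positivity
  filter_upwards [Metric.tendstoUniformlyOn_iff.1 hu _ hη] with s hs
  rw [dist_eq_norm, ← integral_sub (his s) hi]
  have h1 : ‖∫ w, (F s (f.symm w) * dbar φ w - Fi (f.symm w) * dbar φ w)‖ ≤
      ∫ w, ε / ((∫ w, ‖dbar φ w‖) + 1) * ‖dbar φ w‖ := by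
    refine norm_integral_le_of_norm_le (hd.const_mul _) (Filter.Eventually.of_forall fun w => ?_)
    by_cases hw : w ∈ tsupport φ
    · rw [← sub_mul, norm_mul]
      refine mul_le_mul_of_nonneg_right ?_ (norm_nonneg _)
      have h2 := hs (f.symm w) (mem_image_of_mem _ hw)
      rw [dist_comm, dist_eq_norm] at h2
      exact h2.le
    · rw [dbar_eq_zero_of_notMem hw]
      simp
  refine lt_of_le_of_lt h1 ?_
  rw [integral_const_mul]
  calc ε / ((∫ w, ‖dbar φ w‖) + 1) * ∫ w, ‖dbar φ w‖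
      < ε / ((∫ w, ‖dbar φ w‖) + 1) * ((∫ w, ‖dbar φ w‖) + 1) :=
        mul_lt_mul_of_pos_left (lt_add_one _) hη
    _ = ε := div_mul_cancel₀ _ (by positivity)

/-- The normalisation passes to the limit. -/
theorem lim_nrm {κ : Type} {R₁ : ℝ} {𝒰 : Ultrafilter κ} {F : κ → (ℂ ≃ₜ ℂ)} {Fi : ℂ → ℂ}
    (h : TendstoLocallyUniformly (fun s z => F s z) Fi (𝒰 : Filter κ)) (hFi : Continuous Fi)
    (hN : ∀ s, Nrm R₁ (F s)) :
    Fi 0 = 0 ∧ (∀ z, ‖z‖ ≤ R₁ → ‖Fi z‖ ≤ 1) ∧ (∃ z, ‖z‖ ≤ R₁ ∧ ‖Fi z‖ = 1) ∧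
      (∀ z, R₁ ≤ ‖z‖ → ‖Fi z‖ ≤ ‖z‖ / R₁) := by
  have hp : ∀ z, Tendsto (fun s => F s z) (𝒰 : Filter κ) (𝓝 (Fi z)) := fun z =>
    h.tendsto_comp hFi.continuousAt tendsto_const_nhds
  refine ⟨?_, fun z hz => ?_, ?_, fun z hz => ?_⟩
  · have h1 := hp 0
    have h2 : (fun s => F s 0) = fun _ => (0 : ℂ) := funext fun s => (hN s).zero
    rw [h2] at h1
    exact (tendsto_nhds_unique tendsto_const_nhds h1).symm
  · exact le_of_tendsto (hp z).norm (Filter.Eventually.of_forall fun s => (hN s).le_one z hz)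
  · choose x hx hx1 using fun s => (hN s).eq_one
    have hc : IsCompact (closedBall (0 : ℂ) R₁) := isCompact_closedBall 0 R₁
    have h1 : ((𝒰.map x : Ultrafilter ℂ) : Filter ℂ) ≤ 𝓟 (closedBall (0 : ℂ) R₁) := by
      rw [le_principal_iff]
      refine Filter.mem_map.2 (Filter.Eventually.of_forall fun s => ?_)
      simpa using hx s
    obtain ⟨z, hz, hzl⟩ := hc.ultrafilter_le_nhds _ h1
    have h2 : Tendsto x (𝒰 : Filter κ) (𝓝 z) := hzl
    have h3 : Tendsto (fun s => F s (x s)) (𝒰 : Filter κ) (𝓝 (Fi z)) :=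
      h.tendsto_comp hFi.continuousAt h2
    refine ⟨z, by simpa using hz, ?_⟩
    have h4 := h3.norm
    have h5 : (fun s => ‖F s (x s)‖) = fun _ => (1 : ℝ) := funext hx1
    rw [h5] at h4
    exact (tendsto_nhds_unique tendsto_const_nhds h4).symm
  · exact le_of_tendsto (hp z).norm (Filter.Eventually.of_forall fun s => (hN s).up z hz)

end ONE_aux

theorem t_ONE : S_EX → S_LC → S_LI → S_LH → S_AF → S_WK → S_ONE := by
  intro hEX hLC hLI hLH hAF hWK q R₁ N E f φ hq hR hf hφ hφc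
  obtain ⟨C, hC, hW⟩ := hWK q R₁ N E f φ hq hR hf hφ hφc
  refine ⟨C * ENNReal.ofReal R₁ ^ 2, ENNReal.mul_ne_top hC (by finiteness), ?_⟩
  intro ι c r hRi hRm
  choose F hF using hEX ι q R₁ N E c r f hRi hf
  obtain ⟨𝒰, hU⟩ : ∃ 𝒰 : Ultrafilter (Finset ι), (𝒰 : Filter (Finset ι)) ≤ atTop :=
    ⟨Ultrafilter.of atTop, Ultrafilter.of_le atTop⟩
  obtain ⟨Fi, hlu, hhol⟩ := hLC ι q R₁ N E c r f hRi hf F hF 𝒰 hU
  have hinj := hLI ι q R₁ N E c r f hRi hf F hF 𝒰 Fi hlu hhol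
  have hN : ∀ s, Nrm R₁ (F s) := fun s => (hF s).nrm
  obtain ⟨H, hH⟩ := hLH (Finset ι) R₁ F 𝒰 Fi hR hN hlu hinj
  have hHF : (H : ℂ → ℂ) = Fi := funext hH
  have hent : Differentiable ℂ Fi := by
    have h1 : Differentiable ℂ (H : ℂ → ℂ) := hRm H (by rw [hHF]; exact hhol)
    rwa [hHF] at h1
  have hFc : Continuous Fi := hent.continuous
  obtain ⟨h0, h1, h2, h3⟩ := ONE_aux.lim_nrm hlu hFc hN
  obtain ⟨α, hα, hFα⟩ := hAF Fi R₁ hR hent h0 h1 h2 h3
  have hlim := ONE_aux.tendsto_int hlu hFc f hφ hφc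
  have hI : ∫ w, Fi (f.symm w) * dbar φ w = α * ∫ w, f.symm w * dbar φ w := by
    rw [← integral_const_mul]
    refine integral_congr_ae (Filter.Eventually.of_forall fun w => ?_)
    show Fi (f.symm w) * dbar φ w = α * (f.symm w * dbar φ w)
    rw [hFα, mul_assoc]
  rw [hI] at hlim
  have hlim2 : Tendsto (fun s => ‖∫ w, F s (f.symm w) * dbar φ w‖ₑ ^ 2) (𝒰 : Filter (Finset ι))
      (𝓝 (‖α * ∫ w, f.symm w * dbar φ w‖ₑ ^ 2)) :=
    ((ENNReal.continuous_pow 2).comp continuous_enorm).continuousAt.tendsto.comp hlim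
  have hle : ‖α * ∫ w, f.symm w * dbar φ w‖ₑ ^ 2 ≤
      C * volume (f '' ⋃ j, Ann (c j) (r j) (q * r j)) := by
    refine le_of_tendsto hlim2 (Filter.Eventually.of_forall fun s => ?_)
    refine (hW ι c r hRi s (F s) (hF s)).trans ?_
    refine mul_le_mul_right (measure_mono (image_mono ?_)) _
    exact iUnion₂_subset fun j _ => subset_iUnion (fun j => Ann (c j) (r j) (q * r j)) j
  have hαR : ENNReal.ofReal R₁ * ‖α‖ₑ = 1 := by
    rw [← ofReal_norm, ← ENNReal.ofReal_mul hR.le, mul_comm, hα, ENNReal.ofReal_one]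
  calc ‖∫ w, f.symm w * dbar φ w‖ₑ ^ 2
      = ENNReal.ofReal R₁ ^ 2 * ‖α * ∫ w, f.symm w * dbar φ w‖ₑ ^ 2 := by
        rw [← mul_pow, enorm_mul, ← mul_assoc, hαR, one_mul]
    _ ≤ ENNReal.ofReal R₁ ^ 2 * (C * volume (f '' ⋃ j, Ann (c j) (r j) (q * r j))) :=
        mul_le_mul_right hle _
    _ = C * ENNReal.ofReal R₁ ^ 2 * volume (f '' ⋃ j, Ann (c j) (r j) (q * r j)) := by ring

end Pool.Agent.RGR
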