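import Pool.Agent.RGR.St

/-!
# Module PCS: Cauchy-Schwarz in polar coordinates
-/

set_option autoImplicit false

namespace Pool.Agent.RGR

open MeasureTheory Metric Set Filter Topology Complex
open scoped ContDiff Real ENNReal
open Pool.Agent.LibHelper41 Pool.Agent.LibHelper41.Remov

namespace PCS_aux

/-- Cauchy-Schwarz for the constant function `1`. -/
theorem cs {α : Type*} [MeasurableSpace α] (μ : Measure α) {F : α → ℝ≥0∞}
    (hF : AEMeasurable F μ) :
    (∫⁻ x, F x ∂μ) ^ 2 ≤ μ univ * ∫⁻ x, F x ^ 2 ∂μ := by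
  have h1 := ENNReal.lintegral_mul_le_Lp_mul_Lq μ Real.HolderConjugate.two_two hF
    (g := fun _ => (1 : ℝ≥0∞)) aemeasurable_const
  simp only [Pi.mul_apply, mul_one, ENNReal.one_rpow, lintegral_one] at h1
  have h2 : ∀ x : ℝ≥0∞, (x ^ (1 / 2 : ℝ)) ^ 2 = x := by
    intro x
    rw [← ENNReal.rpow_natCast, ← ENNReal.rpow_mul]
    norm_num
  have h3 : ∀ x : ℝ≥0∞, x ^ (2 : ℝ) = x ^ 2 := fun x => by
    rw [← ENNReal.rpow_natCast]
    norm_num
  calc (∫⁻ x, F x ∂μ) ^ 2
      ≤ ((∫⁻ x, F x ^ (2 : ℝ) ∂μ) ^ (1 / 2 : ℝ) * μ univ ^ (1 / 2 : ℝ)) ^ 2 := by gcongr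
    _ = μ univ * ∫⁻ x, F x ^ 2 ∂μ := by
        rw [mul_pow, h2, h2, mul_comm]
        simp_rw [h3]

theorem measurable_polar (p : ℂ) :
    Measurable fun z : ℝ × ℝ => p + cexp (z.1 + z.2 * I) := by
  fun_prop

/-- The iterated integral as an integral over a product. -/
theorem iter (F : ℝ × ℝ → ℝ≥0∞) (hF : Measurable F) (A B : Set ℝ) :
    ∫⁻ z, F z ∂((volume.restrict A).prod (volume.restrict B)) =
      ∫⁻ t in A, ∫⁻ θ in B, F (t, θ) :=
  lintegral_prod F hF.aemeasurable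

theorem vol_rect {δ R : ℝ} (hδ : 0 < δ) (hR : δ < R) :
    ((volume.restrict (Ioo (Real.log δ) (Real.log R))).prod
      (volume.restrict (Ioo (-π) π))) univ = ENNReal.ofReal (2 * π * Real.log (R / δ)) := by
  rw [← univ_prod_univ, Measure.prod_prod, Measure.restrict_apply_univ,
    Measure.restrict_apply_univ, Real.volume_Ioo, Real.volume_Ioo,
    Real.log_div (hδ.trans hR).ne' hδ.ne', ← ENNReal.ofReal_mul]
  · exact congrArg _ (by ring)
  · exact sub_nonneg.2 (Real.log_le_log hδ hR.le)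

end PCS_aux

theorem t_PCS : S_POL → S_PCS := by
  intro hPOL
  constructor
  · intro p δ R hδ hR
    have hm : Measurable fun w : ℂ => (‖w - p‖ₑ⁻¹) ^ 2 := by fun_prop
    rw [← hPOL (fun w => (‖w - p‖ₑ⁻¹) ^ 2) p δ R hm hδ hR]
    have h1 : ∀ t θ : ℝ, (‖p + cexp (t + θ * I) - p‖ₑ⁻¹) ^ 2 *
        ENNReal.ofReal (Real.exp (2 * t)) = 1 := by
      intro t θ
      have h2 : ‖p + cexp (t + θ * I) - p‖ₑ = ENNReal.ofReal (Real.exp t) := by
        rw [← ofReal_norm, add_sub_cancel_left, Complex.norm_exp]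
        simp
      rw [h2, two_mul, Real.exp_add, ENNReal.ofReal_mul (Real.exp_pos _).le, ← sq, ← mul_pow,
        ENNReal.inv_mul_cancel, one_pow]
      · exact (ENNReal.ofReal_pos.2 (Real.exp_pos _)).ne'
      · exact ENNReal.ofReal_ne_top
    simp_rw [h1]
    rw [← PCS_aux.iter (fun _ => 1) measurable_const, lintegral_one, PCS_aux.vol_rect hδ hR]
  · intro k p δ R hk hδ hR
    have hF : Measurable fun z : ℝ × ℝ =>
        k (p + cexp (z.1 + z.2 * I)) * ENNReal.ofReal (Real.exp z.1) :=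
      (hk.comp (PCS_aux.measurable_polar p)).mul
        (ENNReal.measurable_ofReal.comp (Real.measurable_exp.comp measurable_fst))
    have h1 := PCS_aux.cs ((volume.restrict (Ioo (Real.log δ) (Real.log R))).prod
      (volume.restrict (Ioo (-π) π))) hF.aemeasurable
    rw [PCS_aux.iter _ hF, PCS_aux.iter _ (hF.pow_const 2), PCS_aux.vol_rect hδ hR] at h1
    refine h1.trans (le_of_eq ?_)
    rw [← hPOL (fun w => k w ^ 2) p δ R (hk.pow_const 2) hδ hR]
    have h2 : ∀ t θ : ℝ, (k (p + cexp (t + θ * I)) * ENNReal.ofReal (Real.exp t)) ^ 2 =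
        k (p + cexp (t + θ * I)) ^ 2 * ENNReal.ofReal (Real.exp (2 * t)) := by
      intro t θ
      rw [mul_pow, two_mul, Real.exp_add, ENNReal.ofReal_mul (Real.exp_pos _).le, ← sq]
    simp_rw [h2]

end Pool.Agent.RGR
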