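import Pool.Agent.RGR.St

/-!
# PKG: packing in the plane
-/

set_option autoImplicit false

namespace Pool.Agent.RGR

open MeasureTheory Metric Set Filter Topology Complex
open scoped ContDiff Real ENNReal
open Pool.Agent.LibHelper41 Pool.Agent.LibHelper41.Remov

theorem t_PKG : S_PKG := by
  intro ρ η hη
  obtain ⟨T, -, hT, hcov⟩ := (isCompact_closedBall (0 : ℂ) ρ).finite_cover_balls (half_pos hη)
  refine ⟨T.ncard, fun x t ht S hS hsep => ?_⟩
  have h1 : ∀ y ∈ S, ∃ p ∈ T, dist ((y - x) / (t : ℂ)) p < η / 2 := by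
    intro y hy
    have h2 : (y - x) / (t : ℂ) ∈ closedBall (0 : ℂ) ρ := by
      rw [mem_closedBall, dist_zero_right, norm_div, Complex.norm_real, Real.norm_of_nonneg ht.le,
        div_le_iff₀ ht, ← dist_eq_norm]
      exact mem_closedBall.1 (hS hy)
    obtain ⟨p, hp, hp2⟩ := mem_iUnion₂.1 (hcov h2)
    exact ⟨p, hp, mem_ball.1 hp2⟩
  choose! f hf hf2 using h1
  rw [hT.cast_ncard_eq]
  refine encard_le_encard_of_injOn (f := f) (fun y hy => hf y hy) ?_
  intro y hy z hz hyz
  by_contra hne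
  have h3 := hsep y hy z hz hne
  have h4 := hf2 y hy
  have h5 := hf2 z hz
  rw [← hyz] at h5
  have h6 : dist ((y - x) / (t : ℂ)) ((z - x) / (t : ℂ)) < η := by
    have h7 := dist_triangle_right ((y - x) / (t : ℂ)) ((z - x) / (t : ℂ)) (f y)
    linarith
  rw [dist_eq_norm, ← sub_div, norm_div, Complex.norm_real, Real.norm_of_nonneg ht.le,
    sub_sub_sub_cancel_right, div_lt_iff₀ ht, ← dist_eq_norm] at h6
  linarith

end Pool.Agent.RGR
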