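import Pool.Agent.RGR.St

/-!
# Rings and conformal removability, module RD: diameter of the image of the inner disc of a ring
-/

set_option autoImplicit false

namespace Pool.Agent.RGR

open MeasureTheory Metric Set Filter Topology Complex
open scoped ContDiff Real ENNReal
open Pool.Agent.LibHelper41 Pool.Agent.LibHelper41.Remov

namespace RD_aux

/-- the linear form `w ↦ Re (u w)` -/
noncomputable def lf (u : ℂ) : ℂ →L[ℝ] ℝ := Complex.reCLM.comp (ContinuousLinearMap.mul ℝ ℂ u)

theorem lf_apply (u w : ℂ) : lf u w = (u * w).re := by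
  unfold lf
  simp

theorem lf_norm (u : ℂ) (hu : ‖u‖ = 1) : ‖lf u‖ ≤ 1 := by
  refine ContinuousLinearMap.opNorm_le_bound _ zero_le_one fun w => ?_
  rw [lf_apply, one_mul, Real.norm_eq_abs]
  refine (Complex.abs_re_le_norm _).trans ?_
  rw [norm_mul, hu, one_mul]

theorem exists_unit (d : ℂ) (hd : d ≠ 0) : ∃ u : ℂ, ‖u‖ = 1 ∧ (u * d).re = ‖d‖ := by
  have hn : ‖d‖ ≠ 0 := norm_ne_zero_iff.2 hd
  refine ⟨(starRingEnd ℂ d) / (‖d‖ : ℂ), ?_, ?_⟩
  · rw [norm_div, Complex.norm_conj, Complex.norm_real, norm_norm, div_self hn]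
  · have h1 : (starRingEnd ℂ d) / (‖d‖ : ℂ) * d = ((‖d‖ : ℝ) : ℂ) := by
      have h2 : (starRingEnd ℂ d) * d = ((‖d‖ : ℝ) : ℂ) ^ 2 := by
        rw [mul_comm, Complex.mul_conj, Complex.normSq_eq_norm_sq]
        push_cast
        ring
      have h3 : ((‖d‖ : ℝ) : ℂ) ≠ 0 := by exact_mod_cast hn
      rw [div_mul_eq_mul_div, h2]
      field_simp
    rw [h1, Complex.ofReal_re]

end RD_aux

open RD_aux

theorem t_RD : S_RL → S_TOP → S_RD := by
  intro hRL hTOP G c r q hr hq hG x hx y hy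
  by_cases hxy : G x = G y
  · rw [hxy, edist_self]
    simp
  obtain ⟨u, hu, hud⟩ := exists_unit (G x - G y) (sub_ne_zero.2 hxy)
  have h1 := hRL G c r q univ (fun w => lf u w) (fun _ => 1)
    ((fun w => lf u w) '' (G '' closedBall c r)) hr hq hG isOpen_univ measurable_const
    (lf u).differentiable.differentiableOn (fun w _ => by
      have h2 : fderiv ℝ (fun w => lf u w) w = lf u := (lf u).fderiv
      rw [h2, ← ofReal_norm]
      exact ENNReal.ofReal_le_one.2 (lf_norm u hu)) (fun s hs => by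
      rintro _ ⟨_, ⟨z, hz, rfl⟩, rfl⟩
      obtain ⟨y', hy', he⟩ := hTOP.1 G c u s (hr.trans hs.1) hu z
        (closedBall_subset_closedBall hs.1.le hz)
      refine ⟨G y', ⟨mem_univ _, y', hy', rfl⟩, ?_⟩
      change lf u (G y') = lf u (G z)
      rw [lf_apply, lf_apply, he])
  have hconn : IsPreconnected ((fun w => lf u w) '' (G '' closedBall c r)) :=
    (((convex_closedBall c r).isPreconnected.image G G.continuous.continuousOn).image _
      (lf u).continuous.continuousOn)
  have hsub : Icc (lf u (G y)) (lf u (G x)) ⊆ (fun w => lf u w) '' (G '' closedBall c r) :=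
    hconn.Icc_subset ⟨G y, ⟨y, hy, rfl⟩, rfl⟩ ⟨G x, ⟨x, hx, rfl⟩, rfl⟩
  have hvol : edist (G x) (G y) ≤ volume ((fun w => lf u w) '' (G '' closedBall c r)) := by
    refine le_trans (le_of_eq ?_) (measure_mono hsub)
    rw [Real.volume_Icc, edist_dist, dist_eq_norm, ← hud, ← lf_apply, map_sub]
  have h3 : ∫⁻ _ in univ ∩ G '' Ann c r (q * r), (1 : ℝ≥0∞) ^ 2 =
      volume (G '' Ann c r (q * r)) := by
    rw [univ_inter, one_pow, setLIntegral_one]
  rw [← h3]
  refine le_trans ?_ h1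
  gcongr

end Pool.Agent.RGR
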