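import Pool.Agent.RGR.St

/-!
# Rings and conformal removability: the ring lemma   (helper63)
-/

set_option autoImplicit false

namespace Pool.Agent.RGR

open MeasureTheory Metric Set Filter Topology Complex
open scoped ContDiff Real ENNReal
open Pool.Agent.LibHelper41 Pool.Agent.LibHelper41.Remov

namespace RL_aux

theorem isOpen_Ann (c : ℂ) (a b : ℝ) : IsOpen (Ann c a b) := by
  have h1 : Continuous fun z : ℂ => ‖z - c‖ := by fun_prop
  exact (isOpen_lt continuous_const h1).inter (isOpen_lt h1 continuous_const)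

/-- the integrand -/
noncomputable def KK (G : ℂ → ℂ) (V : Set ℂ) (k : ℂ → ℝ≥0∞) : ℂ → ℝ≥0∞ :=
  (G ⁻¹' V).indicator fun z => k (G z) * ‖deriv G z‖ₑ

theorem measurable_KK {G : ℂ → ℂ} (hG : Continuous G) {V : Set ℂ} (hV : IsOpen V)
    {k : ℂ → ℝ≥0∞} (hk : Measurable k) : Measurable (KK G V k) := by
  refine Measurable.indicator ?_ (hV.preimage hG).measurableSet
  exact (hk.comp hG.measurable).mul (measurable_deriv G).enorm

theorem norm_cexp (t θ : ℝ) : ‖cexp (t + θ * I)‖ = Real.exp t := by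
  rw [Complex.norm_exp]
  simp

theorem circle_le {G : ℂ → ℂ} (hGc : Continuous G) {c : ℂ} {r R : ℝ} {V : Set ℂ} {φ : ℂ → ℝ}
    {k : ℂ → ℝ≥0∞} {T : Set ℝ} (hG : DifferentiableOn ℂ G (Ann c r R)) (hV : IsOpen V)
    (hφ : DifferentiableOn ℝ φ V) (hφk : ∀ w ∈ V, ‖fderiv ℝ φ w‖ₑ ≤ k w) {t : ℝ}
    (ht : Real.exp t ∈ Ioo r R) (hT : T ⊆ φ '' (V ∩ G '' sphere c (Real.exp t))) :
    volume T ≤ ∫⁻ θ in Ioo (-π) π,
      KK G V k (c + cexp (t + θ * I)) * ENNReal.ofReal (Real.exp t) := by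
  have hcont : Continuous fun θ : ℝ => G (c + cexp (t + θ * I)) := by fun_prop
  set S : Set ℝ := Ioc (-π) π ∩ (fun θ : ℝ => G (c + cexp (t + θ * I))) ⁻¹' V with hS
  have hSm : MeasurableSet S := measurableSet_Ioc.inter (hV.preimage hcont).measurableSet
  have hTS : T ⊆ (fun θ : ℝ => φ (G (c + cexp (t + θ * I)))) '' S := by
    intro y hy
    obtain ⟨w, ⟨hwV, z, hz, rfl⟩, rfl⟩ := hT hy
    have h1 : ‖z - c‖ = Real.exp t := by
      rw [mem_sphere_iff_norm] at hz
      exact hz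
    have h2 : c + cexp (t + (arg (z - c) : ℝ) * I) = z := by
      rw [Complex.exp_add, ← Complex.ofReal_exp, ← h1, Complex.norm_mul_exp_arg_mul_I]
      ring
    refine ⟨arg (z - c), ⟨⟨Complex.neg_pi_lt_arg _, Complex.arg_le_pi _⟩, ?_⟩, ?_⟩
    · show G (c + cexp (t + (arg (z - c) : ℝ) * I)) ∈ V
      rw [h2]
      exact hwV
    · show φ (G (c + cexp (t + (arg (z - c) : ℝ) * I))) = φ (G z)
      rw [h2]
  have hAnn : ∀ θ : ℝ, c + cexp (t + θ * I) ∈ Ann c r R := by
    intro θ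
    have h1 : ‖c + cexp (t + θ * I) - c‖ = Real.exp t := by
      rw [add_sub_cancel_left, norm_cexp]
    exact ⟨by rw [h1]; exact ht.1, by rw [h1]; exact ht.2⟩
  have h3 := vol_circ (G := G) (φ := φ) (c := c) (t := t) hSm
    (fun θ _ => hG.differentiableAt ((isOpen_Ann c r R).mem_nhds (hAnn θ)))
    (fun θ hθ => hφ.differentiableAt (hV.mem_nhds hθ.2))
  calc volume T ≤ volume ((fun θ : ℝ => φ (G (c + cexp (t + θ * I)))) '' S) := measure_mono hTS
    _ ≤ _ := h3
    _ ≤ ∫⁻ θ in S, KK G V k (c + cexp (t + θ * I)) * ENNReal.ofReal (Real.exp t) := by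
      refine setLIntegral_mono' hSm fun θ hθ => ?_
      have h4 : KK G V k (c + cexp (t + θ * I)) =
          k (G (c + cexp (t + θ * I))) * ‖deriv G (c + cexp (t + θ * I))‖ₑ :=
        indicator_of_mem (show c + cexp (t + θ * I) ∈ G ⁻¹' V from hθ.2) _
      rw [h4]
      exact mul_le_mul_left (mul_le_mul_left (hφk _ hθ.2) _) _
    _ ≤ ∫⁻ θ in Ioc (-π) π, KK G V k (c + cexp (t + θ * I)) * ENNReal.ofReal (Real.exp t) :=
      lintegral_mono_set inter_subset_left
    _ = _ := setLIntegral_congr Ioo_ae_eq_Ioc.symm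

end RL_aux

theorem t_RL : S_PCS → S_RL := by
  intro hP G c r q V φ k T hr hq hG hV hk hφ hφk hT
  have hqr : r < q * r := by nlinarith
  have hq0 : 0 < q := by linarith
  have h1 : ∀ t ∈ Ioo (Real.log r) (Real.log (q * r)), volume T ≤ ∫⁻ θ in Ioo (-π) π,
      RL_aux.KK G V k (c + cexp (t + θ * I)) * ENNReal.ofReal (Real.exp t) := by
    intro t ht
    have ht' : Real.exp t ∈ Ioo r (q * r) :=
      ⟨(Real.log_lt_iff_lt_exp hr).1 ht.1, (Real.lt_log_iff_exp_lt (by positivity)).1 ht.2⟩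
    exact RL_aux.circle_le G.continuous hG hV hφ hφk ht' (hT _ ht')
  have h2 : volume T * ENNReal.ofReal (Real.log q) ≤
      ∫⁻ t in Ioo (Real.log r) (Real.log (q * r)), ∫⁻ θ in Ioo (-π) π,
        RL_aux.KK G V k (c + cexp (t + θ * I)) * ENNReal.ofReal (Real.exp t) := by
    have h3 : ∫⁻ _t in Ioo (Real.log r) (Real.log (q * r)), volume T =
        volume T * ENNReal.ofReal (Real.log q) := by
      rw [setLIntegral_const, Real.volume_Ioo, Real.log_mul hq0.ne' hr.ne', add_sub_cancel_right]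
    rw [← h3]
    exact setLIntegral_mono' measurableSet_Ioo h1
  have h4 := hP.2 (RL_aux.KK G V k) c r (q * r) (RL_aux.measurable_KK G.continuous hV hk) hr hqr
  have h5 : ∫⁻ w in Ann c r (q * r), RL_aux.KK G V k w ^ 2 =
      ∫⁻ w in V ∩ G '' Ann c r (q * r), k w ^ 2 := by
    have hm : MeasurableSet (G ⁻¹' V) := (hV.preimage G.continuous).measurableSet
    have h6 : (fun w => RL_aux.KK G V k w ^ 2) =
        (G ⁻¹' V).indicator fun z => k (G z) ^ 2 * ‖deriv G z‖ₑ ^ 2 := by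
      funext w
      unfold RL_aux.KK
      by_cases hw : w ∈ G ⁻¹' V
      · rw [indicator_of_mem hw, indicator_of_mem hw, mul_pow]
      · rw [indicator_of_notMem hw, indicator_of_notMem hw, zero_pow two_ne_zero]
    rw [h6, setLIntegral_indicator hm]
    have h7 := lintegral_cv (RL_aux.isOpen_Ann c r (q * r)) hG (S := G ⁻¹' V ∩ Ann c r (q * r))
      G.injective.injOn (hm.inter (RL_aux.isOpen_Ann c r (q * r)).measurableSet)
      inter_subset_right (fun w => k w ^ 2)
    rw [← h7]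
    congr 2
    rw [inter_comm (G ⁻¹' V), image_inter_preimage, inter_comm]
  have h8 : q * r / r = q := by field_simp
  rw [h5, h8] at h4
  have h9 : (volume T * ENNReal.ofReal (Real.log q)) ^ 2 ≤
      ENNReal.ofReal (2 * π * Real.log q) * ∫⁻ w in V ∩ G '' Ann c r (q * r), k w ^ 2 :=
    (pow_le_pow_left' h2 2).trans h4
  have hlog : 0 < Real.log q := Real.log_pos hq
  rw [ENNReal.ofReal_mul (by positivity)] at h9
  have h10 : (volume T ^ 2 * ENNReal.ofReal (Real.log q)) * ENNReal.ofReal (Real.log q) ≤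
      (ENNReal.ofReal (2 * π) * ∫⁻ w in V ∩ G '' Ann c r (q * r), k w ^ 2) *
        ENNReal.ofReal (Real.log q) := by
    calc _ = (volume T * ENNReal.ofReal (Real.log q)) ^ 2 := by ring
      _ ≤ _ := h9
      _ = _ := by ring
  exact (ENNReal.mul_le_mul_iff_left (ENNReal.ofReal_pos.2 hlog).ne' ENNReal.ofReal_ne_top).1 h10

end Pool.Agent.RGR
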