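import Pool.Agent.RGR.St

/-!
# Module RT: logarithmic size of the image of the inner disc
-/

set_option autoImplicit false

namespace Pool.Agent.RGR

open MeasureTheory Metric Set Filter Topology Complex
open scoped ContDiff Real ENNReal
open Pool.Agent.LibHelper41 Pool.Agent.LibHelper41.Remov

namespace RT_aux

theorem isOpen_Ann (c : ℂ) (a b : ℝ) : IsOpen (Ann c a b) := by
  have h : Continuous fun z : ℂ => ‖z - c‖ := by fun_prop
  exact (isOpen_lt continuous_const h).inter (isOpen_lt h continuous_const)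

theorem diff_norm {w p : ℂ} (h : w ≠ p) : DifferentiableAt ℝ (fun z : ℂ => ‖z - p‖) w :=
  DifferentiableAt.norm ℝ (by fun_prop) (sub_ne_zero.2 h)

theorem fderiv_bound {w p : ℂ} (h : w ≠ p) :
    ‖fderiv ℝ (fun z : ℂ => Real.log ‖z - p‖) w‖ₑ ≤ ‖w - p‖ₑ⁻¹ := by
  have hpos : 0 < ‖w - p‖ := norm_pos_iff.2 (sub_ne_zero.2 h)
  have h1 : fderiv ℝ (fun z : ℂ => Real.log ‖z - p‖) w =
      (‖w - p‖)⁻¹ • fderiv ℝ (fun z : ℂ => ‖z - p‖) w := fderiv.log (diff_norm h) hpos.ne'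
  have h2 : ‖fderiv ℝ (fun z : ℂ => ‖z - p‖) w‖ ≤ ((1 : NNReal) : ℝ) := by
    refine norm_fderiv_le_of_lipschitz ℝ ?_
    refine LipschitzWith.of_dist_le_mul fun x y => ?_
    rw [NNReal.coe_one, one_mul, Real.dist_eq, dist_eq_norm]
    have := abs_norm_sub_norm_le (x - p) (y - p)
    rwa [sub_sub_sub_cancel_right] at this
  have h3 : ‖fderiv ℝ (fun z : ℂ => Real.log ‖z - p‖) w‖ ≤ ‖w - p‖⁻¹ := by
    rw [h1, norm_smul, norm_inv, norm_norm]
    calc ‖w - p‖⁻¹ * ‖fderiv ℝ (fun z : ℂ => ‖z - p‖) w‖ ≤ ‖w - p‖⁻¹ * 1 :=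
          mul_le_mul_of_nonneg_left h2 (by positivity)
      _ = ‖w - p‖⁻¹ := mul_one _
  rw [← ofReal_norm_eq_enorm, ← ofReal_norm_eq_enorm, ← ENNReal.ofReal_inv_of_pos hpos]
  exact ENNReal.ofReal_le_ofReal h3

end RT_aux

open RT_aux in
theorem t_RT : S_RL → S_TOP → S_RT := by
  intro hRL hTOP G c p r q δ R hr hq hδ hδR hG hp
  refine hRL G c r q (Ann p δ R) (fun w => Real.log ‖w - p‖) (fun w => ‖w - p‖ₑ⁻¹)
    (TT (G '' closedBall c r) p δ R) hr hq hG (isOpen_Ann _ _ _) (by fun_prop) ?_ ?_ ?_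
  · intro w hw
    have hw0 : w ≠ p := by
      rintro rfl
      have := hw.1
      rw [sub_self, norm_zero] at this
      linarith
    have hpos : 0 < ‖w - p‖ := norm_pos_iff.2 (sub_ne_zero.2 hw0)
    exact (DifferentiableAt.log (diff_norm hw0) hpos.ne').differentiableWithinAt
  · intro w hw
    have hw0 : w ≠ p := by
      rintro rfl
      have := hw.1
      rw [sub_self, norm_zero] at this
      linarith
    exact fderiv_bound hw0
  · rintro s ⟨hs1, hs2⟩ t ⟨⟨ht1, ht2⟩, w, ⟨x, hx, rfl⟩, hw⟩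
    have hps : p ∉ G '' ball c s := by
      intro h
      exact hp (Set.image_mono (ball_subset_ball hs2.le) h)
    obtain ⟨y, hy, hyx⟩ := hTOP.2 G c p s (hr.trans hs1) hps x
      (closedBall_subset_closedBall hs1.le hx)
    refine ⟨G y, ⟨⟨?_, ?_⟩, y, hy, rfl⟩, ?_⟩
    · rw [hyx, hw]
      exact (Real.log_lt_iff_lt_exp hδ).1 ht1
    · rw [hyx, hw]
      exact (Real.lt_log_iff_exp_lt (hδ.trans hδR)).1 ht2
    · change Real.log ‖G y - p‖ = t
      rw [hyx, hw, Real.log_exp]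

end Pool.Agent.RGR
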