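import Pool.Agent.RGR.St

/-!
# Module SEL: selection of the rings
-/

set_option autoImplicit false

namespace Pool.Agent.RGR

open MeasureTheory Metric Set Filter Topology Complex
open scoped ContDiff Real ENNReal
open Pool.Agent.LibHelper41 Pool.Agent.LibHelper41.Remov

namespace SEL_aux

/-- A maximal separated subset. -/
theorem pick_exists (η : ℝ) (hη : 0 < η) (T : Set (ℂ × ℝ)) :
    ∃ S ⊆ T, (∀ x ∈ S, ∀ y ∈ S, x ≠ y → η ≤ dist x.1 y.1) ∧
      ∀ x ∈ T, ∃ y ∈ S, dist x.1 y.1 < η := by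
  obtain ⟨m, hm⟩ := zorn_subset
    {S : Set (ℂ × ℝ) | S ⊆ T ∧ ∀ x ∈ S, ∀ y ∈ S, x ≠ y → η ≤ dist x.1 y.1} (by
      intro c hc hchain
      refine ⟨⋃₀ c, ⟨sUnion_subset fun s hs => (hc hs).1, ?_⟩, fun s hs => subset_sUnion_of_mem hs⟩
      rintro x ⟨s, hs, hxs⟩ y ⟨t, ht, hyt⟩ hxy
      rcases hchain.total hs ht with h | h
      · exact (hc ht).2 x (h hxs) y hyt hxy
      · exact (hc hs).2 x hxs y (h hyt) hxy)
  refine ⟨m, hm.prop.1, hm.prop.2, ?_⟩
  intro x hx
  by_contra hcon
  push Not at hcon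
  have hx' : x ∉ m := fun h => by
    have h2 := hcon x h
    rw [dist_self] at h2
    linarith
  have hins : insert x m ∈
      {S : Set (ℂ × ℝ) | S ⊆ T ∧ ∀ x ∈ S, ∀ y ∈ S, x ≠ y → η ≤ dist x.1 y.1} := by
    refine ⟨insert_subset hx hm.prop.1, ?_⟩
    rintro a (rfl | ha) b (rfl | hb) hab
    · exact absurd rfl hab
    · exact hcon b hb
    · rw [dist_comm]
      exact hcon a ha
    · exact hm.prop.2 a ha b hb hab
  exact hx' (hm.le_of_ge hins (subset_insert x m) (mem_insert x m))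

/-- The recursive selection. -/
theorem rec_exists (T : ℕ → Set ℂ → Set (ℂ × ℝ)) (η : ℕ → ℝ) (hη : ∀ i, 0 < η i) :
    ∃ (P : ℕ → Set (ℂ × ℝ)) (V : ℕ → Set ℂ), V 0 = ∅ ∧
      (∀ i, V (i + 1) = V i ∪ ⋃ x ∈ P i, ball x.1 x.2) ∧
      ∀ i, P i ⊆ T i (V i) ∧ (∀ x ∈ P i, ∀ y ∈ P i, x ≠ y → η i ≤ dist x.1 y.1) ∧
        ∀ x ∈ T i (V i), ∃ y ∈ P i, dist x.1 y.1 < η i := by
  choose pick hp using fun (i : ℕ) (U : Set ℂ) => pick_exists (η i) (hη i) (T i U)
  let V : ℕ → Set ℂ := fun i => Nat.rec ∅ (fun i U => U ∪ ⋃ x ∈ pick i U, ball x.1 x.2) i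
  exact ⟨fun i => pick i (V i), V, rfl, fun i => rfl, fun i => hp i (V i)⟩

/-- Cardinality of a finite union. -/
theorem encard_union {α : Type} (S : ℕ → Set α) (n : ℕ) (h : ∀ a, (S a).encard ≤ n) (m : ℕ) :
    (⋃ a ∈ Finset.range m, S a).encard ≤ (m * n : ℕ) := by
  induction m with
  | zero => simp
  | succ m ih =>
    rw [Finset.range_add_one, Finset.set_biUnion_insert]
    calc (S m ∪ ⋃ a ∈ Finset.range m, S a).encard
        ≤ (S m).encard + (⋃ a ∈ Finset.range m, S a).encard := encard_union_le _ _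
      _ ≤ (n : ℕ∞) + ((m * n : ℕ) : ℕ∞) := add_le_add (h m) ih
      _ = (((m + 1) * n : ℕ) : ℕ∞) := by
          rw [← Nat.cast_add]
          congr 1
          ring

end SEL_aux

open SEL_aux in
theorem t_SEL : S_PKG → S_SEL := by
  intro hP Q hQ
  have hl1 : 1 < √Q := by
    rw [show (1 : ℝ) = √1 by simp]
    exact Real.sqrt_lt_sqrt (by norm_num) hQ
  have hll : √Q * √Q = Q := Real.mul_self_sqrt (by linarith)
  generalize √Q = l at hl1 hll
  have hl0 : 0 < l := by linarith
  have hQl : 0 < Q - l := by nlinarith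
  obtain ⟨k₀, hk₀⟩ := pow_unbounded_of_one_lt ((1 + l) / (Q - l)) hl1
  rw [div_lt_iff₀ hQl] at hk₀
  obtain ⟨n, hn⟩ := hP (l * (l ^ k₀ + 1)) (l - 1) (by linarith)
  refine ⟨(2 * k₀ + 1) * n, ?_⟩
  intro E R_E hE hRE hER ε hε hε1
  have hee : ∀ i : ℕ, 0 < ε / l ^ i := fun i => by positivity
  obtain ⟨P, V, hV0, hVs, hPV⟩ := rec_exists
    (fun i U => {x | ε / l ^ (i + 1) < x.2 ∧ x.2 ≤ ε / l ^ i ∧
      Disjoint (closedBall x.1 (Q * x.2) \ ball x.1 x.2) E ∧ ¬ E ∩ ball x.1 x.2 ⊆ U})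
    (fun i => (l - 1) * (ε / l ^ i)) (fun i => mul_pos (by linarith) (hee i))
  -- facts on the selected elements
  have hlow : ∀ i, ∀ x ∈ P i, ε / l ^ (i + 1) < x.2 := fun i x hx => ((hPV i).1 hx).1
  have hpos : ∀ i, ∀ x ∈ P i, 0 < x.2 := fun i x hx => (hee (i + 1)).trans (hlow i x hx)
  have hup : ∀ i, ∀ x ∈ P i, x.2 ≤ ε / l ^ i := fun i x hx => ((hPV i).1 hx).2.1
  have hdis : ∀ i, ∀ x ∈ P i, Disjoint (closedBall x.1 (Q * x.2) \ ball x.1 x.2) E :=
    fun i x hx => ((hPV i).1 hx).2.2.1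
  have hnot : ∀ i, ∀ x ∈ P i, ∃ e ∈ E, e ∈ ball x.1 x.2 ∧ e ∉ V i := by
    intro i x hx
    have h := ((hPV i).1 hx).2.2.2
    rw [not_subset] at h
    obtain ⟨e, ⟨he, heb⟩, heV⟩ := h
    exact ⟨e, he, heb, heV⟩
  have hle1 : ∀ i : ℕ, ε / l ^ i ≤ ε := fun i =>
    div_le_self hε.le (one_le_pow₀ hl1.le)
  have hr : ∀ i, ∀ x ∈ P i, x.2 ≤ ε := fun i x hx => (hup i x hx).trans (hle1 i)
  have hVmono : Monotone V := monotone_nat_of_le_succ fun i => by
    rw [hVs i]
    exact subset_union_left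
  have hVball : ∀ i, ∀ x ∈ P i, ball x.1 x.2 ⊆ V (i + 1) := by
    intro i x hx
    rw [hVs i]
    exact (subset_biUnion_of_mem (u := fun x : ℂ × ℝ => ball x.1 x.2) hx).trans
      subset_union_right
  have hVmem : ∀ i, ∀ z ∈ V i, ∃ i', ∃ x ∈ P i', z ∈ ball x.1 x.2 := by
    intro i
    induction i with
    | zero =>
      intro z hz
      rw [hV0] at hz
      exact absurd hz (notMem_empty z)
    | succ i ih =>
      intro z hz
      rw [hVs i] at hz
      rcases hz with hz | hz
      · exact ih z hz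
      · rw [mem_iUnion₂] at hz
        obtain ⟨x, hx, hzx⟩ := hz
        exact ⟨i, x, hx, hzx⟩
  -- the difference of the levels of neighbours
  have hlev : ∀ i, ∀ x ∈ P i, ∀ i', ∀ y ∈ P i', i' < i →
      ¬ Disjoint (closedBall x.1 (l * x.2)) (closedBall y.1 (l * y.2)) → i ≤ i' + k₀ := by
    intro i x hx i' y hy hii hnd
    by_contra hcon
    push Not at hcon
    obtain ⟨e, heE, heb, heV⟩ := hnot i x hx
    have h1 : e ∉ ball y.1 y.2 := fun h => heV (hVmono hii (hVball i' y hy h))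
    have h2 : e ∉ closedBall y.1 (Q * y.2) := fun h =>
      disjoint_left.1 (hdis i' y hy) ⟨h, h1⟩ heE
    rw [mem_closedBall, not_le] at h2
    rw [mem_ball] at heb
    rw [not_disjoint_iff] at hnd
    obtain ⟨w, hw1, hw2⟩ := hnd
    rw [mem_closedBall] at hw1 hw2
    have h3 : dist e y.1 ≤ dist e x.1 + (dist w x.1 + dist w y.1) := by
      have := dist_triangle e x.1 y.1
      have := dist_triangle x.1 w y.1
      rw [dist_comm x.1 w] at this
      linarith
    have h4 : (Q - l) * y.2 < (1 + l) * x.2 := by nlinarith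
    have h5 : (Q - l) * (ε / l ^ (i' + 1)) < (1 + l) * (ε / l ^ i) := by
      have ha := mul_lt_mul_of_pos_left (hlow i' y hy) hQl
      have hb := mul_le_mul_of_nonneg_left (hup i x hx) (show 0 ≤ 1 + l by linarith)
      linarith
    obtain ⟨d, rfl⟩ : ∃ d, i = i' + 1 + (k₀ + d) := ⟨i - (i' + 1 + k₀), by omega⟩
    have h6 : ε / l ^ (i' + 1) = l ^ (k₀ + d) * (ε / l ^ (i' + 1 + (k₀ + d))) := by
      rw [pow_add l (i' + 1) (k₀ + d)]
      field_simp
    rw [h6] at h5
    have h7 : l ^ k₀ ≤ l ^ (k₀ + d) := pow_le_pow_right₀ hl1.le (by omega)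
    have h8 : 1 + l < (Q - l) * l ^ (k₀ + d) := by nlinarith
    have h9 := mul_lt_mul_of_pos_right h8 (hee (i' + 1 + (k₀ + d)))
    nlinarith
  refine ⟨{p : ℕ × (ℂ × ℝ) // p.2 ∈ P p.1}, fun j => j.1.2.1, fun j => j.1.2.2, ?_, ?_, ?_, ?_⟩
  · refine ⟨hl1, by linarith, hE, ?_, ?_, ?_, ?_, ?_⟩
    · exact hER.trans (ball_subset_ball (by linarith))
    · exact fun j => hpos _ _ j.2
    · rintro ⟨⟨i, x⟩, hx⟩
      change closedBall x.1 (l * x.2) ⊆ ball 0 (R_E + 1 + Q)
      intro z hz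
      obtain ⟨e, heE, heb, -⟩ := hnot i x hx
      have h1 := hER heE
      rw [mem_ball] at h1 heb
      rw [mem_closedBall] at hz
      rw [mem_ball]
      have h2 : dist z 0 ≤ dist z x.1 + (dist e x.1 + dist e 0) := by
        have h3 := dist_triangle z x.1 0
        have h4 := dist_triangle x.1 e 0
        rw [dist_comm x.1 e] at h4
        linarith
      have h5 : x.2 ≤ 1 := (hr i x hx).trans hε1
      have h6 : l * x.2 ≤ l * 1 := mul_le_mul_of_nonneg_left h5 hl0.le
      linarith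
    · rintro ⟨⟨i, x⟩, hx⟩
      let S : ℕ → Set {p : ℕ × (ℂ × ℝ) // p.2 ∈ P p.1} := fun a =>
        {k | k.1.1 + k₀ = i + a ∧ a < 2 * k₀ + 1 ∧
          ¬ Disjoint (closedBall x.1 (l * x.2)) (closedBall k.1.2.1 (l * k.1.2.2))}
      have hsub : {k : {p : ℕ × (ℂ × ℝ) // p.2 ∈ P p.1} |
          ¬ Disjoint (closedBall x.1 (l * x.2)) (closedBall k.1.2.1 (l * k.1.2.2))} ⊆
          ⋃ a ∈ Finset.range (2 * k₀ + 1), S a := by
        rintro ⟨⟨i', y⟩, hy⟩ hk
        change ¬ Disjoint (closedBall x.1 (l * x.2)) (closedBall y.1 (l * y.2)) at hk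
        have h1 : i ≤ i' + k₀ := by
          rcases lt_or_ge i' i with h | h
          · exact hlev i x hx i' y hy h hk
          · omega
        have h2 : i' ≤ i + k₀ := by
          rcases lt_or_ge i i' with h | h
          · exact hlev i' y hy i x hx h (fun hd => hk hd.symm)
          · omega
        rw [mem_iUnion₂]
        refine ⟨i' + k₀ - i, ?_, ?_, ?_, ?_⟩
        · rw [Finset.mem_range]
          omega
        · change i' + k₀ = i + (i' + k₀ - i)
          omega
        · omega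
        · exact hk
      have hS : ∀ a, (S a).encard ≤ n := by
        intro a
        have hinj : InjOn (fun k : {p : ℕ × (ℂ × ℝ) // p.2 ∈ P p.1} => k.1.2.1) (S a) := by
          rintro ⟨⟨i', y⟩, hy⟩ ⟨hk1, -, -⟩ ⟨⟨i'', y'⟩, hy'⟩ ⟨hk1', -, -⟩ heq
          change i' + k₀ = i + a at hk1
          change i'' + k₀ = i + a at hk1'
          change y.1 = y'.1 at heq
          obtain rfl : i' = i'' := by omega
          have hyy : y = y' := by
            by_contra hne
            have h1 := (hPV i').2.1 y hy y' hy' hne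
            rw [heq, dist_self] at h1
            have h2 := mul_pos (show 0 < l - 1 by linarith) (hee i')
            linarith
          subst hyy
          rfl
        rw [← hinj.encard_image]
        by_cases hem : (S a).Nonempty
        · obtain ⟨k, hk1, hk2, -⟩ := hem
          obtain ⟨⟨i', y⟩, hy⟩ := k
          change i' + k₀ = i + a at hk1
          refine hn x.1 (ε / l ^ i') (hee i') _ ?_ ?_
          · rintro _ ⟨⟨⟨i'', z⟩, hz⟩, ⟨hz1, -, hz2⟩, rfl⟩
            change i'' + k₀ = i + a at hz1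
            change ¬ Disjoint (closedBall x.1 (l * x.2)) (closedBall z.1 (l * z.2)) at hz2
            change z.1 ∈ closedBall x.1 (l * (l ^ k₀ + 1) * (ε / l ^ i'))
            change z ∈ P i'' at hz
            obtain rfl : i'' = i' := by omega
            rw [not_disjoint_iff] at hz2
            obtain ⟨w, hw1, hw2⟩ := hz2
            rw [mem_closedBall] at hw1 hw2 ⊢
            have h1 : dist z.1 x.1 ≤ dist w z.1 + dist w x.1 := by
              have := dist_triangle z.1 w x.1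
              rw [dist_comm z.1 w] at this
              linarith
            have h2 : x.2 ≤ l ^ k₀ * (ε / l ^ i'') := by
              refine (hup i x hx).trans ?_
              rw [← mul_div_assoc, div_le_div_iff₀ (by positivity) (by positivity)]
              have h3 : l ^ i'' ≤ l ^ (k₀ + i) := pow_le_pow_right₀ hl1.le (by omega)
              rw [pow_add] at h3
              nlinarith
            have h4 := hup i'' z hz
            have h5 : l * x.2 ≤ l * (l ^ k₀ * (ε / l ^ i'')) :=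
              mul_le_mul_of_nonneg_left h2 hl0.le
            have h6 : l * z.2 ≤ l * (ε / l ^ i'') := mul_le_mul_of_nonneg_left h4 hl0.le
            calc dist z.1 x.1 ≤ l * z.2 + l * x.2 := by linarith
              _ ≤ l * (ε / l ^ i'') + l * (l ^ k₀ * (ε / l ^ i'')) := by linarith
              _ = l * (l ^ k₀ + 1) * (ε / l ^ i'') := by ring
          · rintro _ ⟨⟨⟨i₁, z⟩, hz⟩, ⟨hz1, -, -⟩, rfl⟩ _ ⟨⟨⟨i₂, z'⟩, hz'⟩, ⟨hz1', -, -⟩, rfl⟩ hne
            change i₁ + k₀ = i + a at hz1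
            change i₂ + k₀ = i + a at hz1'
            change z.1 ≠ z'.1 at hne
            change z ∈ P i₁ at hz
            change z' ∈ P i₂ at hz'
            change (l - 1) * (ε / l ^ i') ≤ dist z.1 z'.1
            obtain rfl : i₁ = i' := by omega
            obtain rfl : i₂ = i₁ := by omega
            exact (hPV i₂).2.1 z hz z' hz' (fun h => hne (by rw [h]))
        · rw [not_nonempty_iff_eq_empty] at hem
          rw [hem]
          simp
      exact (encard_le_encard hsub).trans (encard_union S n hS (2 * k₀ + 1))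
    · rintro ⟨⟨i, x⟩, hx⟩
      change Disjoint (closedBall x.1 (l * x.2) \ ball x.1 x.2) E
      refine (hdis i x hx).mono_left ?_
      refine sdiff_subset_sdiff_left (closedBall_subset_closedBall ?_)
      exact mul_le_mul_of_nonneg_right (by linarith) (hpos i x hx).le
  · exact fun j => hr _ _ j.2
  · rintro ⟨⟨i, x⟩, hx⟩
    obtain ⟨e, heE, heb, -⟩ := hnot i x hx
    exact ⟨e, heE, heb⟩
  · rintro z ⟨hzE, c, r, hr0, hrε, hdj, hzb⟩
    obtain ⟨i, hi1, hi2⟩ := exists_nat_pow_near (show 1 ≤ ε / r by rw [one_le_div hr0]; exact hrε) hl1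
    have hri : r ≤ ε / l ^ i := by
      rw [le_div_iff₀ hr0] at hi1
      rw [le_div_iff₀ (by positivity)]
      linarith
    have hri' : ε / l ^ (i + 1) < r := by
      rw [div_lt_iff₀ hr0] at hi2
      rw [div_lt_iff₀ (by positivity)]
      linarith
    have key : ∃ i', ∃ x ∈ P i', z ∈ ball x.1 x.2 := by
      by_cases hzV : z ∈ V i
      · exact hVmem i z hzV
      · obtain ⟨y, hy, hyd⟩ := (hPV i).2.2 (c, r)
          ⟨hri', hri, hdj, fun h => hzV (h ⟨hzE, hzb⟩)⟩
        refine ⟨i, y, hy, ?_⟩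
        by_contra hzy
        refine disjoint_left.1 (hdis i y hy) ⟨?_, hzy⟩ hzE
        rw [mem_closedBall]
        rw [mem_ball] at hzb
        change dist c y.1 < (l - 1) * (ε / l ^ i) at hyd
        have h1 := dist_triangle z c y.1
        have h2 := mul_lt_mul_of_pos_left (hlow i y hy) (show 0 < Q by linarith)
        have h3 : Q * (ε / l ^ (i + 1)) = l * (ε / l ^ i) := by
          rw [← hll, pow_succ]
          field_simp
        linarith
    obtain ⟨i', x, hx, hzx⟩ := key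
    rw [mem_iUnion]
    exact ⟨⟨(i', x), hx⟩, hzx⟩

end Pool.Agent.RGR
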