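import Pool.Agent.RGR.St

/-!
# Module TOP: the image of a circle surrounds the image of the disc
-/

set_option autoImplicit false

namespace Pool.Agent.RGR

open MeasureTheory Metric Set Filter Topology Complex
open scoped ContDiff Real ENNReal
open Pool.Agent.LibHelper41 Pool.Agent.LibHelper41.Remov

namespace TOP_aux

/-- A function without local extrema on the image of the disc takes its values on the sphere. -/
lemma gen (G : ℂ ≃ₜ ℂ) (c : ℂ) (s : ℝ) (hs : 0 < s) (h : ℂ → ℝ) (hh : Continuous h)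
    (hE : ∀ x₀ ∈ ball c s, (∃ y ∈ ball c s, h (G x₀) < h (G y)) ∧
      ∃ y ∈ ball c s, h (G y) < h (G x₀)) :
    ∀ x ∈ closedBall c s, ∃ y ∈ sphere c s, h (G y) = h (G x) := by
  intro x hx
  have hcomp : IsCompact (closedBall c s) := isCompact_closedBall c s
  have hcont : ContinuousOn (fun z => h (G z)) (closedBall c s) :=
    (hh.comp G.continuous).continuousOn
  have hne : (closedBall c s).Nonempty := ⟨c, mem_closedBall_self hs.le⟩
  obtain ⟨a, ha, hamax⟩ := hcomp.exists_isMaxOn hne hcont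
  obtain ⟨b, hb, hbmin⟩ := hcomp.exists_isMinOn hne hcont
  have hsph : ∀ z ∈ closedBall c s, z ∉ ball c s → z ∈ sphere c s := by
    intro z hz hz'
    rw [mem_closedBall] at hz
    rw [mem_ball, not_lt] at hz'
    exact le_antisymm hz hz'
  have ha' : a ∈ sphere c s := by
    refine hsph a ha fun hab => ?_
    obtain ⟨⟨y, hy, hlt⟩, -⟩ := hE a hab
    exact absurd (hamax (ball_subset_closedBall hy)) (not_le.2 hlt)
  have hb' : b ∈ sphere c s := by
    refine hsph b hb fun hbb => ?_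
    obtain ⟨-, y, hy, hlt⟩ := hE b hbb
    exact absurd (hbmin (ball_subset_closedBall hy)) (not_le.2 hlt)
  have hrank : 1 < Module.rank ℝ ℂ := by
    rw [Complex.rank_real_complex]
    exact_mod_cast Nat.one_lt_two
  have hpre : IsPreconnected (sphere c s) := isPreconnected_sphere hrank c s
  have hiv := hpre.intermediate_value hb' ha' (hcont.mono sphere_subset_closedBall)
  obtain ⟨y, hy, hye⟩ := hiv ⟨hbmin hx, hamax hx⟩
  exact ⟨y, hy, hye⟩

/-- A small ball in the image. -/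
lemma small (G : ℂ ≃ₜ ℂ) (c : ℂ) (s : ℝ) (x₀ : ℂ) (hx₀ : x₀ ∈ ball c s) :
    ∃ η : ℝ, 0 < η ∧ ∀ v : ℂ, ‖v‖ < η → ∃ y ∈ ball c s, G y = G x₀ + v := by
  have hO : IsOpen (G '' ball c s) := G.isOpenMap _ isOpen_ball
  obtain ⟨η, hη, hsub⟩ := Metric.isOpen_iff.1 hO (G x₀) ⟨x₀, hx₀, rfl⟩
  refine ⟨η, hη, fun v hv => ?_⟩
  have h1 : G x₀ + v ∈ ball (G x₀) η := by
    rw [mem_ball, dist_eq_norm, add_sub_cancel_left]
    exact hv
  obtain ⟨y, hy, hye⟩ := hsub h1
  exact ⟨y, hy, hye⟩

end TOP_aux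

open TOP_aux in
theorem t_TOP : S_TOP := by
  constructor
  · intro G c u s hs hu
    refine gen G c s hs (fun w => (u * w).re) (by fun_prop) ?_
    intro x₀ hx₀
    obtain ⟨η, hη, hsm⟩ := small G c s x₀ hx₀
    have huu : u * (starRingEnd ℂ) u = 1 := by
      rw [Complex.mul_conj, Complex.normSq_eq_norm_sq, hu]
      norm_num
    have hre : ∀ t : ℝ, (u * (G x₀ + (t : ℂ) * (starRingEnd ℂ) u)).re = (u * G x₀).re + t := by
      intro t
      have h1 : u * (G x₀ + (t : ℂ) * (starRingEnd ℂ) u) = u * G x₀ + (t : ℂ) := by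
        linear_combination (t : ℂ) * huu
      rw [h1, Complex.add_re, Complex.ofReal_re]
    have hn : ∀ t : ℝ, ‖(t : ℂ) * (starRingEnd ℂ) u‖ = |t| := by
      intro t
      rw [norm_mul, Complex.norm_real, Real.norm_eq_abs, RCLike.norm_conj, hu, mul_one]
    constructor
    · obtain ⟨y, hy, hye⟩ := hsm (((η / 2 : ℝ) : ℂ) * (starRingEnd ℂ) u) (by
        rw [hn, abs_of_pos (by positivity)]
        linarith)
      refine ⟨y, hy, ?_⟩
      rw [hye, hre]
      linarith
    · obtain ⟨y, hy, hye⟩ := hsm (((-(η / 2) : ℝ) : ℂ) * (starRingEnd ℂ) u) (by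
        rw [hn, abs_neg, abs_of_pos (by positivity)]
        linarith)
      refine ⟨y, hy, ?_⟩
      rw [hye, hre]
      linarith
  · intro G c p s hs hp
    refine gen G c s hs (fun w => ‖w - p‖) (by fun_prop) ?_
    intro x₀ hx₀
    obtain ⟨η, hη, hsm⟩ := small G c s x₀ hx₀
    have hne : G x₀ - p ≠ 0 := by
      intro h
      exact hp ⟨x₀, hx₀, sub_eq_zero.1 h⟩
    set N : ℝ := ‖G x₀ - p‖ with hN
    have hN0 : 0 < N := norm_pos_iff.2 hne
    have hnn : ∀ t : ℝ, ‖G x₀ + (t : ℂ) * (G x₀ - p) - p‖ = |1 + t| * N := by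
      intro t
      have h1 : G x₀ + (t : ℂ) * (G x₀ - p) - p = ((1 + t : ℝ) : ℂ) * (G x₀ - p) := by
        push_cast
        ring
      rw [h1, norm_mul, Complex.norm_real, Real.norm_eq_abs]
    have hv : ∀ t : ℝ, ‖(t : ℂ) * (G x₀ - p)‖ = |t| * N := by
      intro t
      rw [norm_mul, Complex.norm_real, Real.norm_eq_abs]
    obtain ⟨t, ht0, ht1, htη⟩ : ∃ t : ℝ, 0 < t ∧ t ≤ 1 ∧ t * N < η := by
      refine ⟨min 1 (η / (2 * N)), lt_min one_pos (by positivity), min_le_left _ _, ?_⟩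
      calc min 1 (η / (2 * N)) * N ≤ η / (2 * N) * N :=
            mul_le_mul_of_nonneg_right (min_le_right _ _) hN0.le
        _ = η / 2 := by field_simp
        _ < η := by linarith
    constructor
    · obtain ⟨y, hy, hye⟩ := hsm ((t : ℂ) * (G x₀ - p)) (by
        rw [hv, abs_of_pos ht0]
        exact htη)
      refine ⟨y, hy, ?_⟩
      rw [hye, hnn, abs_of_pos (by linarith)]
      nlinarith
    · obtain ⟨y, hy, hye⟩ := hsm (((-t : ℝ) : ℂ) * (G x₀ - p)) (by
        rw [hv, abs_neg, abs_of_pos ht0]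
        exact htη)
      refine ⟨y, hy, ?_⟩
      rw [hye, hnn, abs_of_nonneg (by linarith)]
      nlinarith

end Pool.Agent.RGR
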