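import Pool.Agent.RGR.St

/-!
# WK: the weak estimate
-/

set_option autoImplicit false

namespace Pool.Agent.RGR

open MeasureTheory Metric Set Filter Topology Complex
open scoped ContDiff Real ENNReal
open Pool.Agent.LibHelper41 Pool.Agent.LibHelper41.Remov

namespace WK_aux

theorem add_sq_le (a b : ℝ≥0∞) : (a + b) ^ 2 ≤ 4 * (a ^ 2 + b ^ 2) := by
  rcases le_total a b with h | h
  · calc (a + b) ^ 2 ≤ (b + b) ^ 2 := by gcongr
      _ = 4 * b ^ 2 := by ring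
      _ ≤ _ := by gcongr; exact le_add_self
  · calc (a + b) ^ 2 ≤ (a + a) ^ 2 := by gcongr
      _ = 4 * a ^ 2 := by ring
      _ ≤ _ := by gcongr; exact le_self_add

theorem sq_half (x : ℝ≥0∞) : (x ^ (1 / 2 : ℝ)) ^ 2 = x := by
  rw [← ENNReal.rpow_natCast, ← ENNReal.rpow_mul]
  norm_num

theorem le_of_sq {a b : ℝ≥0∞} (h : a ^ 2 ≤ b ^ 2) : a ≤ b := by
  by_contra hc
  rw [not_le] at hc
  exact absurd h (not_le.2 (ENNReal.pow_lt_pow_left two_ne_zero hc))

theorem cs {ι : Type} (s : Finset ι) (f g : ι → ℝ≥0∞) :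
    (∑ i ∈ s, f i * g i) ^ 2 ≤ (∑ i ∈ s, f i ^ 2) * ∑ i ∈ s, g i ^ 2 := by
  have h := ENNReal.inner_le_Lp_mul_Lq s f g (p := 2) (q := 2) Real.HolderConjugate.two_two
  simp only [ENNReal.rpow_two] at h
  refine (pow_le_pow_left' h 2).trans (le_of_eq ?_)
  rw [mul_pow, sq_half, sq_half]

open Classical in
theorem sum_nb {ι : Type} (s : Finset ι) (R : ι → ι → Prop) (N : ℕ)
    (hR : ∀ k ∈ s, {j | R k j}.encard ≤ N) (x : ι → ℝ≥0∞) :
    ∑ k ∈ s, ∑ j ∈ s, (if R k j then x k else 0) ≤ N * ∑ k ∈ s, x k := by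
  rw [Finset.mul_sum]
  refine Finset.sum_le_sum fun k hk => ?_
  rw [← Finset.sum_filter, Finset.sum_const, nsmul_eq_mul]
  refine mul_le_mul_left ?_ _
  have h1 : (((s.filter fun j => R k j : Finset ι) : Set ι)).encard ≤ N := by
    refine (Set.encard_le_encard ?_).trans (hR k hk)
    intro j hj
    simp only [Finset.coe_filter, mem_ofPred_eq] at hj
    exact hj.2
  rw [encard_coe_eq_coe_finsetCard] at h1
  have h2 : (s.filter fun j => R k j).card ≤ N := by exact_mod_cast h1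
  exact Nat.cast_le.2 h2

open Classical in
theorem pair_cs {ι : Type} (s : Finset ι) (R : ι → ι → Prop) (N : ℕ)
    (hR : ∀ k ∈ s, {j | R k j}.encard ≤ N) (hsym : ∀ k j, R k j → R j k) (x y : ι → ℝ≥0∞) :
    (∑ k ∈ s, ∑ j ∈ s, (if R k j then x j * y k else 0)) ^ 2 ≤
      (N * ∑ j ∈ s, x j ^ 2) * (N * ∑ k ∈ s, y k ^ 2) := by
  have h1 : ∑ k ∈ s, ∑ j ∈ s, (if R k j then x j * y k else 0) =
      ∑ p ∈ s ×ˢ s, (if R p.1 p.2 then x p.2 else 0) * (if R p.1 p.2 then y p.1 else 0) := by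
    rw [Finset.sum_product]
    refine Finset.sum_congr rfl fun k _ => Finset.sum_congr rfl fun j _ => ?_
    dsimp only
    split_ifs <;> simp
  rw [h1]
  refine (cs _ _ _).trans ?_
  refine mul_le_mul' ?_ ?_
  · rw [Finset.sum_product, Finset.sum_comm]
    refine le_trans (le_of_eq ?_) (sum_nb s R N hR fun j => x j ^ 2)
    refine Finset.sum_congr rfl fun k _ => Finset.sum_congr rfl fun j _ => ?_
    dsimp only
    by_cases h : R j k
    · rw [if_pos h, if_pos (hsym _ _ h)]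
    · rw [if_neg h, if_neg fun h' => h (hsym _ _ h')]
      simp
  · rw [Finset.sum_product]
    refine le_trans (le_of_eq ?_) (sum_nb s R N hR fun k => y k ^ 2)
    refine Finset.sum_congr rfl fun k _ => Finset.sum_congr rfl fun j _ => ?_
    dsimp only
    split_ifs <;> simp

theorem mult {ι : Type} {q R₁ : ℝ} {N : ℕ} {E : Set ℂ} {c : ι → ℂ} {r : ι → ℝ}
    (h : Rings q R₁ N E c r) (s : Finset ι) (G : ℂ ≃ₜ ℂ) (A : ι → Set ℂ)
    (hA : ∀ j, A j ⊆ closedBall (c j) (q * r j)) :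
    ∀ z, {j | j ∈ s ∧ z ∈ G '' A j}.encard ≤ N := by
  intro z
  rcases Set.eq_empty_or_nonempty {j | j ∈ s ∧ z ∈ G '' A j} with he | ⟨k, hk⟩
  · rw [he]
    simp
  · refine (Set.encard_le_encard ?_).trans (h.nb k)
    rintro j ⟨_, x, hx, hxz⟩
    obtain ⟨_, y, hy, hyz⟩ := hk
    have hxy : x = y := G.injective (hxz.trans hyz.symm)
    intro hd
    exact Set.disjoint_left.1 hd (hA k hy) (hxy ▸ hA j hx)

/-- the constant of the diameter estimate -/
noncomputable def kap (q : ℝ) : ℝ≥0∞ := ENNReal.ofReal (2 * π) / ENNReal.ofReal (Real.log (√q))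

theorem one_lt_sqrt {q : ℝ} (hq : 1 < q) : 1 < √q := by
  rw [Real.lt_sqrt (by norm_num)]
  simpa using hq

theorem log_pos {q : ℝ} (hq : 1 < q) : ENNReal.ofReal (Real.log (√q)) ≠ 0 := by
  rw [Ne, ENNReal.ofReal_eq_zero, not_le]
  exact Real.log_pos (one_lt_sqrt hq)

theorem kap_ne {q : ℝ} (hq : 1 < q) : kap q ≠ ⊤ :=
  ENNReal.div_ne_top ENNReal.ofReal_ne_top (log_pos hq)

theorem sqrt_mul_sqrt_mul {q r : ℝ} (hq : 1 < q) : √q * (√q * r) = q * r := by
  rw [← mul_assoc, Real.mul_self_sqrt (by linarith)]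

theorem rd_bound (hRD : S_RD) {q : ℝ} (hq : 1 < q) (G : ℂ ≃ₜ ℂ) (c : ℂ) (r : ℝ) (hr : 0 < r)
    (hG : DifferentiableOn ℂ G (Ann c r (q * r))) :
    ∀ x ∈ closedBall c (√q * r), ∀ y ∈ closedBall c (√q * r),
      edist (G x) (G y) ^ 2 ≤ kap q * volume (G '' Ann c (√q * r) (q * r)) := by
  intro x hx y hy
  have hs := one_lt_sqrt hq
  have hle : r ≤ √q * r := by nlinarith
  have h := hRD G c (√q * r) (√q) (by positivity) hs (by
    rw [sqrt_mul_sqrt_mul hq]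
    refine hG.mono ?_
    rintro z ⟨h1, h2⟩
    exact ⟨lt_of_le_of_lt hle h1, h2⟩) x hx y hy
  rw [sqrt_mul_sqrt_mul hq] at h
  have e : kap q * volume (G '' Ann c (√q * r) (q * r)) =
      (ENNReal.ofReal (2 * π) * volume (G '' Ann c (√q * r) (q * r))) /
        ENNReal.ofReal (Real.log (√q)) := by
    rw [kap, ENNReal.div_eq_inv_mul, ENNReal.div_eq_inv_mul, mul_assoc]
  rw [e, ENNReal.le_div_iff_mul_le (Or.inl (log_pos hq)) (Or.inl ENNReal.ofReal_ne_top)]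
  exact h

theorem ann_meas (c : ℂ) (a b : ℝ) : MeasurableSet (Ann c a b) := by
  have h : IsOpen (Ann c a b) := by
    have h1 : IsOpen {z : ℂ | a < ‖z - c‖} := isOpen_lt continuous_const (by fun_prop)
    have h2 : IsOpen {z : ℂ | ‖z - c‖ < b} := isOpen_lt (by fun_prop) continuous_const
    exact h1.inter h2
  exact h.measurableSet

theorem ann_sub {q : ℝ} (hq : 1 < q) (c : ℂ) {r : ℝ} (hr : 0 < r) :
    Ann c (√q * r) (q * r) ⊆ Ann c r (q * r) := by
  have hs := one_lt_sqrt hq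
  have hle : r ≤ √q * r := by nlinarith
  rintro z ⟨h1, h2⟩
  exact ⟨lt_of_le_of_lt hle h1, h2⟩

theorem ann_closedBall (c : ℂ) (a b : ℝ) : Ann c a b ⊆ closedBall c b := by
  rintro z ⟨_, h2⟩
  rw [mem_closedBall_iff_norm]
  exact h2.le

theorem image_meas (G : ℂ ≃ₜ ℂ) (c : ℂ) (a b : ℝ) : MeasurableSet (G '' Ann c a b) :=
  G.toMeasurableEquiv.measurableSet_image.2 (ann_meas c a b)

/-- measure of a set of small diameter -/
theorem vol_small {P : Set ℂ} {p : ℂ} {d : ℝ≥0∞} (hd : d ≠ ⊤) (h : ∀ w ∈ P, edist w p ^ 2 ≤ d) :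
    volume P ≤ d * NNReal.pi := by
  have h1 : P ⊆ closedBall p ((d ^ (1 / 2 : ℝ)).toReal) := by
    intro w hw
    have h2 : edist w p ≤ d ^ (1 / 2 : ℝ) := by
      apply le_of_sq
      rw [sq_half]
      exact h w hw
    rw [mem_closedBall, dist_edist]
    exact ENNReal.toReal_mono (ENNReal.rpow_ne_top_of_nonneg (by norm_num) hd) h2
  refine (measure_mono h1).trans (le_of_eq ?_)
  rw [Complex.volume_closedBall, ENNReal.ofReal_toReal (ENNReal.rpow_ne_top_of_nonneg (by norm_num) hd),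
    sq_half]

theorem integral_est {Ψ Θ φ : ℂ → ℂ} (hΨ : Continuous Ψ) (hΘ : ContDiff ℝ 1 Θ)
    (hφ : ContDiff ℝ ∞ φ) (hφc : HasCompactSupport φ) {D₀ D₁ : ℝ≥0∞} (h0 : ∀ w, ‖φ w‖ₑ ≤ D₀)
    (h1 : ∀ w, ‖dbar φ w‖ₑ ≤ D₁) :
    ‖∫ w, Ψ w * dbar φ w‖ₑ ≤ (∫⁻ w, ‖Θ w - Ψ w‖ₑ) * D₁ + (∫⁻ w, ‖dbar Θ w‖ₑ) * D₀ := by
  have hφ1 : ContDiff ℝ 1 φ := hφ.of_le (by exact_mod_cast le_top)
  have hcd := continuous_dbar hφ1
  have hcs := hasCompactSupport_dbar hφc
  have i1 : Integrable (fun w => Θ w * dbar φ w) :=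
    (hΘ.continuous.mul hcd).integrable_of_hasCompactSupport hcs.mul_left
  have i2 : Integrable (fun w => (Θ w - Ψ w) * dbar φ w) :=
    ((hΘ.continuous.sub hΨ).mul hcd).integrable_of_hasCompactSupport hcs.mul_left
  have e1 : ∫ w, Ψ w * dbar φ w = (- ∫ w, dbar Θ w * φ w) - ∫ w, (Θ w - Ψ w) * dbar φ w := by
    rw [← integral_mul_dbar hΘ hφ1 hφc, ← integral_sub i1 i2]
    congr 1
    ext w
    ring
  rw [e1]
  refine (enorm_sub_le).trans ?_
  rw [enorm_neg, add_comm]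
  refine add_le_add ?_ ?_
  · refine (enorm_integral_le_lintegral_enorm _).trans ?_
    have hD : (∫⁻ w, ‖Θ w - Ψ w‖ₑ) * D₁ = ∫⁻ w, ‖Θ w - Ψ w‖ₑ * D₁ := by
      rw [lintegral_mul_const]
      exact (hΘ.continuous.sub hΨ).enorm.measurable
    rw [hD]
    refine lintegral_mono fun w => ?_
    dsimp only
    rw [enorm_mul]
    exact mul_le_mul' le_rfl (h1 w)
  · refine (enorm_integral_le_lintegral_enorm _).trans ?_
    have hD : (∫⁻ w, ‖dbar Θ w‖ₑ) * D₀ = ∫⁻ w, ‖dbar Θ w‖ₑ * D₀ := by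
      rw [lintegral_mul_const]
      exact (continuous_dbar hΘ).enorm.measurable
    rw [hD]
    refine lintegral_mono fun w => ?_
    dsimp only
    rw [enorm_mul]
    exact mul_le_mul' le_rfl (h0 w)

end WK_aux

open WK_aux

/-- **WK**: the weak estimate. -/
theorem t_WK : S_RD → S_CUT → S_MOD → S_WK := by
  classical
  intro hRD hCUT hMOD q R₁ N E f φ hq hR₁ hf hφ hφc
  obtain ⟨C₀, hC₀, hcut⟩ := hCUT q hq
  have hφ1 : ContDiff ℝ 1 φ := hφ.of_le (by exact_mod_cast le_top)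
  obtain ⟨d0, hd0⟩ := hφc.exists_bound_of_continuous hφ.continuous
  obtain ⟨d1, hd1⟩ :=
    (hasCompactSupport_dbar hφc).exists_bound_of_continuous (continuous_dbar hφ1)
  obtain ⟨κ, hκ⟩ : ∃ κ, κ = kap q := ⟨_, rfl⟩
  have hκt : κ ≠ ⊤ := by rw [hκ]; exact kap_ne hq
  obtain ⟨V, hV⟩ : ∃ V : ℝ≥0∞, V = (NNReal.pi : ℝ≥0∞) := ⟨_, rfl⟩
  have hVt : V ≠ ⊤ := by rw [hV]; exact ENNReal.coe_ne_top
  obtain ⟨A₁, hA₁⟩ : ∃ A₁, A₁ = volume (f '' closedBall 0 R₁) := ⟨_, rfl⟩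
  have hA₁t : A₁ ≠ ⊤ := by
    rw [hA₁]
    exact ((isCompact_closedBall 0 R₁).image f.continuous).measure_lt_top.ne
  obtain ⟨B₀, hB₀⟩ : ∃ B₀, B₀ = (κ * V) ^ (1 / 2 : ℝ) := ⟨_, rfl⟩
  have hB₀t : B₀ ≠ ⊤ := by
    rw [hB₀]
    exact ENNReal.rpow_ne_top_of_nonneg (by norm_num) (ENNReal.mul_ne_top hκt hVt)
  have hNt : (N : ℝ≥0∞) ≠ ⊤ := ENNReal.natCast_ne_top N
  obtain ⟨D₀, hD₀⟩ : ∃ D₀, D₀ = ENNReal.ofReal d0 := ⟨_, rfl⟩
  obtain ⟨D₁, hD₁⟩ : ∃ D₁, D₁ = ENNReal.ofReal d1 := ⟨_, rfl⟩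
  have hD₀t : D₀ ≠ ⊤ := by rw [hD₀]; exact ENNReal.ofReal_ne_top
  have hD₁t : D₁ ≠ ⊤ := by rw [hD₁]; exact ENNReal.ofReal_ne_top
  have hb0 : ∀ w, ‖φ w‖ₑ ≤ D₀ := by
    intro w
    rw [hD₀, ← ofReal_norm]
    exact ENNReal.ofReal_le_ofReal (hd0 w)
  have hb1 : ∀ w, ‖dbar φ w‖ₑ ≤ D₁ := by
    intro w
    rw [hD₁, ← ofReal_norm]
    exact ENNReal.ofReal_le_ofReal (hd1 w)
  refine ⟨4 * ((B₀ * (κ * V * N) * D₁) ^ 2 * A₁ +
    (4 * ((N * (κ * (N * V))) * (N * (C₀ * N)))) * D₀ ^ 2), ?_, ?_⟩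
  · finiteness
  intro ι c r hR s F hG
  have hoff : ∀ j, Ann (c j) (r j) (q * r j) ⊆ Eᶜ := by
    intro j z hz hzE
    refine Set.disjoint_left.1 (hR.off j) ⟨ann_closedBall _ _ _ hz, ?_⟩ hzE
    rw [mem_ball_iff_norm, not_lt]
    exact hz.1.le
  have hAf : ∀ j, DifferentiableOn ℂ f (Ann (c j) (r j) (q * r j)) := fun j => hf.mono (hoff j)
  have hAF : ∀ j, DifferentiableOn ℂ F (Ann (c j) (r j) (q * r j)) := fun j =>
    hG.hol.mono fun z hz h => hoff j hz h.1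
  obtain ⟨a, ha⟩ : ∃ a : ι → ℝ≥0∞, a = fun j => volume (f '' Ann (c j) (r j) (q * r j)) :=
    ⟨_, rfl⟩
  obtain ⟨β, hβ⟩ : ∃ β : ι → ℝ≥0∞,
      β = fun j => (κ * volume (F '' Ann (c j) (√q * r j) (q * r j))) ^ (1 / 2 : ℝ) := ⟨_, rfl⟩
  obtain ⟨A, hA⟩ : ∃ A, A = volume (f '' ⋃ j ∈ s, Ann (c j) (r j) (q * r j)) := ⟨_, rfl⟩
  rw [← hA]
  have hball : ∀ j, Ann (c j) (r j) (q * r j) ⊆ closedBall 0 R₁ := fun j =>
    (ann_closedBall _ _ _).trans ((hR.inb j).trans ball_subset_closedBall)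
  have haA₁ : ∀ j, a j ≤ A₁ := by
    intro j
    rw [ha, hA₁]
    exact measure_mono (image_mono (hball j))
  have hAA₁ : A ≤ A₁ := by
    rw [hA, hA₁]
    exact measure_mono (image_mono (iUnion₂_subset fun j _ => hball j))
  have hFsub : ∀ j, F '' Ann (c j) (√q * r j) (q * r j) ⊆ closedBall 0 1 := by
    rintro j _ ⟨z, hz, rfl⟩
    rw [mem_closedBall_zero_iff]
    exact hG.nrm.le_one z (mem_closedBall_zero_iff.1 (hball j (ann_sub hq _ (hR.pos j) hz)))
  have hVb : volume (closedBall (0 : ℂ) 1) = V := by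
    rw [Complex.volume_closedBall, hV]
    simp
  have hβsq : ∀ j, β j ^ 2 = κ * volume (F '' Ann (c j) (√q * r j) (q * r j)) := by
    intro j
    rw [hβ]
    exact sq_half _
  have hβle : ∀ j, β j ≤ B₀ := by
    intro j
    rw [hβ, hB₀]
    refine ENNReal.rpow_le_rpow (mul_le_mul' le_rfl ?_) (by norm_num)
    rw [← hVb]
    exact measure_mono (hFsub j)
  have hβt : ∀ j, β j ≠ ⊤ := fun j => ne_top_of_le_ne_top hB₀t (hβle j)
  have hsa : ∑ j ∈ s, a j ≤ N * A := by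
    have h := sum_lintegral_le (s := s) (A := fun j => f '' Ann (c j) (r j) (q * r j))
      (W := f '' ⋃ j ∈ s, Ann (c j) (r j) (q * r j)) (N := N)
      (fun j _ => image_meas f _ _ _)
      (fun j hj => image_mono (subset_biUnion_of_mem (u := fun j => Ann (c j) (r j) (q * r j)) hj))
      (mult hR s f _ fun j => ann_closedBall _ _ _) (fun _ => 1)
    simp only [setLIntegral_one] at h
    rw [ha, hA]
    exact h
  have hsβ : ∑ j ∈ s, β j ^ 2 ≤ κ * (N * V) := by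
    have h := sum_lintegral_le (s := s) (A := fun j => F '' Ann (c j) (√q * r j) (q * r j))
      (W := closedBall 0 1) (N := N) (fun j _ => image_meas F _ _ _) (fun j _ => hFsub j)
      (mult hR s F _ fun j => ann_closedBall _ _ _) (fun _ => 1)
    simp only [setLIntegral_one] at h
    rw [hVb] at h
    rw [Finset.sum_congr rfl fun j _ => hβsq j, ← Finset.mul_sum]
    exact mul_le_mul' le_rfl h
  obtain ⟨P, hP⟩ : ∃ P : ι → Set ℂ, P = fun j => f '' closedBall (c j) (√q * r j) := ⟨_, rfl⟩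
  have hPc : ∀ j, IsCompact (P j) := by
    intro j
    rw [hP]
    exact (isCompact_closedBall _ _).image f.continuous
  have hcj : ∀ j, c j ∈ closedBall (c j) (√q * r j) := fun j =>
    mem_closedBall_self (mul_nonneg (Real.sqrt_nonneg _) (hR.pos j).le)
  have hPvol : ∀ j, volume (P j) ≤ κ * a j * V := by
    intro j
    rw [hV]
    refine vol_small (p := f (c j)) (ENNReal.mul_ne_top hκt (ne_top_of_le_ne_top hA₁t (haA₁ j))) ?_
    rw [hP]
    rintro _ ⟨x, hx, rfl⟩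
    refine (rd_bound hRD hq f (c j) (r j) (hR.pos j) (hAf j) x hx (c j) (hcj j)).trans ?_
    rw [hκ, ha]
    exact mul_le_mul' le_rfl (measure_mono (image_mono (ann_sub hq _ (hR.pos j))))
  choose χ hχ1 hχ2 hχ3 hχ4 hχ5 hχ6 hχ7 using fun j => hcut f (c j) (r j) (hR.pos j) (hAf j)
  have hbΨ : ∀ j ∈ s, ∀ w ∈ P j, ‖F (c j) - F (f.symm w)‖ ≤ (β j).toReal := by
    intro j _ w hw
    rw [hP] at hw
    obtain ⟨x, hx, rfl⟩ := hw
    rw [Homeomorph.symm_apply_apply, ← dist_eq_norm, dist_edist]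
    refine ENNReal.toReal_mono (hβt j) (le_of_sq ?_)
    rw [hβsq, hκ]
    exact rd_bound hRD hq F (c j) (r j) (hR.pos j) (hAF j) (c j) (hcj j) x hx
  obtain ⟨Θ, hΘ1, hΘ2, hΘ3⟩ := hMOD ι s (fun j => f '' closedBall (c j) (r j)) P
    (fun w => F (f.symm w)) χ (fun j => F (c j)) (fun j => (β j).toReal)
    (F.continuous.comp f.symm.continuous)
    (fun j _ => ((isCompact_closedBall _ _).image f.continuous).isClosed)
    (fun j _ => ENNReal.toReal_nonneg) hG.glue (fun j _ => hχ1 j)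
    (fun j _ w => ⟨hχ2 j w, hχ3 j w⟩) (fun j _ => hχ4 j)
    (fun j _ => by rw [hP]; exact hχ5 j) (fun j _ => by rw [hP]; exact hχ6 j) hbΨ
  have hχC : ∀ k, ContDiff ℝ 1 (fun w => (χ k w : ℂ)) := fun k => ofRealCLM.contDiff.comp (hχ1 k)
  have hχm : ∀ k, Measurable fun w => ‖dbar (fun w => (χ k w : ℂ)) w‖ₑ := fun k =>
    (continuous_dbar (hχC k)).enorm.measurable
  obtain ⟨γ, hγ⟩ : ∃ γ : ι → ℝ≥0∞, γ = fun k => ∫⁻ w, ‖dbar (fun w => (χ k w : ℂ)) w‖ₑ :=
    ⟨_, rfl⟩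
  have hγsq : ∀ k, γ k ^ 2 ≤ C₀ * a k := by
    intro k
    rw [hγ, ha]
    exact hχ7 k
  -- first sum
  have I1 : ∫⁻ w, ‖Θ w - F (f.symm w)‖ₑ ≤ B₀ * (κ * V * N) * A := by
    have e1 : ∀ w, ‖Θ w - F (f.symm w)‖ₑ ≤ ∑ j ∈ s, (P j).indicator (fun _ => β j) w := by
      intro w
      rw [← ofReal_norm]
      refine (ENNReal.ofReal_le_ofReal (hΘ2 w)).trans ?_
      rw [ENNReal.ofReal_sum_of_nonneg]
      · refine Finset.sum_le_sum fun j _ => ?_
        by_cases hw : w ∈ P j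
        · rw [if_pos hw, indicator_of_mem hw, ENNReal.ofReal_toReal (hβt j)]
        · rw [if_neg hw, indicator_of_notMem hw, ENNReal.ofReal_zero]
      · intro j _
        split_ifs
        · exact ENNReal.toReal_nonneg
        · exact le_rfl
    calc ∫⁻ w, ‖Θ w - F (f.symm w)‖ₑ
        ≤ ∫⁻ w, ∑ j ∈ s, (P j).indicator (fun _ => β j) w := lintegral_mono e1
      _ = ∑ j ∈ s, β j * volume (P j) := by
          rw [lintegral_finsetSum]
          · refine Finset.sum_congr rfl fun j _ => ?_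
            rw [lintegral_indicator_const (hPc j).measurableSet]
          · intro j _
            exact measurable_const.indicator (hPc j).measurableSet
      _ ≤ ∑ j ∈ s, B₀ * (κ * a j * V) :=
          Finset.sum_le_sum fun j _ => mul_le_mul' (hβle j) (hPvol j)
      _ = B₀ * (κ * V) * ∑ j ∈ s, a j := by
          rw [Finset.mul_sum]
          refine Finset.sum_congr rfl fun j _ => ?_
          ring
      _ ≤ B₀ * (κ * V) * (N * A) := mul_le_mul' le_rfl hsa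
      _ = _ := by ring
  -- second sum
  obtain ⟨nb, hnb⟩ : ∃ nb : ι → ι → Prop, nb = fun k j =>
      ¬ Disjoint (closedBall (c k) (q * r k)) (closedBall (c j) (q * r j)) := ⟨_, rfl⟩
  have hnbN : ∀ k ∈ s, {j | nb k j}.encard ≤ N := by
    intro k _
    rw [hnb]
    exact hR.nb k
  have hnbs : ∀ k j, nb k j → nb j k := by
    intro k j h
    rw [hnb] at h ⊢
    exact fun h' => h h'.symm
  have hPnb : ∀ k j w, w ∈ P k → w ∈ P j → nb k j := by
    intro k j w hk hj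
    rw [hP] at hk hj
    obtain ⟨x, hx, hxw⟩ := hk
    obtain ⟨y, hy, hyw⟩ := hj
    have hxy : x = y := f.injective (hxw.trans hyw.symm)
    have hle : ∀ j, closedBall (c j) (√q * r j) ⊆ closedBall (c j) (q * r j) := by
      intro j
      refine closedBall_subset_closedBall ?_
      rw [← sqrt_mul_sqrt_mul hq]
      have h1 := one_lt_sqrt hq
      have h2 : 0 ≤ √q * r j := mul_nonneg (Real.sqrt_nonneg _) (hR.pos j).le
      nlinarith
    rw [hnb]
    intro hd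
    exact Set.disjoint_left.1 hd (hle k hx) (hxy ▸ hle j hy)
  have I2 : ∫⁻ w, ‖dbar Θ w‖ₑ ≤ 2 * ∑ k ∈ s, ∑ j ∈ s, (if nb k j then β j * γ k else 0) := by
    have e2 : ∀ w, ‖dbar Θ w‖ₑ ≤ ∑ k ∈ s, ∑ j ∈ s,
        (if nb k j then 2 * (β j * ‖dbar (fun w => (χ k w : ℂ)) w‖ₑ) else 0) := by
      intro w
      rw [← ofReal_norm]
      refine (ENNReal.ofReal_le_ofReal (hΘ3 w)).trans ?_
      have hnn : ∀ k j, (0 : ℝ) ≤ if w ∈ P j then
          2 * ‖dbar (fun w => (χ k w : ℂ)) w‖ * (β j).toReal else 0 := by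
        intro k j
        split_ifs
        · exact mul_nonneg (mul_nonneg (by norm_num) (norm_nonneg _)) ENNReal.toReal_nonneg
        · exact le_rfl
      rw [ENNReal.ofReal_sum_of_nonneg fun k _ => Finset.sum_nonneg fun j _ => hnn k j]
      refine Finset.sum_le_sum fun k _ => ?_
      rw [ENNReal.ofReal_sum_of_nonneg fun j _ => hnn k j]
      refine Finset.sum_le_sum fun j _ => ?_
      by_cases hw : w ∈ P j
      · rw [if_pos hw]
        by_cases hk : w ∈ P k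
        · rw [if_pos (hPnb k j w hk hw), ENNReal.ofReal_mul (by positivity),
            ENNReal.ofReal_mul (by norm_num), ENNReal.ofReal_toReal (hβt j), ofReal_norm,
            ENNReal.ofReal_ofNat]
          exact le_of_eq (by ring)
        · have h0 : dbar (fun w => (χ k w : ℂ)) w = 0 := by
            refine hχ6 k w ?_
            rw [hP] at hk
            exact hk
          rw [h0]
          simp
      · rw [if_neg hw, ENNReal.ofReal_zero]
        exact zero_le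
    calc ∫⁻ w, ‖dbar Θ w‖ₑ
        ≤ ∫⁻ w, ∑ k ∈ s, ∑ j ∈ s,
          (if nb k j then 2 * (β j * ‖dbar (fun w => (χ k w : ℂ)) w‖ₑ) else 0) :=
          lintegral_mono e2
      _ = ∑ k ∈ s, ∑ j ∈ s, (if nb k j then 2 * (β j * γ k) else 0) := by
          have hm : ∀ k j, Measurable fun w =>
              (if nb k j then 2 * (β j * ‖dbar (fun w => (χ k w : ℂ)) w‖ₑ) else 0 : ℝ≥0∞) := by
            intro k j
            split_ifs
            · exact ((hχm k).const_mul _).const_mul _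
            · exact measurable_const
          rw [lintegral_finsetSum _ fun k _ => Finset.measurable_sum _ fun j _ => hm k j]
          refine Finset.sum_congr rfl fun k _ => ?_
          rw [lintegral_finsetSum _ fun j _ => hm k j]
          refine Finset.sum_congr rfl fun j _ => ?_
          split_ifs
          · rw [lintegral_const_mul _ ((hχm k).const_mul _), lintegral_const_mul _ (hχm k), hγ]
          · simp
      _ = _ := by
          rw [Finset.mul_sum]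
          refine Finset.sum_congr rfl fun k _ => ?_
          rw [Finset.mul_sum]
          refine Finset.sum_congr rfl fun j _ => ?_
          split_ifs <;> simp
  have I2' : (∫⁻ w, ‖dbar Θ w‖ₑ) ^ 2 ≤ 4 * ((N * (κ * (N * V))) * (N * (C₀ * N))) * A := by
    have hsγ : ∑ k ∈ s, γ k ^ 2 ≤ C₀ * (N * A) := by
      refine (Finset.sum_le_sum fun k _ => hγsq k).trans ?_
      rw [← Finset.mul_sum]
      exact mul_le_mul' le_rfl hsa
    calc (∫⁻ w, ‖dbar Θ w‖ₑ) ^ 2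
        ≤ (2 * ∑ k ∈ s, ∑ j ∈ s, (if nb k j then β j * γ k else 0)) ^ 2 := pow_le_pow_left' I2 2
      _ = 4 * (∑ k ∈ s, ∑ j ∈ s, (if nb k j then β j * γ k else 0)) ^ 2 := by
          rw [mul_pow]; norm_num
      _ ≤ 4 * ((N * ∑ j ∈ s, β j ^ 2) * (N * ∑ k ∈ s, γ k ^ 2)) :=
          mul_le_mul' le_rfl (pair_cs s nb N hnbN hnbs β γ)
      _ ≤ 4 * ((N * (κ * (N * V))) * (N * (C₀ * (N * A)))) := by gcongr
      _ = _ := by ring
  have hX := integral_est (F.continuous.comp f.symm.continuous) hΘ1 hφ hφc hb0 hb1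
  calc ‖∫ w, F (f.symm w) * dbar φ w‖ₑ ^ 2
      ≤ ((∫⁻ w, ‖Θ w - F (f.symm w)‖ₑ) * D₁ + (∫⁻ w, ‖dbar Θ w‖ₑ) * D₀) ^ 2 :=
        pow_le_pow_left' hX 2
    _ ≤ 4 * (((∫⁻ w, ‖Θ w - F (f.symm w)‖ₑ) * D₁) ^ 2 + ((∫⁻ w, ‖dbar Θ w‖ₑ) * D₀) ^ 2) :=
        add_sq_le _ _
    _ ≤ 4 * ((B₀ * (κ * V * N) * D₁) ^ 2 * A₁ * A +
        (4 * ((N * (κ * (N * V))) * (N * (C₀ * N)))) * D₀ ^ 2 * A) := by
        refine mul_le_mul' le_rfl (add_le_add ?_ ?_)
        · calc ((∫⁻ w, ‖Θ w - F (f.symm w)‖ₑ) * D₁) ^ 2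
              ≤ (B₀ * (κ * V * N) * A * D₁) ^ 2 :=
                pow_le_pow_left' (mul_le_mul' I1 le_rfl) 2
            _ = (B₀ * (κ * V * N) * D₁) ^ 2 * A * A := by ring
            _ ≤ (B₀ * (κ * V * N) * D₁) ^ 2 * A₁ * A := by gcongr
        · rw [mul_pow]
          calc (∫⁻ w, ‖dbar Θ w‖ₑ) ^ 2 * D₀ ^ 2
              ≤ (4 * ((N * (κ * (N * V))) * (N * (C₀ * N))) * A) * D₀ ^ 2 :=
                mul_le_mul' I2' le_rfl
            _ = _ := by ring
    _ = _ := by ring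

end Pool.Agent.RGR
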