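import Pool.Agent.RGR.POL
import Pool.Agent.RGR.PCS
import Pool.Agent.RGR.RL
import Pool.Agent.RGR.TOP
import Pool.Agent.RGR.RD
import Pool.Agent.RGR.RT
import Pool.Agent.RGR.JMP
import Pool.Agent.RGR.MN
import Pool.Agent.RGR.GLU
import Pool.Agent.RGR.NRM
import Pool.Agent.RGR.EX
import Pool.Agent.RGR.EQ
import Pool.Agent.RGR.IN
import Pool.Agent.RGR.LC
import Pool.Agent.RGR.LI
import Pool.Agent.RGR.LH
import Pool.Agent.RGR.AF
import Pool.Agent.RGR.CUT
import Pool.Agent.RGR.MOD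
import Pool.Agent.RGR.WK
import Pool.Agent.RGR.ONE
import Pool.Agent.RGR.PKG
import Pool.Agent.RGR.SEL
import Pool.Agent.RGR.FIN
import Pool.Agent.RGR.CIR

/-! # Rings and conformal removability: assembly -/

set_option autoImplicit false

namespace Pool.Agent.RGR

theorem pcs : S_PCS := t_PCS t_POL
theorem rl : S_RL := t_RL pcs
theorem rd : S_RD := t_RD rl t_TOP
theorem rt : S_RT := t_RT rl t_TOP
theorem jmp : S_JMP := t_JMP pcs
theorem mn : S_MN := t_MN pcs rd rt jmp
theorem ex : S_EX := t_EX t_GLU t_NRM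
theorem eq' : S_EQ := t_EQ mn t_TOP
theorem in' : S_IN := t_IN mn t_TOP
theorem lc : S_LC := t_LC eq'
theorem li : S_LI := t_LI in'
theorem wk : S_WK := t_WK rd t_CUT t_MOD
theorem one : S_ONE := t_ONE ex lc li t_LH t_AF wk
theorem fin : S_FIN := t_FIN one (t_SEL t_PKG)

/-- circle domains -/
theorem main : S_CIR := t_CIR fin

end Pool.Agent.RGR
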