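import Pool.Agent.Lib_helper41.Remov.Refl1

/-!
# Rings and conformal removability: basic lemmas (proved)

`vol_image_le` (measure of an image on the line), `vol_circ` (the same for a function on a circle),
`lintegral_cv` (conformal change of variables), `sum_lintegral_le` (bounded multiplicity).
-/

set_option autoImplicit false

namespace Pool.Agent.RGR

open MeasureTheory Metric Set Filter Topology Complex
open scoped ContDiff Real ENNReal
open Pool.Agent.LibHelper41 Pool.Agent.LibHelper41.Remov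

/-- The measure of the image of a set of real numbers. -/
theorem vol_image_le {u u' : ℝ → ℝ} {S : Set ℝ} (hS : MeasurableSet S)
    (h : ∀ x ∈ S, HasDerivAt u (u' x) x) : volume (u '' S) ≤ ∫⁻ x in S, ‖u' x‖ₑ := by
  have h1 := addHaar_image_le_lintegral_abs_det_fderiv (μ := volume) (f := u)
    (f' := fun x => (ContinuousLinearMap.toSpanSingleton ℝ (u' x) : ℝ →L[ℝ] ℝ)) hS
    (fun x hx => (h x hx).hasFDerivAt.hasFDerivWithinAt)
  refine h1.trans (le_of_eq ?_)
  refine setLIntegral_congr_fun hS fun x _ => ?_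
  rw [← ofReal_norm, Real.norm_eq_abs]
  have h2 : (ContinuousLinearMap.toSpanSingleton ℝ (u' x) : ℝ →L[ℝ] ℝ).det = u' x := by
    simp [ContinuousLinearMap.det]
  rw [h2]

/-- A function on a circle: `θ ↦ φ (G (c + e^(t + iθ)))`. -/
theorem circ_deriv {G : ℂ → ℂ} {φ : ℂ → ℝ} {c : ℂ} {t θ : ℝ}
    (hG : DifferentiableAt ℂ G (c + cexp (t + θ * I)))
    (hφ : DifferentiableAt ℝ φ (G (c + cexp (t + θ * I)))) :
    HasDerivAt (fun θ : ℝ => φ (G (c + cexp (t + θ * I))))
      (fderiv ℝ φ (G (c + cexp (t + θ * I)))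
        (deriv G (c + cexp (t + θ * I)) * (cexp (t + θ * I) * I))) θ := by
  have h1 : HasDerivAt (fun θ : ℝ => c + cexp (t + θ * I)) (cexp (t + θ * I) * I) θ := by
    have h2 : HasDerivAt (fun z : ℂ => (t : ℂ) + z * I) I (θ : ℂ) := by
      simpa using ((hasDerivAt_id (θ : ℂ)).mul_const I).const_add (t : ℂ)
    have h3 := (h2.cexp.const_add c).comp_ofReal
    exact h3
  have h4 : HasDerivAt (fun θ : ℝ => G (c + cexp (t + θ * I)))
      (deriv G (c + cexp (t + θ * I)) * (cexp (t + θ * I) * I)) θ :=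
    HasDerivAt.comp (h₂ := G) (h := fun θ : ℝ => c + cexp (t + θ * I)) θ hG.hasDerivAt h1
  exact hφ.hasFDerivAt.comp_hasDerivAt θ h4

theorem circ_bound {G : ℂ → ℂ} {φ : ℂ → ℝ} {c : ℂ} {t θ : ℝ} :
    ‖fderiv ℝ φ (G (c + cexp (t + θ * I)))
        (deriv G (c + cexp (t + θ * I)) * (cexp (t + θ * I) * I))‖ₑ ≤
      ‖fderiv ℝ φ (G (c + cexp (t + θ * I)))‖ₑ * ‖deriv G (c + cexp (t + θ * I))‖ₑ *
        ENNReal.ofReal (Real.exp t) := by
  refine (ContinuousLinearMap.le_opENorm _ _).trans (le_of_eq ?_)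
  rw [enorm_mul, enorm_mul, ← mul_assoc]
  have h1 : ‖(I : ℂ)‖ₑ = 1 := by
    rw [← ofReal_norm, Complex.norm_I, ENNReal.ofReal_one]
  have h2 : ‖cexp (t + θ * I)‖ₑ = ENNReal.ofReal (Real.exp t) := by
    rw [← ofReal_norm, Complex.norm_exp]
    simp
  rw [h1, h2, mul_one]

/-- Measure of the image of a part of a circle. -/
theorem vol_circ {G : ℂ → ℂ} {φ : ℂ → ℝ} {c : ℂ} {t : ℝ} {S : Set ℝ} (hS : MeasurableSet S)
    (hG : ∀ θ ∈ S, DifferentiableAt ℂ G (c + cexp (t + θ * I)))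
    (hφ : ∀ θ ∈ S, DifferentiableAt ℝ φ (G (c + cexp (t + θ * I)))) :
    volume ((fun θ : ℝ => φ (G (c + cexp (t + θ * I)))) '' S) ≤
      ∫⁻ θ in S, ‖fderiv ℝ φ (G (c + cexp (t + θ * I)))‖ₑ * ‖deriv G (c + cexp (t + θ * I))‖ₑ *
        ENNReal.ofReal (Real.exp t) :=
  (vol_image_le hS fun θ hθ => circ_deriv (hG θ hθ) (hφ θ hθ)).trans
    (lintegral_mono fun _ => circ_bound)

/-- Conformal change of variables. -/
theorem lintegral_cv {G : ℂ → ℂ} {U S : Set ℂ} (hU : IsOpen U) (hG : DifferentiableOn ℂ G U)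
    (hinj : InjOn G S) (hS : MeasurableSet S) (hSU : S ⊆ U) (k : ℂ → ℝ≥0∞) :
    ∫⁻ w in G '' S, k w = ∫⁻ z in S, k (G z) * ‖deriv G z‖ₑ ^ 2 := by
  have h1 : ∀ z ∈ S, HasFDerivWithinAt G (fderiv ℝ G z) S z := by
    intro z hz
    exact ((hG.differentiableAt (hU.mem_nhds (hSU hz))).restrictScalars
      ℝ).hasFDerivAt.hasFDerivWithinAt
  rw [lintegral_image_eq_lintegral_abs_det_fderiv_mul volume hS h1 hinj]
  refine setLIntegral_congr_fun hS fun z hz => ?_
  have h2 : (fderiv ℝ G z).det = normSq (deriv G z) := by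
    rw [det_real_linear _ (deriv G z) 0 (fun h => by
      rw [fderiv_real_of_complex (hG.differentiableAt (hU.mem_nhds (hSU hz)))]
      ring)]
    simp
  rw [h2, abs_of_nonneg (normSq_nonneg _), normSq_eq_norm_sq, ENNReal.ofReal_pow (norm_nonneg _),
    ofReal_norm, mul_comm]

/-- Bounded multiplicity. -/
theorem sum_lintegral_le {ι : Type} {s : Finset ι} {A : ι → Set ℂ} {W : Set ℂ} {N : ℕ}
    (hA : ∀ j ∈ s, MeasurableSet (A j)) (hAW : ∀ j ∈ s, A j ⊆ W)
    (hN : ∀ z, {j | j ∈ s ∧ z ∈ A j}.encard ≤ N) (k : ℂ → ℝ≥0∞) :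
    ∑ j ∈ s, ∫⁻ w in A j, k w ≤ N * ∫⁻ w in W, k w := by
  classical
  have h1 : ∀ j ∈ s, ∫⁻ w in A j, k w = ∫⁻ w in W, (A j).indicator k w := by
    intro j hj
    rw [setLIntegral_indicator (hA j hj), inter_eq_self_of_subset_left (hAW j hj)]
  rw [Finset.sum_congr rfl h1]
  have h2 : ∫⁻ w in W, ∑ j ∈ s, (A j).indicator k w ≤ N * ∫⁻ w in W, k w := by
    rw [← lintegral_const_mul' _ _ (ENNReal.natCast_ne_top N)]
    refine lintegral_mono fun w => ?_
    have h3 : ∑ j ∈ s, (A j).indicator k w = ((s.filter fun j => w ∈ A j).card : ℝ≥0∞) * k w := by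
      rw [Finset.card_eq_sum_ones, Nat.cast_sum, Finset.sum_mul, Finset.sum_filter]
      refine Finset.sum_congr rfl fun j _ => ?_
      by_cases hj : w ∈ A j
      · rw [indicator_of_mem hj, if_pos hj]
        simp
      · rw [indicator_of_notMem hj, if_neg hj]
    rw [h3]
    refine mul_le_mul_left ?_ _
    have h4 := hN w
    have h5 : {j | j ∈ s ∧ w ∈ A j} = ((s.filter fun j => w ∈ A j : Finset ι) : Set ι) := by
      ext j
      simp
    rw [h5, encard_coe_eq_coe_finsetCard] at h4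
    have h6 : (s.filter fun j => w ∈ A j).card ≤ N := by exact_mod_cast h4
    exact Nat.cast_le.2 h6
  refine le_trans ?_ h2
  exact lintegral_finset_sum_le s
where
  lintegral_finset_sum_le (s : Finset ι) :
    ∑ j ∈ s, ∫⁻ w in W, (A j).indicator k w ≤ ∫⁻ w in W, ∑ j ∈ s, (A j).indicator k w := by
    classical
    induction s using Finset.induction_on with
    | empty => simp
    | insert a s ha ih =>
      rw [Finset.sum_insert ha]
      simp_rw [Finset.sum_insert ha]
      exact (add_le_add le_rfl ih).trans (le_lintegral_add _ _)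

end Pool.Agent.RGR
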