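import Pool.Agent.RGR.St

/-!
# Module MOD: modification of a function near closed sets
-/

set_option autoImplicit false

namespace Pool.Agent.RGR

open MeasureTheory Metric Set Filter Topology Complex
open scoped ContDiff Real ENNReal
open Pool.Agent.LibHelper41 Pool.Agent.LibHelper41.Remov

namespace MOD_aux

open Classical in
/-- the inductive statement -/
theorem ind (ι : Type) (s : Finset ι) (L P : ι → Set ℂ) (Ψ : ℂ → ℂ) (χ : ι → ℂ → ℝ)
    (m : ι → ℂ) (b : ι → ℝ) (hL : ∀ j ∈ s, IsClosed (L j)) (hb : ∀ j ∈ s, 0 ≤ b j)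
    (hd : DifferentiableOn ℂ Ψ (⋃ j ∈ s, L j)ᶜ) (hχ : ∀ j ∈ s, ContDiff ℝ 1 (χ j))
    (h01 : ∀ j ∈ s, ∀ w, 0 ≤ χ j w ∧ χ j w ≤ 1)
    (h1 : ∀ j ∈ s, ∀ w ∈ L j, ∀ᶠ x in 𝓝 w, χ j x = 1)
    (h0 : ∀ j ∈ s, ∀ w ∉ P j, χ j w = 0)
    (hz : ∀ j ∈ s, ∀ w ∉ P j, dbar (fun w => (χ j w : ℂ)) w = 0)
    (hm : ∀ j ∈ s, ∀ w ∈ P j, ‖m j - Ψ w‖ ≤ b j) (s' : Finset ι) :
    s' ⊆ s → ∃ Θ : ℂ → ℂ,
      (∀ w, (∀ j ∈ s, j ∉ s' → w ∉ L j) → ContDiffAt ℝ 1 Θ w) ∧
      (∀ w, ‖Θ w - Ψ w‖ ≤ ∑ j ∈ s', if w ∈ P j then b j else 0) ∧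
      ∀ w, (∀ j ∈ s, j ∉ s' → w ∉ L j) → ‖dbar Θ w‖ ≤
        ∑ k ∈ s', ∑ j ∈ s, if w ∈ P j then 2 * ‖dbar (fun w => (χ k w : ℂ)) w‖ * b j else 0 := by
  induction s' using Finset.induction_on with
  | empty =>
    intro _
    have hopen : IsOpen (⋃ j ∈ s, L j)ᶜ := by
      refine (Set.Finite.isClosed_biUnion s.finite_toSet fun j hj => hL j hj).isOpen_compl
    refine ⟨Ψ, fun w hw => ?_, fun w => ?_, fun w hw => ?_⟩
    · have hw' : w ∈ (⋃ j ∈ s, L j)ᶜ := by
        simp only [mem_compl_iff, mem_iUnion, not_exists]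
        exact fun j hj => hw j hj (Finset.notMem_empty j)
      have h2 : AnalyticAt ℂ Ψ w := hd.analyticAt (hopen.mem_nhds hw')
      exact h2.contDiffAt.restrict_scalars ℝ
    · simp
    · have hw' : w ∈ (⋃ j ∈ s, L j)ᶜ := by
        simp only [mem_compl_iff, mem_iUnion, not_exists]
        exact fun j hj => hw j hj (Finset.notMem_empty j)
      rw [dbar_of_complex (hd.differentiableAt (hopen.mem_nhds hw'))]
      simp
  | insert k s' hk ih =>
    intro hs
    have hks : k ∈ s := hs (Finset.mem_insert_self k s')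
    obtain ⟨Θ, hΘ1, hΘ2, hΘ3⟩ := ih fun j hj => hs (Finset.mem_insert_of_mem hj)
    have hnn : ∀ w, ∀ j ∈ s, (0 : ℝ) ≤ if w ∈ P j then b j else 0 := by
      intro w j hj
      split_ifs
      · exact hb j hj
      · exact le_rfl
    have hχc : ContDiff ℝ 1 (fun w => (χ k w : ℂ)) := ofRealCLM.contDiff.comp (hχ k hks)
    -- points outside of `L k`
    have hout : ∀ w, (∀ j ∈ s, j ∉ insert k s' → w ∉ L j) → w ∉ L k →
        (∀ j ∈ s, j ∉ s' → w ∉ L j) := by
      intro w hw hwk j hj hjs'
      by_cases hjk : j = k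
      · rw [hjk]
        exact hwk
      · exact hw j hj (by simp [hjk, hjs'])
    -- points of `L k`
    have hin : ∀ w ∈ L k, (fun w => (1 - (χ k w : ℂ)) * Θ w + (χ k w : ℂ) * m k) =ᶠ[𝓝 w]
        fun _ => m k := by
      intro w hw
      filter_upwards [h1 k hks w hw] with x hx
      rw [hx]
      simp
    refine ⟨fun w => (1 - (χ k w : ℂ)) * Θ w + (χ k w : ℂ) * m k, fun w hw => ?_, fun w => ?_,
      fun w hw => ?_⟩
    · by_cases hwk : w ∈ L k
      · exact contDiffAt_const.congr_of_eventuallyEq (hin w hwk)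
      · have h2 := hΘ1 w (hout w hw hwk)
        exact ((contDiffAt_const.sub hχc.contDiffAt).mul h2).add
          (hχc.contDiffAt.mul contDiffAt_const)
    · have h3 : (1 - (χ k w : ℂ)) * Θ w + (χ k w : ℂ) * m k - Ψ w =
          ((1 - χ k w : ℝ) : ℂ) * (Θ w - Ψ w) + (χ k w : ℂ) * (m k - Ψ w) := by
        push_cast
        ring
      have h4 := h01 k hks w
      rw [Finset.sum_insert hk, h3]
      refine (norm_add_le _ _).trans ?_
      rw [norm_mul, norm_mul, Complex.norm_real, Complex.norm_real, Real.norm_of_nonneg h4.1,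
        Real.norm_of_nonneg (by linarith [h4.2])]
      have h5 : χ k w * ‖m k - Ψ w‖ ≤ if w ∈ P k then b k else 0 := by
        split_ifs with hw
        · calc χ k w * ‖m k - Ψ w‖ ≤ 1 * ‖m k - Ψ w‖ :=
                mul_le_mul_of_nonneg_right h4.2 (norm_nonneg _)
            _ ≤ b k := by
                rw [one_mul]
                exact hm k hks w hw
        · rw [h0 k hks w hw, zero_mul]
      have h6 : (1 - χ k w) * ‖Θ w - Ψ w‖ ≤ ‖Θ w - Ψ w‖ :=
        mul_le_of_le_one_left (norm_nonneg _) (by linarith [h4.1])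
      linarith [hΘ2 w]
    · have hnn2 : ∀ k' ∈ insert k s', (0 : ℝ) ≤ ∑ j ∈ s,
          if w ∈ P j then 2 * ‖dbar (fun w => (χ k' w : ℂ)) w‖ * b j else 0 := by
        intro k' _
        refine Finset.sum_nonneg fun j hj => ?_
        split_ifs
        · exact mul_nonneg (mul_nonneg zero_le_two (norm_nonneg _)) (hb j hj)
        · exact le_rfl
      by_cases hwk : w ∈ L k
      · rw [dbar_congr (hin w hwk), dbar_const, norm_zero]
        exact Finset.sum_nonneg hnn2
      · have h2 := hΘ1 w (hout w hw hwk)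
        have hdΘ : DifferentiableAt ℝ Θ w := h2.differentiableAt (by simp)
        have hdχ : DifferentiableAt ℝ (fun w => (χ k w : ℂ)) w :=
          hχc.contDiffAt.differentiableAt (by simp)
        have hd1 : DifferentiableAt ℝ (fun w => (1 - (χ k w : ℂ))) w :=
          (differentiableAt_const _).sub hdχ
        have h3 : dbar (fun w => (1 - (χ k w : ℂ)) * Θ w + (χ k w : ℂ) * m k) w =
            ((1 - χ k w : ℝ) : ℂ) * dbar Θ w +
              dbar (fun w => (χ k w : ℂ)) w * (m k - Θ w) := by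
          have e1 : DifferentiableAt ℝ (fun w => (1 - (χ k w : ℂ)) * Θ w) w := hd1.mul hdΘ
          have e2 : DifferentiableAt ℝ (fun w => (χ k w : ℂ) * m k) w :=
            hdχ.mul (differentiableAt_const _)
          have e3 : dbar (fun w => (1 - (χ k w : ℂ))) w = - dbar (fun w => (χ k w : ℂ)) w := by
            rw [dbar_sub (u := fun _ => (1 : ℂ)) (differentiableAt_const _) hdχ, dbar_const]
            ring
          have e4 : dbar (fun w => (χ k w : ℂ) * m k) w = dbar (fun w => (χ k w : ℂ)) w * m k := by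
            rw [dbar_mul (v := fun _ => m k) hdχ (differentiableAt_const _), dbar_const]
            ring
          rw [dbar_add e1 e2, dbar_mul (u := fun w => (1 - (χ k w : ℂ))) hd1 hdΘ, e3, e4]
          push_cast
          ring
        have h4 := h01 k hks w
        rw [Finset.sum_insert hk, h3]
        refine (norm_add_le _ _).trans ?_
        rw [norm_mul, norm_mul, Complex.norm_real, Real.norm_of_nonneg (by linarith [h4.2])]
        have h5 : (1 - χ k w) * ‖dbar Θ w‖ ≤ ‖dbar Θ w‖ :=
          mul_le_of_le_one_left (norm_nonneg _) (by linarith [h4.1])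
        have h6 : ‖dbar (fun w => (χ k w : ℂ)) w‖ * ‖m k - Θ w‖ ≤ ∑ j ∈ s,
            if w ∈ P j then 2 * ‖dbar (fun w => (χ k w : ℂ)) w‖ * b j else 0 := by
          by_cases hwP : w ∈ P k
          · have h7 : ‖m k - Θ w‖ ≤ ∑ j ∈ s, if w ∈ P j then b j else 0 := by
              have h8 : m k - Θ w = (m k - Ψ w) - (Θ w - Ψ w) := by ring
              rw [h8]
              refine (norm_sub_le _ _).trans ?_
              have h9 : ∑ j ∈ insert k s', (if w ∈ P j then b j else 0) ≤
                  ∑ j ∈ s, if w ∈ P j then b j else 0 :=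
                Finset.sum_le_sum_of_subset_of_nonneg hs fun j hj _ => hnn w j hj
              rw [Finset.sum_insert hk, if_pos hwP] at h9
              linarith [hΘ2 w, hm k hks w hwP]
            have h10 : (∑ j ∈ s, if w ∈ P j then
                2 * ‖dbar (fun w => (χ k w : ℂ)) w‖ * b j else 0) =
                2 * ‖dbar (fun w => (χ k w : ℂ)) w‖ * ∑ j ∈ s, if w ∈ P j then b j else 0 := by
              rw [Finset.mul_sum]
              refine Finset.sum_congr rfl fun j _ => ?_
              split_ifs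
              · rfl
              · rw [mul_zero]
            rw [h10]
            have h11 : (0 : ℝ) ≤ ∑ j ∈ s, if w ∈ P j then b j else 0 :=
              Finset.sum_nonneg fun j hj => hnn w j hj
            calc ‖dbar (fun w => (χ k w : ℂ)) w‖ * ‖m k - Θ w‖
                ≤ ‖dbar (fun w => (χ k w : ℂ)) w‖ * ∑ j ∈ s, (if w ∈ P j then b j else 0) :=
                  mul_le_mul_of_nonneg_left h7 (norm_nonneg _)
              _ ≤ 2 * ‖dbar (fun w => (χ k w : ℂ)) w‖ *
                    ∑ j ∈ s, if w ∈ P j then b j else 0 := by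
                  have := mul_nonneg (norm_nonneg (dbar (fun w => (χ k w : ℂ)) w)) h11
                  linarith
          · rw [hz k hks w hwP, norm_zero, zero_mul]
            refine Finset.sum_nonneg fun j hj => ?_
            split_ifs
            · simp
            · exact le_rfl
        linarith [hΘ3 w (hout w hw hwk)]

end MOD_aux

theorem t_MOD : S_MOD := by
  intro ι s L P Ψ χ m b _ hL hb hd hχ h01 h1 h0 hz hm
  obtain ⟨Θ, hΘ1, hΘ2, hΘ3⟩ := MOD_aux.ind ι s L P Ψ χ m b hL hb hd hχ h01 h1 h0 hz hm s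
    subset_rfl
  exact ⟨Θ, contDiff_iff_contDiffAt.2 fun w => hΘ1 w fun j hj hj' => absurd hj hj', hΘ2,
    fun w => hΘ3 w fun j hj hj' => absurd hj hj'⟩

end Pool.Agent.RGR
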