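import Pool.Agent.RGR.St

/-!
# Exponential polar coordinates
-/

set_option autoImplicit false

namespace Pool.Agent.RGR

open MeasureTheory Metric Set Filter Topology Complex
open scoped ContDiff Real ENNReal
open Pool.Agent.LibHelper41 Pool.Agent.LibHelper41.Remov

namespace POL_aux

theorem exp_image {δ R : ℝ} (hδ : 0 < δ) (hR : δ < R) :
    Real.exp '' Ioo (Real.log δ) (Real.log R) = Ioo δ R := by
  ext x
  constructor
  · rintro ⟨t, ht, rfl⟩
    exact ⟨(Real.log_lt_iff_lt_exp hδ).1 ht.1, (Real.lt_log_iff_exp_lt (hδ.trans hR)).1 ht.2⟩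
  · rintro ⟨h1, h2⟩
    have hx : 0 < x := hδ.trans h1
    exact ⟨Real.log x, ⟨Real.log_lt_log hδ h1, Real.log_lt_log hx h2⟩, Real.exp_log hx⟩

theorem cov (δ R : ℝ) (hδ : 0 < δ) (hR : δ < R) (H : ℝ → ℝ≥0∞) :
    ∫⁻ ρ in Ioo δ R, H ρ =
      ∫⁻ t in Ioo (Real.log δ) (Real.log R), ENNReal.ofReal (Real.exp t) * H (Real.exp t) := by
  have h := lintegral_image_eq_lintegral_abs_deriv_mul (s := Ioo (Real.log δ) (Real.log R))
    (f := Real.exp) (f' := Real.exp) measurableSet_Ioo
    (fun x _ => (Real.hasDerivAt_exp x).hasDerivWithinAt) Real.exp_injective.injOn H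
  rw [exp_image hδ hR] at h
  rw [h]
  refine lintegral_congr fun t => ?_
  rw [abs_of_pos (Real.exp_pos t)]

end POL_aux

open POL_aux in
theorem t_POL : S_POL := by
  intro h p δ R hh hδ hR
  have hA : MeasurableSet (Ann p δ R) := by
    have h1 : Measurable fun z : ℂ => ‖z - p‖ := by fun_prop
    exact (measurableSet_lt measurable_const h1).inter (measurableSet_lt h1 measurable_const)
  have hg : Measurable fun w : ℂ => (Ann p δ R).indicator h (p + w) :=
    (hh.indicator hA).comp (measurable_const.add measurable_id)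
  have e1 : ∫⁻ w in Ann p δ R, h w = ∫⁻ w, (Ann p δ R).indicator h (p + w) := by
    rw [← lintegral_indicator hA]
    exact (lintegral_add_left_eq_self (fun w => (Ann p δ R).indicator h w) p).symm
  have e2 := Complex.lintegral_comp_polarCoord_symm fun w => (Ann p δ R).indicator h (p + w)
  have hpm : Measurable fun q : ℝ × ℝ => Complex.polarCoord.symm q := by
    simp_rw [Complex.polarCoord_symm_apply]
    fun_prop
  have hF : Measurable fun q : ℝ × ℝ => ENNReal.ofReal q.1 •
      (Ann p δ R).indicator h (p + Complex.polarCoord.symm q) := by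
    simp_rw [smul_eq_mul]
    exact (measurable_fst.ennreal_ofReal).mul (hg.comp hpm)
  rw [e1, ← e2]
  rw [polarCoord_target, Measure.volume_eq_prod, ← Measure.prod_restrict,
    lintegral_prod _ hF.aemeasurable]
  have e3 : ∫⁻ ρ in Ioi (0 : ℝ), ∫⁻ θ in Ioo (-π) π, ENNReal.ofReal ρ •
      (Ann p δ R).indicator h (p + Complex.polarCoord.symm (ρ, θ)) =
      ∫⁻ ρ in Ioo δ R, ∫⁻ θ in Ioo (-π) π, ENNReal.ofReal ρ *
        h (p + Complex.polarCoord.symm (ρ, θ)) := by
    have e4 : Ioo δ R = Ioo δ R ∩ Ioi 0 := by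
      refine (inter_eq_left.2 fun x hx => ?_).symm
      exact hδ.trans hx.1
    rw [e4, ← setLIntegral_indicator measurableSet_Ioo]
    refine setLIntegral_congr_fun measurableSet_Ioi fun ρ hρ => ?_
    have hρ' : (0 : ℝ) < ρ := hρ
    have e5 : ∀ θ : ℝ, ‖p + Complex.polarCoord.symm (ρ, θ) - p‖ = ρ := by
      intro θ
      rw [add_sub_cancel_left, Complex.norm_polarCoord_symm]
      exact abs_of_pos hρ'
    by_cases hm : ρ ∈ Ioo δ R
    · simp only [indicator_of_mem hm]
      refine lintegral_congr fun θ => ?_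
      rw [indicator_of_mem, smul_eq_mul]
      refine ⟨?_, ?_⟩
      · rw [e5]; exact hm.1
      · rw [e5]; exact hm.2
    · simp only [indicator_of_notMem hm]
      rw [show (0 : ℝ≥0∞) = ∫⁻ θ in Ioo (-π) π, 0 by simp]
      refine lintegral_congr fun θ => ?_
      rw [indicator_of_notMem, smul_zero]
      rintro ⟨h1, h2⟩
      rw [e5] at h1 h2
      exact hm ⟨h1, h2⟩
  rw [e3, cov δ R hδ hR]
  refine lintegral_congr fun t => ?_
  rw [← lintegral_const_mul' _ _ ENNReal.ofReal_ne_top]
  refine lintegral_congr fun θ => ?_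
  have e6 : Complex.polarCoord.symm (Real.exp t, θ) = cexp (t + θ * I) := by
    rw [Complex.polarCoord_symm_apply, Complex.exp_add, Complex.exp_mul_I]
    push_cast
    rfl
  rw [e6, ← mul_assoc, ← ENNReal.ofReal_mul (Real.exp_pos t).le, ← Real.exp_add, ← two_mul,
    mul_comm]

end Pool.Agent.RGR
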