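import Pool.Agent.RGR.Assemble
import Pool.Agent.Lib_helper41.Remov.Sobolev

/-!
# Rings around the point components of a circle domain (MP_42f34a_an)

Let `Ω` be a circle domain whose boundary Cantor sets are conformally removable. If `∂Ω` is not
removable there are homeomorphisms `F n`, holomorphic off `∂Ω` and not entire, such that
`NH (F (n+1)) ⊆ NH (F n) \ UU (1 + 1/(n+1)) (NH (F n)) (ε n)` (theorem `fin` on rings), and
`NH (F (n+1))` misses the `n`-th exceptional set and the `n`-th disc (localisation at a point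
component). A point in the intersection of the sets `NH (F n)` is a bad point component.
-/

set_option autoImplicit false

namespace Pool.Agent.RGR

open MeasureTheory Metric Set Filter Topology Complex
open scoped ContDiff Real ENNReal
open Pool.Agent.LibHelper41 Pool.Agent.LibHelper41.Remov

namespace PTR

/-- two complementary discs with a common point are equal -/
theorem balls_eq {Ω : Set ℂ} {B B' : Set ℂ} (hB : B ∈ Balls Ω) (hB' : B' ∈ Balls Ω) {z : ℂ}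
    (hz : z ∈ B) (hz' : z ∈ B') : B = B' := by
  obtain ⟨p, hp, hpB, -⟩ := hB
  obtain ⟨q, hq, hqB, -⟩ := hB'
  rw [← hpB] at hz
  rw [← hqB] at hz'
  rw [← hpB, ← hqB, connectedComponentIn_eq hz, connectedComponentIn_eq hz']

theorem balls_closed {Ω : Set ℂ} {B : Set ℂ} (hB : B ∈ Balls Ω) : IsClosed B := by
  obtain ⟨_, _, _, c, r, _, rfl⟩ := hB
  exact isClosed_closedBall

/-- a thick set meets infinitely many discs near each of its points -/
theorem thick_pt {Ω N : Set ℂ} (hN : Weld.Thick Ω N) {x : ℂ} (hx : x ∈ N) {U : Set ℂ}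
    (hU : IsOpen U) (hxU : x ∈ U) :
    {B : Set ℂ | B ∈ Balls Ω ∧ (N ∩ B ∩ U).Nonempty}.Infinite := by
  refine (hN x hx U hU hxU).mono ?_
  rintro B ⟨hB, hntd⟩
  refine ⟨hB, ?_⟩
  by_contra hemp
  rw [Set.not_nonempty_iff_eq_empty] at hemp
  refine hntd ?_
  rw [hemp]
  exact isTotallyDisconnected_empty

/-- the points of a closed thick set which are in no disc are dense -/
theorem exists_pt {Ω N : Set ℂ} (hNc : IsClosed N) (hN : Weld.Thick Ω N) {y : ℂ} (hy : y ∈ N)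
    {V : Set ℂ} (hV : IsOpen V) (hyV : y ∈ V) : ∃ x ∈ N ∩ V, ∀ B ∈ Balls Ω, x ∉ B := by
  have : CompleteSpace N := hNc.completeSpace_coe
  have hd : Dense (⋂ B ∈ Balls Ω, ((Subtype.val : N → ℂ) ⁻¹' B)ᶜ) := by
    refine dense_biInter_of_isOpen (fun B hB => ?_) (balls_countable Ω) (fun B hB => ?_)
    · exact ((balls_closed hB).preimage continuous_subtype_val).isOpen_compl
    · rw [dense_iff_inter_open]
      rintro O hO ⟨z, hz⟩
      obtain ⟨U, hU, rfl⟩ := isOpen_induced_iff.1 hO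
      obtain ⟨B', hB', hne⟩ := (thick_pt hN z.2 hU hz).exists_notMem_finite (Set.finite_singleton B)
      obtain ⟨hB'1, w, ⟨hwN, hwB⟩, hwU⟩ := hB'
      refine ⟨⟨w, hwN⟩, hwU, fun hwB' => hne ?_⟩
      exact balls_eq hB'1 hB hwB hwB'
  obtain ⟨x, hxV, hx⟩ := hd.inter_open_nonempty _ (hV.preimage continuous_subtype_val)
    ⟨⟨y, hy⟩, hyV⟩
  refine ⟨x, ⟨x.2, hxV⟩, fun B hB hxB => ?_⟩
  have h1 := mem_iInter₂.1 hx B hB
  exact h1 hxB

/-- clopen pieces around a component which is a point -/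
theorem clopen_piece {N : Set ℂ} (hN : IsCompact N) {x : ℂ} (hx : x ∈ N)
    (hc : connectedComponentIn N x = {x}) {V : Set ℂ} (hV : IsOpen V) (hxV : x ∈ V) :
    ∃ O : Set ℂ, IsOpen O ∧ O ⊆ V ∧ x ∈ O ∧ IsCompact (N ∩ O) := by
  have : CompactSpace N := isCompact_iff_compactSpace.1 hN
  have hcc : connectedComponent (⟨x, hx⟩ : N) = {⟨x, hx⟩} := by
    rw [connectedComponentIn_eq_image hx] at hc
    apply Set.Subset.antisymm
    · intro z hz
      have h1 : (z : ℂ) ∈ (Subtype.val '' connectedComponent (⟨x, hx⟩ : N) : Set ℂ) := ⟨z, hz, rfl⟩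
      rw [hc] at h1
      exact Subtype.ext h1
    · rintro z rfl
      exact mem_connectedComponent
  have : Nonempty {s : Set N // IsClopen s ∧ (⟨x, hx⟩ : N) ∈ s} := ⟨⟨univ, isClopen_univ, trivial⟩⟩
  have hdir : Directed (· ⊇ ·)
      (fun s : {s : Set N // IsClopen s ∧ (⟨x, hx⟩ : N) ∈ s} => (s : Set N)) := fun s t =>
    ⟨⟨s ∩ t, s.2.1.inter t.2.1, s.2.2, t.2.2⟩, inter_subset_left, inter_subset_right⟩
  have hU : ∀ z ∈ ⋂ s : {s : Set N // IsClopen s ∧ (⟨x, hx⟩ : N) ∈ s}, (s : Set N),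
      (Subtype.val : N → ℂ) ⁻¹' V ∈ 𝓝 z := by
    intro z hz
    rw [← connectedComponent_eq_iInter_isClopen, hcc] at hz
    rw [mem_singleton_iff.1 hz]
    exact (hV.preimage continuous_subtype_val).mem_nhds hxV
  obtain ⟨C, hC⟩ := exists_subset_nhds_of_isCompact' hdir
    (fun s => s.2.1.isClosed.isCompact) (fun s => s.2.1.isClosed) hU
  obtain ⟨O₁, hO₁, hOC⟩ := isOpen_induced_iff.1 C.2.1.isOpen
  refine ⟨O₁ ∩ V, hO₁.inter hV, inter_subset_right, ⟨?_, hxV⟩, ?_⟩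
  · have h1 : (⟨x, hx⟩ : N) ∈ (C : Set N) := C.2.2
    rw [← hOC] at h1
    exact h1
  · have h2 : N ∩ (O₁ ∩ V) = Subtype.val '' (C : Set N) := by
      ext z
      constructor
      · rintro ⟨h1, h2, h3⟩
        refine ⟨⟨z, h1⟩, ?_, rfl⟩
        rw [← hOC]
        exact h2
      · rintro ⟨w, hw, rfl⟩
        refine ⟨w.2, ?_, hC hw⟩
        rw [← hOC] at hw
        exact hw
    rw [h2]
    exact C.2.1.isClosed.isCompact.image continuous_subtype_val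

/-- The set of accumulation points of the boundary circles: every neighbourhood of `z` meets
infinitely many of the complementary discs. -/
def Lim (Ω : Set ℂ) : Set ℂ :=
  {z | ∀ U : Set ℂ, IsOpen U → z ∈ U → {B : Set ℂ | B ∈ Balls Ω ∧ (B ∩ U).Nonempty}.Infinite}

theorem thick_sub {Ω N : Set ℂ} (hN : Weld.Thick Ω N) : N ⊆ Lim Ω := fun x hx U hU hxU => by
  refine (thick_pt hN hx hU hxU).mono ?_
  rintro B ⟨h1, z, ⟨-, h2⟩, h3⟩
  exact ⟨h1, z, h2, h3⟩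

/-- The accumulation points of circles which lie on circles near `x` are in small discs with rings:
there is `Q > 1` such that for every `ε > 0` there is `δ > 0` such that every `y ∈ Lim Ω` with
`|y - x| < δ` which lies on a complementary disc is in a disc `|z - c| ≤ r`, `r ≤ ε`, whose ring
`r < |z - c| < Q r` contains no point of `Lim Ω`. -/
def RingPoint (Ω : Set ℂ) (x : ℂ) : Prop :=
  ∃ Q : ℝ, 1 < Q ∧ ∀ ε : ℝ, 0 < ε → ∃ δ : ℝ, 0 < δ ∧
    ∀ y ∈ Lim Ω, ‖y - x‖ < δ → (∃ B ∈ Balls Ω, y ∈ B) →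
      ∃ (c : ℂ) (r : ℝ), 0 < r ∧ r ≤ ε ∧ ‖y - c‖ ≤ r ∧
        ∀ z ∈ Lim Ω, ¬ (r < ‖z - c‖ ∧ ‖z - c‖ < Q * r)

theorem NH_sub {F : ℂ → ℂ} {E : Set ℂ} (hE : IsClosed E) (hF : DifferentiableOn ℂ F Eᶜ) :
    Weld.NH F ⊆ E := by
  intro z hz
  by_contra hcon
  exact Weld.not_NH_of_diff hE.isOpen_compl hF hcon hz

theorem diff_sub {F : ℂ → ℂ} {E : Set ℂ} (h : Weld.NH F ⊆ E) : DifferentiableOn ℂ F Eᶜ :=
  Weld.diff_of_not_NH fun _ hz hzN => hz (h hzN)

theorem NH_nonempty {F : ℂ → ℂ} (h : ¬ Differentiable ℂ F) : (Weld.NH F).Nonempty := by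
  by_contra hcon
  rw [Set.not_nonempty_iff_eq_empty] at hcon
  refine h fun z => ?_
  have h1 : z ∉ Weld.NH F := by rw [hcon]; exact notMem_empty z
  exact (not_not.1 h1).differentiableAt

/-- the hypotheses on the domain -/
structure CD (Ω : Set ℂ) : Prop where
  op : IsOpen Ω
  bd : Bornology.IsBounded Ωᶜ
  comp : ∀ x ∈ Ωᶜ, connectedComponentIn Ωᶜ x = {x} ∨
    ∃ c : ℂ, ∃ r : ℝ, 0 < r ∧ connectedComponentIn Ωᶜ x = closedBall c r
  can : ∀ K : Set ℂ, K ⊆ frontier Ω → K.Nonempty → IsCompact K → Perfect K →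
    IsTotallyDisconnected K →
    ∀ f : ℂ ≃ₜ ℂ, DifferentiableOn ℂ (⇑f) Kᶜ → Differentiable ℂ (⇑f)

namespace CD

variable {Ω : Set ℂ} (h : CD Ω)
include h

theorem sub : frontier Ω ⊆ Ωᶜ := fun x hx hxΩ => by
  rw [h.op.frontier_eq] at hx
  exact hx.2 hxΩ

theorem compact_of_sub {N : Set ℂ} (hN : IsClosed N) (hs : N ⊆ frontier Ω) : IsCompact N :=
  Metric.isCompact_of_isClosed_isBounded hN (h.bd.subset (hs.trans h.sub))

theorem thick {F : ℂ ≃ₜ ℂ} (hF : DifferentiableOn ℂ F (frontier Ω)ᶜ) :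
    Weld.Thick Ω (Weld.NH F) := Weld.NH_thick h.op h.comp h.can hF

/-- a boundary point in no disc is a point component -/
theorem comp_pt {x : ℂ} (hx : x ∈ Ωᶜ) (hB : ∀ B ∈ Balls Ω, x ∉ B) :
    connectedComponentIn Ωᶜ x = {x} := by
  rcases h.comp x hx with h1 | ⟨c, r, hr, h1⟩
  · exact h1
  · exact absurd (mem_connectedComponentIn hx) (hB _ ⟨x, hx, rfl, c, r, hr, h1⟩)

/-- one step -/
theorem step (F : ℂ ≃ₜ ℂ) (hF : DifferentiableOn ℂ F (frontier Ω)ᶜ)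
    (hn : ¬ Differentiable ℂ F) (Q : ℝ) (hQ : 1 < Q) (Z D : Set ℂ) (hZ : IsClosed Z)
    (hZr : Rm Z) :
    ∃ G : ℂ ≃ₜ ℂ, DifferentiableOn ℂ G (frontier Ω)ᶜ ∧ ¬ Differentiable ℂ G ∧
      (∃ ε : ℝ, 0 < ε ∧ Weld.NH G ⊆ Weld.NH F \ UU Q (Weld.NH F) ε) ∧
      Disjoint (Weld.NH G) Z ∧ (D ∈ Balls Ω → Disjoint (Weld.NH G) D) := by
  have hFs : Weld.NH F ⊆ frontier Ω := NH_sub isClosed_frontier hF
  have hFc : IsCompact (Weld.NH F) := h.compact_of_sub (Weld.NH_closed F) hFs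
  -- the theorem on rings
  have h1 : ¬ Rm (Weld.NH F) := fun hr => hn (hr F (diff_sub Subset.rfl))
  have h2 : ∃ ε : ℝ, 0 < ε ∧ ¬ Rm (Weld.NH F \ UU Q (Weld.NH F) ε) := by
    by_contra hcon
    push Not at hcon
    exact h1 (fin (Weld.NH F) Q hFc hQ hcon)
  obtain ⟨ε, hε, h3⟩ := h2
  unfold Rm at h3
  push Not at h3
  obtain ⟨G, hG, hGn⟩ := h3
  have hcl : IsClosed (Weld.NH F \ UU Q (Weld.NH F) ε) :=
    (Weld.NH_closed F).sdiff (CIR_aux.isOpen_UU Q _ ε)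
  have hGs : Weld.NH G ⊆ Weld.NH F \ UU Q (Weld.NH F) ε := NH_sub hcl hG
  have hGf : Weld.NH G ⊆ frontier Ω := hGs.trans (sdiff_subset.trans hFs)
  have hGd : DifferentiableOn ℂ G (frontier Ω)ᶜ := diff_sub hGf
  have hGc : IsCompact (Weld.NH G) := h.compact_of_sub (Weld.NH_closed G) hGf
  have hGt := h.thick hGd
  -- a point component outside of `Z`
  have h4 : ∃ y ∈ Weld.NH G, y ∉ Z := by
    by_contra hcon
    push Not at hcon
    exact hGn (hZr G (diff_sub hcon))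
  obtain ⟨y, hyG, hyZ⟩ := h4
  obtain ⟨x, ⟨hxG, hxZ⟩, hxB⟩ := exists_pt (Weld.NH_closed G) hGt hyG hZ.isOpen_compl hyZ
  have hxΩ : x ∈ Ωᶜ := h.sub (hGf hxG)
  have hxc : connectedComponentIn (Weld.NH G) x = {x} := by
    apply Set.Subset.antisymm
    · rw [← h.comp_pt hxΩ hxB]
      exact connectedComponentIn_mono x (hGf.trans h.sub)
    · rw [singleton_subset_iff]
      exact mem_connectedComponentIn hxG
  -- the piece
  classical
  obtain ⟨D', hD'⟩ : ∃ D' : Set ℂ, D' = if D ∈ Balls Ω then D else ∅ := ⟨_, rfl⟩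
  have hD'c : IsClosed D' := by
    rw [hD']
    split_ifs with h5
    · exact balls_closed h5
    · exact isClosed_empty
  have hxD : x ∉ D' := by
    rw [hD']
    split_ifs with h5
    · exact hxB D h5
    · exact notMem_empty x
  obtain ⟨O, hO, hOV, hxO, hK⟩ := clopen_piece hGc hxG hxc
    (hZ.union hD'c).isOpen_compl (fun hx => hx.elim hxZ hxD)
  have hGO : DifferentiableOn ℂ G (O \ (Weld.NH G ∩ O)) :=
    Weld.diff_of_not_NH fun z hz hzN => hz.2 ⟨hzN, hz.1⟩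
  have h6 : ¬ ∀ H : ℂ ≃ₜ ℂ, DifferentiableOn ℂ H (Weld.NH G ∩ O)ᶜ → Differentiable ℂ H := by
    intro hrem
    have h7 := Weld.localise G hK hO inter_subset_right hGO hrem
    exact Weld.not_NH_of_diff hO h7 hxO hxG
  push Not at h6
  obtain ⟨H, hH, hHn⟩ := h6
  have hHs : Weld.NH H ⊆ Weld.NH G ∩ O := NH_sub hK.isClosed hH
  refine ⟨H, diff_sub (hHs.trans (inter_subset_left.trans hGf)), hHn,
    ⟨ε, hε, hHs.trans (inter_subset_left.trans hGs)⟩, ?_, ?_⟩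
  · rw [Set.disjoint_left]
    intro z hz hzZ
    exact hOV (hHs hz).2 (Or.inl hzZ)
  · intro hD
    rw [Set.disjoint_left]
    intro z hz hzD
    refine hOV (hHs hz).2 (Or.inr ?_)
    rw [hD', if_pos hD]
    exact hzD

/-- the alternative with Sobolev functions -/
theorem sob (F : ℂ ≃ₜ ℂ) (hF : DifferentiableOn ℂ F (frontier Ω)ᶜ) {x : ℂ}
    (hx : x ∈ Weld.NH F) {V : Set ℂ} (hV : IsOpen V) (hxV : x ∈ V)
    (hW : ∀ K : Set ℂ, K ⊆ frontier Ω ∩ Lim Ω ∩ V → K.Nonempty → IsCompact K → Perfect K →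
      IsTotallyDisconnected K → (∀ y ∈ K, connectedComponentIn Ωᶜ y = {y}) → Rem K) : False := by
  have hNf : Weld.NH F ⊆ frontier Ω := NH_sub isClosed_frontier hF
  obtain ⟨ε₀, hε₀, hεV⟩ := Metric.isOpen_iff.1 hV x hxV
  have hcb : closedBall x (ε₀ / 2) ⊆ V := (closedBall_subset_ball (by linarith)).trans hεV
  have hEc : IsCompact (Weld.NH F ∩ closedBall x (ε₀ / 2)) :=
    (isCompact_closedBall _ _).inter_left (Weld.NH_closed F)
  obtain ⟨hE0, hER⟩ := circle_rem_sub h.op hEc (inter_subset_left.trans hNf) h.comp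
    fun K hKE h1 h2 h3 h4 h5 =>
      hW K (hKE.trans (inter_subset_inter
        (fun y hy => ⟨hNf hy, thick_sub (h.thick hF) hy⟩) hcb)) h1 h2 h3 h4 h5
  have hd : DifferentiableOn ℂ F (ball x (ε₀ / 2) \ (Weld.NH F ∩ closedBall x (ε₀ / 2))) :=
    Weld.diff_of_not_NH fun z hz hzN => hz.2 ⟨hzN, ball_subset_closedBall hz.1⟩
  have hres := conf_local hEc hE0 hER isOpen_ball F hd
  exact Weld.not_NH_of_diff isOpen_ball hres (mem_ball_self (half_pos hε₀)) hx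

end CD

/-- **Theorem.** -/
theorem main {Ω : Set ℂ} (h : CD Ω) (Z : ℕ → Set ℂ) (hZ : ∀ n, IsClosed (Z n))
    (hZr : ∀ n, Rm (Z n))
    (hx : ∀ x ∈ frontier Ω, connectedComponentIn Ωᶜ x = {x} → (∀ n, x ∉ Z n) →
      RingPoint Ω x ∨ ∃ V : Set ℂ, IsOpen V ∧ x ∈ V ∧
        ∀ K : Set ℂ, K ⊆ frontier Ω ∩ Lim Ω ∩ V → K.Nonempty → IsCompact K → Perfect K →
          IsTotallyDisconnected K → (∀ y ∈ K, connectedComponentIn Ωᶜ y = {y}) → Rem K) :
    Rm (frontier Ω) := by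
  classical
  intro f hf
  by_contra hn
  obtain ⟨e, he⟩ := Set.countable_iff_exists_subset_range.1 (balls_countable Ω)
  -- the sequence of homeomorphisms
  have hstep : ∀ (n : ℕ) (F : {F : ℂ ≃ₜ ℂ // DifferentiableOn ℂ F (frontier Ω)ᶜ ∧
      ¬ Differentiable ℂ F}), ∃ G : {F : ℂ ≃ₜ ℂ // DifferentiableOn ℂ F (frontier Ω)ᶜ ∧
      ¬ Differentiable ℂ F},
      (∃ ε : ℝ, 0 < ε ∧ Weld.NH G.1 ⊆ Weld.NH F.1 \
        UU (1 + 1 / ((n : ℝ) + 1)) (Weld.NH F.1) ε) ∧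
      Disjoint (Weld.NH G.1) (Z n) ∧ (e n ∈ Balls Ω → Disjoint (Weld.NH G.1) (e n)) := by
    intro n F
    have h1 : (1 : ℝ) < 1 + 1 / ((n : ℝ) + 1) := by
      have : (0 : ℝ) < 1 / ((n : ℝ) + 1) := by positivity
      linarith
    obtain ⟨G, hG, hGn, h2, h3, h4⟩ := h.step F.1 F.2.1 F.2.2 _ h1 (Z n) (e n) (hZ n) (hZr n)
    exact ⟨⟨G, hG, hGn⟩, h2, h3, h4⟩
  choose g hg using hstep
  obtain ⟨F, hF0, hFs⟩ : ∃ F : ℕ → {F : ℂ ≃ₜ ℂ // DifferentiableOn ℂ F (frontier Ω)ᶜ ∧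
      ¬ Differentiable ℂ F}, F 0 = ⟨f, hf, hn⟩ ∧ ∀ n, F (n + 1) = g n (F n) :=
    ⟨fun n => Nat.rec ⟨f, hf, hn⟩ (fun n G => g n G) n, rfl, fun n => rfl⟩
  have hP : ∀ n, (∃ ε : ℝ, 0 < ε ∧ Weld.NH (F (n + 1)).1 ⊆ Weld.NH (F n).1 \
        UU (1 + 1 / ((n : ℝ) + 1)) (Weld.NH (F n).1) ε) ∧
      Disjoint (Weld.NH (F (n + 1)).1) (Z n) ∧
      (e n ∈ Balls Ω → Disjoint (Weld.NH (F (n + 1)).1) (e n)) := by
    intro n
    rw [hFs n]
    exact hg n (F n)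
  have hNs : ∀ n, Weld.NH (F n).1 ⊆ frontier Ω := fun n =>
    NH_sub isClosed_frontier (F n).2.1
  have hT : ∀ n, Weld.Thick Ω (Weld.NH (F n).1) := fun n => h.thick (F n).2.1
  obtain ⟨x, hxN⟩ : (⋂ n, Weld.NH (F n).1).Nonempty := by
    refine IsCompact.nonempty_iInter_of_sequence_nonempty_isCompact_isClosed _ (fun n => ?_)
      (fun n => NH_nonempty (F n).2.2)
      (h.compact_of_sub (Weld.NH_closed _) (hNs 0)) (fun n => Weld.NH_closed _)
    obtain ⟨⟨ε, -, h1⟩, -⟩ := hP n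
    exact h1.trans sdiff_subset
  have hxn : ∀ n, x ∈ Weld.NH (F n).1 := fun n => mem_iInter.1 hxN n
  have hxf : x ∈ frontier Ω := hNs 0 (hxn 0)
  have hxB : ∀ B ∈ Balls Ω, x ∉ B := by
    intro B hB hxB
    obtain ⟨n, hn⟩ := he hB
    rw [← hn] at hB hxB
    exact Set.disjoint_left.1 ((hP n).2.2 hB) (hxn (n + 1)) hxB
  have hxZ : ∀ n, x ∉ Z n := fun n hxZ =>
    Set.disjoint_left.1 (hP n).2.1 (hxn (n + 1)) hxZ
  rcases hx x hxf (h.comp_pt (h.sub hxf) hxB) hxZ with ⟨Q, hQ, hR⟩ | ⟨V, hV, hxV, hW⟩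
  · -- rings
    obtain ⟨s, hs1, hs4⟩ : ∃ s : ℝ, 1 < s ∧ s ^ 4 = Q := by
      refine ⟨√(√Q), ?_, ?_⟩
      · rw [Real.lt_sqrt zero_le_one, one_pow, Real.lt_sqrt zero_le_one, one_pow]
        exact hQ
      · have h1 : √(√Q) ^ 2 = √Q := Real.sq_sqrt (Real.sqrt_nonneg Q)
        have h2 : √Q ^ 2 = Q := Real.sq_sqrt (by linarith)
        calc √(√Q) ^ 4 = (√(√Q) ^ 2) ^ 2 := by ring
          _ = Q := by rw [h1, h2]
    have hs0 : 0 < s := by linarith
    have hs2 : 0 < s ^ 2 - 1 := by nlinarith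
    obtain ⟨n, hn⟩ := exists_nat_one_div_lt hs2
    have hQn : 1 + 1 / ((n : ℝ) + 1) ≤ s ^ 2 := by linarith
    obtain ⟨⟨ε, hε, hNε⟩, -⟩ := hP n
    obtain ⟨δ, hδ, hδB⟩ := hR (ε / s) (div_pos hε hs0)
    obtain ⟨B, hB, w, ⟨hwN, hwB⟩, hwδ⟩ :=
      (thick_pt (hT (n + 1)) (hxn (n + 1)) isOpen_ball (mem_ball_self hδ)).nonempty
    rw [mem_ball, dist_eq_norm] at hwδ
    obtain ⟨c, r, hr, hrε, hwc, hfree⟩ := hδB w (thick_sub (hT (n + 1)) hwN) hwδ ⟨B, hB, hwB⟩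
    refine (hNε hwN).2 ⟨c, s * r, by positivity, ?_, ?_, ?_⟩
    · rw [le_div_iff₀ hs0] at hrε
      linarith
    · rw [Set.disjoint_left]
      rintro z ⟨hz1, hz2⟩ hzN
      rw [mem_closedBall, dist_eq_norm] at hz1
      rw [mem_ball, dist_eq_norm, not_lt] at hz2
      refine hfree z (thick_sub (hT n) hzN) ⟨?_, ?_⟩
      · nlinarith
      · have h1 : (1 + 1 / ((n : ℝ) + 1)) * (s * r) ≤ s ^ 2 * (s * r) :=
          mul_le_mul_of_nonneg_right hQn (by positivity)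
        have h2 : s ^ 2 * (s * r) < s ^ 2 * (s * r) * s :=
          lt_mul_of_one_lt_right (by positivity) hs1
        have h3 : s ^ 2 * (s * r) * s = Q * r := by rw [← hs4]; ring
        linarith
    · rw [mem_ball, dist_eq_norm]
      nlinarith
  · exact h.sob (F 0).1 (F 0).2.1 (hxn 0) hV hxV hW

end PTR

end Pool.Agent.RGR
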