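import Pool.Agent.RGR.B

/-!
# Rings and conformal removability: definitions and statements of the modules

Target (MP_42f34a_an). Let `E ⊆ ℂ` be compact, `Q > 1`, and let `UU Q E ε` be the union of the discs `B(c,r)`,
`r ≤ ε`, whose closed ring `r ≤ |z-c| ≤ Q r` misses `E`. If `E \ UU Q E ε` is conformally removable for
every `ε > 0` then `E` is conformally removable.

Every `def S_X : Prop` is the statement of a module: the file `Pool/Agent/RGR/X.lean` proves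
`theorem t_X : S_X`, or `theorem t_X : S_Y → … → S_X` with the hypotheses named in the doc-string. The
doc-string contains the complete proof. Proved lemmas for everybody are in `Pool/Agent/RGR/B.lean`.

Plan. `f : ℂ ≃ₜ ℂ` is holomorphic off `E`. For `0 < ε ≤ 1` module SEL chooses discs `B(c_j, r_j)` which cover
`E ∩ UU Q E ε`, have rings of ratio `q = √Q`, and at most `N = N(Q)` neighbours. For finitely many `j ∈ s`, GLU and NRM
give a homeomorphism `F = F_s` of `ℂ`, holomorphic off `E \ ⋃_{j ∈ s} B(c_j, r_j)`, such that `F ∘ f⁻¹` is holomorphic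
off `⋃_{j ∈ s} f (B̄(c_j, r_j))`. The length-area inequality MN (with jumps over the sets `f (B̄(c_j, r_j))`) shows
that the maps `F_s` are equicontinuous (EQ) and uniformly injective (IN). So they converge (along an
ultrafilter) to a homeomorphism (LC, LI, LH), holomorphic off `E \ ⋃_j B(c_j, r_j) ⊆ E \ UU Q E ε`, hence
`z ↦ α z` (AF). WK bounds `∫ F_s ∘ f⁻¹ ∂̄φ` by the area of the image of the rings, so
`|∫ f⁻¹ ∂̄φ|² ≤ C area (f (rings))` (ONE), and this tends to `0` with `ε` (FIN); Weyl's lemma ends the proof.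
-/

set_option autoImplicit false

namespace Pool.Agent.RGR

open MeasureTheory Metric Set Filter Topology Complex
open scoped ContDiff Real ENNReal
open Pool.Agent.LibHelper41 Pool.Agent.LibHelper41.Remov

/-! ## Definitions -/

/-- `K` is removable for homeomorphisms of the plane. -/
def Rm (K : Set ℂ) : Prop := ∀ F : ℂ ≃ₜ ℂ, DifferentiableOn ℂ F Kᶜ → Differentiable ℂ F

/-- The open annulus. -/
def Ann (c : ℂ) (a b : ℝ) : Set ℂ := {z | a < ‖z - c‖ ∧ ‖z - c‖ < b}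

/-- The union of the discs `B(c,r)`, `r ≤ ε`, whose ring `r ≤ |z-c| ≤ Q r` misses `E`. -/
def UU (Q : ℝ) (E : Set ℂ) (ε : ℝ) : Set ℂ :=
  {z | ∃ (c : ℂ) (r : ℝ), 0 < r ∧ r ≤ ε ∧ Disjoint (closedBall c (Q * r) \ ball c r) E ∧
    z ∈ ball c r}

/-- The set of the `t = log ρ`, `δ < ρ < R`, such that the circle `|w - p| = ρ` meets `L`. -/
def TT (L : Set ℂ) (p : ℂ) (δ R : ℝ) : Set ℝ :=
  {t | t ∈ Ioo (Real.log δ) (Real.log R) ∧ ∃ w ∈ L, ‖w - p‖ = Real.exp t}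

/-- The image of every circle `|w - p| = ρ`, `δ < ρ < R`, under `g` is large: there is a function
`ψ`, Lipschitz with constant `1`, smooth on an open set `V' ⊆ V`, such that the image under `ψ` of
the part in `V'` has measure at least `D`. -/
def Cross (g : ℂ → ℂ) (p : ℂ) (δ R : ℝ) (V : Set ℂ) (D : ℝ≥0∞) : Prop :=
  ∀ ρ ∈ Ioo δ R, ∃ (ψ : ℂ → ℝ) (V' : Set ℂ), LipschitzWith 1 ψ ∧ IsOpen V' ∧ V' ⊆ V ∧
    DifferentiableOn ℝ ψ V' ∧ D ≤ volume (ψ '' (V' ∩ g '' sphere p ρ))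

/-- The normalisation of the maps. -/
structure Nrm (R₁ : ℝ) (F : ℂ → ℂ) : Prop where
  zero : F 0 = 0
  le_one : ∀ z, ‖z‖ ≤ R₁ → ‖F z‖ ≤ 1
  eq_one : ∃ z, ‖z‖ ≤ R₁ ∧ ‖F z‖ = 1
  up : ∀ z, R₁ ≤ ‖z‖ → ‖F z‖ ≤ ‖z‖ / R₁
  low : ∀ m : ℝ, 0 ≤ m → (∀ z, ‖z‖ = R₁ → m ≤ ‖F z‖) → ∀ z, R₁ ≤ ‖z‖ → m * (‖z‖ / R₁) ≤ ‖F z‖

/-- A family of discs with rings of ratio `q` off `E`, every disc with at most `N` neighbours. -/
structure Rings {ι : Type} (q R₁ : ℝ) (N : ℕ) (E : Set ℂ) (c : ι → ℂ) (r : ι → ℝ) : Prop where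
  q1 : 1 < q
  R1 : 0 < R₁
  cpt : IsCompact E
  sub : E ⊆ ball 0 R₁
  pos : ∀ j, 0 < r j
  inb : ∀ j, closedBall (c j) (q * r j) ⊆ ball 0 R₁
  nb : ∀ j, {k | ¬ Disjoint (closedBall (c j) (q * r j))
    (closedBall (c k) (q * r k))}.encard ≤ N
  off : ∀ j, Disjoint (closedBall (c j) (q * r j) \ ball (c j) (r j)) E

/-- The properties of the glued maps. -/
structure Good {ι : Type} (f : ℂ ≃ₜ ℂ) (E : Set ℂ) (R₁ : ℝ) (c : ι → ℂ) (r : ι → ℝ)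
    (s : Finset ι) (F : ℂ ≃ₜ ℂ) : Prop where
  nrm : Nrm R₁ F
  hol : DifferentiableOn ℂ F (E \ ⋃ j ∈ s, ball (c j) (r j))ᶜ
  glue : DifferentiableOn ℂ (fun w => F (f.symm w)) (⋃ j ∈ s, f '' closedBall (c j) (r j))ᶜ

/-! ## Block A: length-area -/

/-- **POL** (no hypotheses). Exponential polar coordinates.
Proof. `Complex.lintegral_comp_polarCoord_symm` for the function `(Ann p δ R).indicator h` translated by `p`
(`lintegral_add_left_eq_self`): `∫⁻ h = ∫⁻ (ρ, θ) in Ioi 0 ×ˢ Ioo (-π) π, ofReal ρ * …`, Tonelli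
(`lintegral_prod`, `setLIntegral_prod`), only `δ < ρ < R` counts, and the substitution `ρ = e^t`
(`lintegral_image_eq_lintegral_abs_deriv_mul` for `Real.exp` on `Ioo (log δ) (log R)`); `ρ dρ = e^{2t} dt`;
`Complex.polarCoord_symm_apply`, `Complex.exp_add`, `Complex.exp_mul_I`. -/
def S_POL : Prop := ∀ (h : ℂ → ℝ≥0∞) (p : ℂ) (δ R : ℝ), Measurable h → 0 < δ → δ < R →
  ∫⁻ t in Ioo (Real.log δ) (Real.log R), ∫⁻ θ in Ioo (-π) π,
    h (p + cexp (t + θ * I)) * ENNReal.ofReal (Real.exp (2 * t)) = ∫⁻ w in Ann p δ R, h w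

/-- **PCS** (from `S_POL`). Cauchy-Schwarz in polar coordinates.
Proof. First part: `S_POL` for `h w = (‖w - p‖ₑ⁻¹)^2`: the integrand is `e^{-2t} e^{2t} = 1`, and the rectangle has
area `2π (log R - log δ)`. Second part: Cauchy-Schwarz (`ENNReal.lintegral_mul_le_Lp_mul_Lq` with `p = q = 2` on the
product measure, or twice) for `1 * (k e^t)`: `(∫∫ k e^t)^2 ≤ 2π log (R/δ) * ∫∫ k² e^{2t}`, and `S_POL` for `k²`. -/
def S_PCS : Prop :=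
  (∀ (p : ℂ) (δ R : ℝ), 0 < δ → δ < R →
    ∫⁻ w in Ann p δ R, (‖w - p‖ₑ⁻¹) ^ 2 = ENNReal.ofReal (2 * π * Real.log (R / δ))) ∧
  ∀ (k : ℂ → ℝ≥0∞) (p : ℂ) (δ R : ℝ), Measurable k → 0 < δ → δ < R →
    (∫⁻ t in Ioo (Real.log δ) (Real.log R), ∫⁻ θ in Ioo (-π) π,
      k (p + cexp (t + θ * I)) * ENNReal.ofReal (Real.exp t)) ^ 2 ≤
    ENNReal.ofReal (2 * π * Real.log (R / δ)) * ∫⁻ w in Ann p δ R, k w ^ 2

/-- **RL** (from `S_PCS`). The ring lemma.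
Proof. Let `t ∈ (log r, log (q r))`, `s = e^t`, `S = {θ ∈ (-π, π] | G (c + e^{t+iθ}) ∈ V}`. The sphere is
`{c + e^{t+iθ} | θ ∈ (-π, π]}`, so `T ⊆ u '' S`, `u θ = φ (G (c + e^{t+iθ}))`, and by `vol_circ` (file `B.lean`)
`volume T ≤ ∫⁻ θ in S, k (G z) ‖G' z‖ e^t ≤ ∫⁻ θ in Ioo (-π) π, K (c + e^{t+iθ}) e^t`, with
`K z = if G z ∈ V then k (G z) * ‖deriv G z‖ₑ else 0`, measurable (`measurable_deriv`); the point `θ = π` has measure
`0`. Integrate over `t`: `volume T * log q ≤ ∫∫`, (constant function: no measurability needed), and by `S_PCS` (second part, centre `c`)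
`(volume T * log q)^2 ≤ 2π log q * ∫⁻ z in Ann c r (q r), K z ^ 2`. The last integral is over
`S' = Ann c r (q r) ∩ G⁻¹ V`, equal to `∫⁻ w in G '' S', k w ^ 2` by `lintegral_cv` (`B.lean`), and
`G '' S' = V ∩ G '' Ann c r (q r)`. Cancel one `ofReal (log q)` (positive and finite). -/
def S_RL : Prop := ∀ (G : ℂ ≃ₜ ℂ) (c : ℂ) (r q : ℝ) (V : Set ℂ) (φ : ℂ → ℝ) (k : ℂ → ℝ≥0∞)
  (T : Set ℝ), 0 < r → 1 < q → DifferentiableOn ℂ G (Ann c r (q * r)) → IsOpen V → Measurable k →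
  DifferentiableOn ℝ φ V → (∀ w ∈ V, ‖fderiv ℝ φ w‖ₑ ≤ k w) →
  (∀ s ∈ Ioo r (q * r), T ⊆ φ '' (V ∩ G '' sphere c s)) →
  volume T ^ 2 * ENNReal.ofReal (Real.log q) ≤
    ENNReal.ofReal (2 * π) * ∫⁻ w in V ∩ G '' Ann c r (q * r), k w ^ 2

/-- **TOP** (no hypotheses). The image of a circle surrounds the image of the disc.
Proof. Let `h w = (u * w).re` or `h w = ‖w - p‖`. The function `h ∘ G` attains its maximum and its minimum on the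
compact disc `closedBall c s`. Claim: they are attained on the sphere. Otherwise there is an extremal point
`x₀ ∈ ball c s`; `O = G '' ball c s` is open and `w₀ = G x₀` is an extremal point of `h` on `O`. For `h w = (u * w).re`
the points `w₀ ± η conj u`, `η > 0` small, are in `O` and `h (w₀ ± η conj u) = h w₀ ± η`. For `h w = ‖w - p‖`:
`w₀ ≠ p` as `p ∉ O`, and `h (w₀ ± η (w₀ - p)) = (1 ± η) h w₀`. So there are `y₁, y₂ ∈ sphere c s` with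
`h (G y₁) ≤ h (G x) ≤ h (G y₂)`; the sphere is connected (`isPreconnected_sphere`, rank of `ℂ` over `ℝ` is `2`), apply the
intermediate value theorem (`IsPreconnected.intermediate_value`). -/
def S_TOP : Prop :=
  (∀ (G : ℂ ≃ₜ ℂ) (c u : ℂ) (s : ℝ), 0 < s → ‖u‖ = 1 → ∀ x ∈ closedBall c s,
    ∃ y ∈ sphere c s, (u * G y).re = (u * G x).re) ∧
  ∀ (G : ℂ ≃ₜ ℂ) (c p : ℂ) (s : ℝ), 0 < s → p ∉ G '' ball c s → ∀ x ∈ closedBall c s,
    ∃ y ∈ sphere c s, ‖G y - p‖ = ‖G x - p‖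

/-- **RD** (from `S_RL`, `S_TOP`). Diameter of the image of the inner disc.
Proof. If `G x ≠ G y` take `u` with `‖u‖ = 1`, `u * (G x - G y) = ‖G x - G y‖`. `S_RL` with `V = univ`,
`φ w = (u * w).re` (derivative of norm `≤ 1`), `k = 1`, `T = φ '' (G '' closedBall c r)`: `T ⊆ φ '' (G '' sphere c s)` for
`s ≥ r` by `S_TOP` (first part, `closedBall c r ⊆ closedBall c s`). `T` is connected and contains `(u * G x).re` and
`(u * G y).re`, so it contains an interval of length `‖G x - G y‖`. -/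
def S_RD : Prop := ∀ (G : ℂ ≃ₜ ℂ) (c : ℂ) (r q : ℝ), 0 < r → 1 < q →
  DifferentiableOn ℂ G (Ann c r (q * r)) → ∀ x ∈ closedBall c r, ∀ y ∈ closedBall c r,
  edist (G x) (G y) ^ 2 * ENNReal.ofReal (Real.log q) ≤
    ENNReal.ofReal (2 * π) * volume (G '' Ann c r (q * r))

/-- **RT** (from `S_RL`, `S_TOP`). Logarithmic size of the image of the inner disc seen from `p`.
Proof. `S_RL` with `V = Ann p δ R`, `φ w = log ‖w - p‖`, `k w = ‖w - p‖ₑ⁻¹`, `T = TT (G '' closedBall c r) p δ R`. If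
`t ∈ T`, `‖G x - p‖ = e^t`, `x ∈ closedBall c r`, `s ∈ (r, q r)`, then `p ∉ G '' ball c s`, so by `S_TOP` (second part)
there is `y ∈ sphere c s` with `‖G y - p‖ = e^t ∈ (δ, R)`, `φ (G y) = t`. The derivative of `φ` at `w ≠ p` has norm
`‖w - p‖⁻¹` (or `≤`: composition of `Real.log` and the norm). -/
def S_RT : Prop := ∀ (G : ℂ ≃ₜ ℂ) (c p : ℂ) (r q δ R : ℝ), 0 < r → 1 < q → 0 < δ → δ < R →
  DifferentiableOn ℂ G (Ann c r (q * r)) → p ∉ G '' ball c (q * r) →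
  volume (TT (G '' closedBall c r) p δ R) ^ 2 * ENNReal.ofReal (Real.log q) ≤
    ENNReal.ofReal (2 * π) * ∫⁻ w in Ann p δ R ∩ G '' Ann c r (q * r), (‖w - p‖ₑ⁻¹) ^ 2

/-- **JMP** (from `S_PCS`). Length-area with jumps.
Proof. `U = (⋃ j ∈ s, L j)ᶜ` is open. Let `t ∈ (log δ, log R)`, `ρ = e^t`, `ψ`, `V'` from `Cross`,
`S = {θ ∈ (-π, π] | p + e^{t+iθ} ∈ U, g (p + e^{t+iθ}) ∈ V'}`, `u θ = ψ (g (p + e^{t+iθ}))`. Every point of
`V' ∩ g '' sphere p ρ` is `g w`, `w = p + e^{t+iθ}`; either `w ∈ U` (then `θ ∈ S`), or `w ∈ L j` for some `j ∈ s`. So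
`D ≤ volume (u '' S) + ∑_j volume (ψ '' (g '' (L j ∩ sphere p ρ)))`. The first is
`≤ ∫⁻ θ in Ioo (-π) π, K (p + e^{t+iθ}) e^t`, `K w = if w ∈ U ∧ g w ∈ V then ‖deriv g w‖ₑ else 0`, by `vol_circ` and
`‖fderiv ℝ ψ‖ₑ ≤ 1` (`norm_fderiv_le_of_lipschitz`); the `j`-th is `0` if `t ∉ TT (L j) p δ R` (empty set) and
`≤ d j` in general (`Real.volume_le_diam`, `EMetric.diam_le`, `ψ` is `1`-Lipschitz). Integrate over `t`:
`D log (R/δ) ≤ ∫∫ K e^t + ∑ d j * volume (TT (L j) p δ R)` (`TT (L j) p δ R` is measurable: it is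
`Ioo _ _ ∩ exp ⁻¹' ((fun w => ‖w - p‖) '' L j)`, and the image is compact). `S_PCS` (second part):
`(∫∫ K e^t)^2 ≤ 2π log (R/δ) ∫⁻ w in Ann p δ R, K w ^ 2`, and the integral is over `S' = Ann p δ R ∩ U ∩ g⁻¹ V`; by
`lintegral_cv` it is `volume (g '' S') ≤ volume (V ∩ g '' ball p R)`. -/
def S_JMP : Prop := ∀ (g : ℂ ≃ₜ ℂ) (ι : Type) (s : Finset ι) (L : ι → Set ℂ) (d : ι → ℝ≥0∞)
  (p : ℂ) (δ R : ℝ) (V : Set ℂ) (D : ℝ≥0∞), 0 < δ → δ < R → (∀ j ∈ s, IsCompact (L j)) →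
  DifferentiableOn ℂ g (⋃ j ∈ s, L j)ᶜ →
  (∀ j ∈ s, ∀ x ∈ L j, ∀ y ∈ L j, edist (g x) (g y) ≤ d j) → IsOpen V → Cross g p δ R V D →
  D * ENNReal.ofReal (Real.log (R / δ)) ≤
    (ENNReal.ofReal (2 * π * Real.log (R / δ)) * volume (V ∩ g '' ball p R)) ^ (1 / 2 : ℝ) +
      ∑ j ∈ s, d j * volume (TT (L j) p δ R)

/-- **MN** (from `S_PCS`, `S_RD`, `S_RT`, `S_JMP`). The main estimate.
Proof. `g = G₁.symm.trans G₂`, `L j = G₁ '' closedBall (c j) (r j)`, `A j = Ann (c j) (r j) (q * r j)`,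
`d j = (ofReal (2π / log q) * volume (G₂ '' A j)) ^ (1/2)`; by `S_RD` for `G₂` the hypothesis of `S_JMP` on `d` holds. With
`Λ = log (R/δ)`: `D Λ ≤ (2π Λ M)^(1/2) + ∑ d_j τ_j`, `τ_j = volume (TT (L j) p δ R)`. Cauchy-Schwarz
(`ENNReal.inner_le_Lp_mul_Lq`, exponents `2`): `∑ d_j τ_j ≤ (∑ d_j²)^(1/2) (∑ τ_j²)^(1/2)`. The sets `A j` have multiplicity
`≤ N`, so have `G₁ '' A j`, `G₂ '' A j`; by `sum_lintegral_le` (`B.lean`) `∑ d_j² ≤ (2π/log q) N M`, and by `S_RT` for `G₁`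
and `S_PCS` (first part) `∑ τ_j² ≤ (2π/log q) N * 2π Λ`. So `D Λ ≤ (1 + 2πN/log q) (2π Λ M)^(1/2)`; square and cancel
`Λ` (positive, finite). (If `M = ⊤` the claim is trivial.) -/
def S_MN : Prop := ∀ (G₁ G₂ : ℂ ≃ₜ ℂ) (ι : Type) (s : Finset ι) (c : ι → ℂ) (r : ι → ℝ)
  (q : ℝ) (N : ℕ) (p : ℂ) (δ R : ℝ) (V W : Set ℂ) (D M : ℝ≥0∞), 1 < q → (∀ j ∈ s, 0 < r j) →
  (∀ z, {j | j ∈ s ∧ z ∈ Ann (c j) (r j) (q * r j)}.encard ≤ N) →
  (∀ j ∈ s, DifferentiableOn ℂ G₁ (Ann (c j) (r j) (q * r j))) →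
  (∀ j ∈ s, DifferentiableOn ℂ G₂ (Ann (c j) (r j) (q * r j))) →
  DifferentiableOn ℂ (fun w => G₂ (G₁.symm w)) (⋃ j ∈ s, G₁ '' closedBall (c j) (r j))ᶜ →
  (∀ j ∈ s, p ∉ G₁ '' ball (c j) (q * r j)) → 0 < δ → δ < R → IsOpen V → volume V ≤ M →
  (∀ j ∈ s, G₂ '' Ann (c j) (r j) (q * r j) ⊆ W) → volume W ≤ M →
  Cross (fun w => G₂ (G₁.symm w)) p δ R V D →
  D ^ 2 * ENNReal.ofReal (Real.log (R / δ)) ≤
    ENNReal.ofReal (2 * π * (1 + 2 * π * N / Real.log q) ^ 2) * M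

/-! ## Block G: the glued maps -/

/-- **GLU** (no hypotheses; import `Pool.Agent.Lib_helper41.Weld.Glob`). Gluing.
Proof. `Weld.exists_global` with `K = E \ ⋃_{j ∈ s} ball (c j) (r j)` (compact) and
`G = (⋃_{j ∈ s} closedBall (c j) (r j))ᶜ` (open): `K ⊆ G` since the spheres miss `E`, and `f` is holomorphic on
`G \ K ⊆ Eᶜ` (a point of `E` in `G` is in no `ball (c j) (r j)`, so in `K`). It gives `F, Φ, W` with `F` holomorphic off `K`,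
`F z - z → 0`, `K ⊆ W ⊆ G`, `Φ` analytic at the points of `f '' W`, `F = Φ ∘ f` on `W`. Third part: the set is
`f '' G`; let `w = f z`, `z ∈ G`. If `z ∈ W` then `F ∘ f⁻¹ = Φ` near `w`. Otherwise `z ∉ K`, so `z ∉ E`, `f` is holomorphic
and injective near `z`, its derivative at `z` is not zero (`deriv_ne_zero_of_injOn`, see the end of the proof of
`Weld.localise`), so `f⁻¹` is differentiable at `w` (`HasDerivAt.of_local_left_inverse` or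
`Homeomorph`/`OpenPartialHomeomorph` versions) and `F` is differentiable at `z`. -/
def S_GLU : Prop := ∀ (f : ℂ ≃ₜ ℂ) (E : Set ℂ) (ι : Type) (s : Finset ι) (c : ι → ℂ)
  (r : ι → ℝ), IsCompact E → DifferentiableOn ℂ f Eᶜ → (∀ j ∈ s, Disjoint (sphere (c j) (r j)) E) →
  ∃ F : ℂ ≃ₜ ℂ, DifferentiableOn ℂ F (E \ ⋃ j ∈ s, ball (c j) (r j))ᶜ ∧
    Tendsto (fun z => F z - z) (cocompact ℂ) (𝓝 0) ∧
    DifferentiableOn ℂ (fun w => F (f.symm w)) (⋃ j ∈ s, f '' closedBall (c j) (r j))ᶜ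

/-- **NRM** (no hypotheses). Normalisation.
Proof. `μ = max_{‖z‖ ≤ R₁} ‖F z - F 0‖ > 0` (attained), `a = 1/μ`, `b = - a F 0`, `F₁ = a F + b`. A maximum principle for the
exterior (EXT): if `h : ℂ → ℂ` is continuous on `{R₁ ≤ ‖z‖}`, holomorphic on `{R₁ < ‖z‖}`, tends to a limit along
`cocompact ℂ`, and `‖h‖ ≤ B` for `‖z‖ = R₁`, then `‖h z‖ ≤ B` for `R₁ ≤ ‖z‖`: let `H v = h (1/v)` for `v ≠ 0`, `H 0` = the
limit; `H` is continuous on `closedBall 0 (1/R₁)`, holomorphic on the ball minus `0` and so on the ball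
(`Complex.differentiableOn_compl_singleton_and_continuousAt_iff`), and
`Complex.norm_le_of_forall_mem_frontier_norm_le`. Use EXT for `h z = F₁ z / z → a` with `B = 1/R₁` (part `up`), and for
`h z = z / F₁ z → 1/a` (`F₁ z ≠ 0` for `z ≠ 0`) with `B = R₁/m` (part `low`, `m > 0`; for `m = 0` trivial). -/
def S_NRM : Prop := ∀ (F : ℂ ≃ₜ ℂ) (K : Set ℂ) (R₁ : ℝ), 0 < R₁ → K ⊆ ball 0 R₁ →
  DifferentiableOn ℂ F Kᶜ → Tendsto (fun z => F z - z) (cocompact ℂ) (𝓝 0) →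
  ∃ a b : ℂ, a ≠ 0 ∧ Nrm R₁ (fun z => a * F z + b)

/-- **EX** (from `S_GLU`, `S_NRM`). Proof. `S_GLU`, then `S_NRM` with `K = E \ ⋃ …`, and the homeomorphism
`z ↦ a F z + b`. -/
def S_EX : Prop := ∀ (ι : Type) (q R₁ : ℝ) (N : ℕ) (E : Set ℂ) (c : ι → ℂ) (r : ι → ℝ)
  (f : ℂ ≃ₜ ℂ), Rings q R₁ N E c r → DifferentiableOn ℂ f Eᶜ →
  ∀ s : Finset ι, ∃ F : ℂ ≃ₜ ℂ, Good f E R₁ c r s F

/-- **EQ** (from `S_MN`, `S_TOP`). Equicontinuity at the points outside of the discs.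
Proof. `p = f z₀`, `R = 1`. The compact set `f.symm '' closedBall p 1` is in some `closedBall 0 ρ₁`, so
`‖F z‖ ≤ M' := max 1 (ρ₁ / R₁)` on it for all `F` (`Nrm.le_one`, `Nrm.up`). Let `V = ball 0 (M' + 1)`, `W = ball 0 2`,
`M = max (volume V) (volume W) < ⊤`. Let `0 < δ < 1` and `w ∈ ball p δ`, `g w = F (f.symm w)`,
`D = edist (g w) (g p)`. `Cross g p δ 1 V D`: if `g w = g p` trivial; otherwise let `‖u‖ = 1`, `u * (g w - g p) = ‖g w - g p‖`, `ψ v = (u * v).re`,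
`V' = V`; for `ρ ∈ (δ, 1)` `g '' sphere p ρ ⊆ V`, and by `S_TOP` (first part, for the homeomorphism `g`, centre `p`) the
connected set `ψ '' (g '' sphere p ρ)` contains `ψ (g w)` and `ψ (g p)`, hence an interval of length `‖g w - g p‖`. `S_MN`
with `G₁ = f`, `G₂ = F` (multiplicity: if `z ∈ Ann j₀` then all `j` with `z ∈ Ann j` are in the set of `Rings.nb j₀`; `f` and `F` are
holomorphic on the rings by `Rings.off`; `F '' Ann ⊆ closedBall 0 1` by `Rings.inb`):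
`D² log (1/δ) ≤ C M`, `C` depends on `q`, `N` only. Choose `δ` with `C M / log (1/δ) ≤ η²`, and `κ` with
`f '' ball z₀ κ ⊆ ball p δ`. -/
def S_EQ : Prop := ∀ (ι : Type) (q R₁ : ℝ) (N : ℕ) (E : Set ℂ) (c : ι → ℂ) (r : ι → ℝ)
  (f : ℂ ≃ₜ ℂ), Rings q R₁ N E c r → DifferentiableOn ℂ f Eᶜ →
  ∀ z₀ : ℂ, (∀ j, z₀ ∉ ball (c j) (q * r j)) → ∀ η : ℝ, 0 < η → ∃ κ : ℝ, 0 < κ ∧
    ∀ (s : Finset ι) (F : ℂ ≃ₜ ℂ), Good f E R₁ c r s F → ∀ z ∈ ball z₀ κ, dist (F z) (F z₀) ≤ η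

/-- **IN** (from `S_MN`, `S_TOP`). Uniform injectivity.
Proof. `ρ₂ = max R₁ (max ‖a‖ ‖b‖)`, `M₀ ≥ 1` with `f '' closedBall 0 ρ₂ ⊆ ball 0 M₀`, `V = ball 0 (2 M₀)`,
`M = volume V`, `D = ofReal (min ‖f a - f b‖ M₀)`, `R = 1/2`, `p = F a`. Let `δ` be any number with
`dist (F a) (F b) < δ < 1/2`, and `g w = f (F.symm w)`. `Cross g p δ (1/2) V D`: let `ρ ∈ (δ, 1/2)`, `T = g '' sphere p ρ`
(connected).
(1) `T` meets `ball 0 M₀`: `F '' closedBall 0 ρ₂` is connected, contains `p`, `F 0 = 0` and a point of norm `1`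
(`Nrm.eq_one`), one of the last two has distance `≥ 1/2` from `p`; so there is `x ∈ closedBall 0 ρ₂` with
`‖F x - p‖ = ρ`, and `g (F x) = f x`.
(2) If `T ⊆ ball 0 (2 M₀)`: `ψ v = (u * v).re`, `u * (f a - f b) = ‖f a - f b‖`, `V' = V`; `F a, F b ∈ closedBall p ρ`, so by
`S_TOP` `ψ '' T` contains `ψ (f a)` and `ψ (f b)`, and the interval between them.
(3) Otherwise `T` contains a point of norm `< M₀` and one of norm `≥ 2 M₀`: `ψ v = ‖v‖`,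
`V' = {v | M₀ < ‖v‖ ∧ ‖v‖ < 2 M₀}`, `ψ '' (V' ∩ T) ⊇ Ioo M₀ (2 M₀)`.
`S_MN` with `G₁ = F`, `G₂ = f`, `W = ball 0 M₀` (the homeomorphism `F ∘ f⁻¹` is holomorphic off
`⋃ f '' closedBall`, so its inverse is holomorphic off `⋃ F '' closedBall`; `p ∉ F '' ball (c j) (q r j)`) gives
`D² log (1/(2δ)) ≤ C M`, i.e. `δ ≥ κ₀ := exp (- C M / D²)/2`. So `dist (F a) (F b) ≥ min κ₀ (1/4)`. -/
def S_IN : Prop := ∀ (ι : Type) (q R₁ : ℝ) (N : ℕ) (E : Set ℂ) (c : ι → ℂ) (r : ι → ℝ)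
  (f : ℂ ≃ₜ ℂ), Rings q R₁ N E c r → DifferentiableOn ℂ f Eᶜ →
  ∀ a b : ℂ, a ≠ b → (∀ j, a ∉ ball (c j) (q * r j)) → ∃ κ : ℝ, 0 < κ ∧
    ∀ (s : Finset ι) (F : ℂ ≃ₜ ℂ), Good f E R₁ c r s F → κ ≤ dist (F a) (F b)

/-- **LC** (from `S_EQ`). The limit function.
Proof. For every `z` the points `F s z` are in a compact disc (`Nrm`), so they converge along `𝒰` to `F∞ z`
(`IsCompact.ultrafilter_le_nhds`). Claim: for every `z₀` and `η > 0` there is `κ > 0` such that for `𝒰`-almost all `s`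
`dist (F s z) (F s z₀) ≤ η` for all `z ∈ ball z₀ κ`. If `z₀` is in no `ball (c j) (q r j)`: `S_EQ`. If `z₀ ∈ ball (c j) (q r j)`: for
`s ∋ j` (this set of `s` is in `atTop`) `F s` is holomorphic on `ball (c j) (q r j)` (`Rings.off`) and bounded by `1` there
(`Rings.inb`, `Nrm.le_one`): Cauchy's estimate on a smaller ball (`Complex.norm_deriv_le_of_forall_mem_sphere_norm_le`, mean
value), or `Complex.dist_le_div_mul_dist_of_mapsTo_ball`. Take limits: `dist (F∞ z) (F∞ z₀) ≤ η`, so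
`dist (F s z) (F∞ z) ≤ 3 η` for `z ∈ ball z₀ κ` and `𝒰`-almost all `s`: locally uniform convergence. `F∞` is holomorphic on
the open set `(E \ ⋃_j ball (c j) (r j))ᶜ` (`TendstoLocallyUniformlyOn.differentiableOn`, local): a point `z₀` of it is not in `E` (then
all `F s` are holomorphic on a ball around `z₀`), or it is in some `ball (c j) (r j)` (then `F s` is holomorphic there for
`s ∋ j`). -/
def S_LC : Prop := ∀ (ι : Type) (q R₁ : ℝ) (N : ℕ) (E : Set ℂ) (c : ι → ℂ) (r : ι → ℝ)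
  (f : ℂ ≃ₜ ℂ), Rings q R₁ N E c r → DifferentiableOn ℂ f Eᶜ →
  ∀ (F : Finset ι → (ℂ ≃ₜ ℂ)), (∀ s, Good f E R₁ c r s (F s)) →
  ∀ 𝒰 : Ultrafilter (Finset ι), (𝒰 : Filter (Finset ι)) ≤ atTop →
  ∃ Fi : ℂ → ℂ, TendstoLocallyUniformly (fun s z => F s z) Fi (𝒰 : Filter (Finset ι)) ∧
    DifferentiableOn ℂ Fi (E \ ⋃ j, ball (c j) (r j))ᶜ

/-- **LI** (from `S_IN`). The limit function is injective.
Proof. Suppose `a ≠ b`, `Fi a = Fi b = v`. Pointwise convergence and `S_IN` exclude the case that `a` is in no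
`B_j := ball (c j) (q r j)`. So `a ∈ B_j`, where `Fi` is holomorphic (`B_j` is in `(E \ ⋃ ball (c j) (r j))ᶜ` by `Rings.off`).
Claim: `Fi = v` near `a`. Otherwise (isolated zeros, `AnalyticAt.eventually_eq_or_eventually_ne`) there is `δ > 0` with `closedBall a δ ⊆ B_j`,
`b ∉ closedBall a δ`, `Fi ≠ v` on `sphere a δ`; let `m > 0` be the minimum of `‖Fi - v‖` there. For some `s`
`‖F s - Fi‖ < m/4` on `closedBall a δ ∪ {b}`. Then `F s a, F s b ∈ ball v (m/2)`, and `F s '' sphere a δ` does not meet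
`ball v (m/2)`; the open set `F s '' ball a δ` has its frontier in `F s '' sphere a δ` and meets the connected set
`ball v (m/2)`, so it contains it, and `F s b ∈ F s '' ball a δ`, a contradiction to the injectivity of `F s`.
Let `O = interior {z | Fi z = v} ∋ a`. `O ≠ univ` (`Fi 0 = 0` and `‖Fi z‖ = 1` for some `z`; the latter by
compactness along `𝒰`, or: `‖F s z_s‖ = 1`), so there is `a' ∈ frontier O`, `a' ∉ O`. `a'` is in no `B_k`: otherwise `Fi` is holomorphic on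
the connected set `B_k` and `= v` on the nonempty open subset `B_k ∩ O`, so `Fi = v` on `B_k` (identity theorem,
`AnalyticOnNhd.eqOn_of_preconnected_of_eventuallyEq`), `B_k ⊆ O`, `a' ∈ O`. And `Fi a' = v` (`Fi` is continuous),
`a' ≠ a`: `S_IN` for `a', a` gives a contradiction. -/
def S_LI : Prop := ∀ (ι : Type) (q R₁ : ℝ) (N : ℕ) (E : Set ℂ) (c : ι → ℂ) (r : ι → ℝ)
  (f : ℂ ≃ₜ ℂ), Rings q R₁ N E c r → DifferentiableOn ℂ f Eᶜ →
  ∀ (F : Finset ι → (ℂ ≃ₜ ℂ)), (∀ s, Good f E R₁ c r s (F s)) →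
  ∀ (𝒰 : Ultrafilter (Finset ι)) (Fi : ℂ → ℂ),
  TendstoLocallyUniformly (fun s z => F s z) Fi (𝒰 : Filter (Finset ι)) →
  DifferentiableOn ℂ Fi (E \ ⋃ j, ball (c j) (r j))ᶜ → Function.Injective Fi

/-- **LH** (no hypotheses). The limit is a homeomorphism.
Proof. `Fi` is continuous, `Fi 0 = 0`, and `m := min_{‖z‖ = R₁} ‖Fi z‖ > 0` by injectivity. For `𝒰`-almost all `s`
`‖F s z‖ ≥ m/2` for `‖z‖ = R₁` (uniform convergence on compact sets), so `‖F s z‖ ≥ (m/2) ‖z‖/R₁` for `‖z‖ ≥ R₁`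
(`Nrm.low`), and the same for `Fi`. Surjective: for `w` the points `z_s = (F s).symm w` are (for `𝒰`-almost all `s`) in
`closedBall 0 (max R₁ (2 R₁ ‖w‖/m))`, so they converge along `𝒰` to some `z`, and
`Fi z = w` (`TendstoLocallyUniformly` and continuity; `tendsto_comp_of_locally_uniform_limit`). `Fi` is proper
(`tendsto_norm_cocompact_atTop`, `isProperMap_iff_tendsto_cocompact`), so closed, and a continuous closed bijection is
a homeomorphism (`Equiv.toHomeomorphOfContinuousClosed`). -/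
def S_LH : Prop := ∀ (κ : Type) (R₁ : ℝ) (F : κ → (ℂ ≃ₜ ℂ)) (𝒰 : Ultrafilter κ) (Fi : ℂ → ℂ),
  0 < R₁ → (∀ s, Nrm R₁ (F s)) →
  TendstoLocallyUniformly (fun s z => F s z) Fi (𝒰 : Filter κ) → Function.Injective Fi →
  ∃ H : ℂ ≃ₜ ℂ, ∀ z, H z = Fi z

/-- **AF** (no hypotheses). Entire limits are linear.
Proof. `‖F z‖ ≤ max 1 (‖z‖/R₁)`. The function `dslope F 0` is entire (`Complex.differentiableOn_dslope`) and bounded
(for `‖z‖ ≥ R₁` by `1/R₁`, continuous on the compact disc), so constant (`Differentiable.apply_eq_apply_of_bounded`):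
`F z = α z`. `‖α‖ R₁ ≤ 1` (take `‖z‖ = R₁`), and `1 = ‖α‖ ‖z‖ ≤ ‖α‖ R₁`. -/
def S_AF : Prop := ∀ (F : ℂ → ℂ) (R₁ : ℝ), 0 < R₁ → Differentiable ℂ F → F 0 = 0 →
  (∀ z, ‖z‖ ≤ R₁ → ‖F z‖ ≤ 1) → (∃ z, ‖z‖ ≤ R₁ ∧ ‖F z‖ = 1) →
  (∀ z, R₁ ≤ ‖z‖ → ‖F z‖ ≤ ‖z‖ / R₁) → ∃ α : ℂ, ‖α‖ * R₁ = 1 ∧ ∀ z, F z = α * z

/-! ## Block W: the weak estimate -/

/-- **CUT** (no hypotheses). A cut-off function for the image of a ring.
Proof. `λ = √q`, `x₁ = 1 + (λ-1)/3`, `x₂ = 1 + 2(λ-1)/3`. Let `χ₀ : ℝ → ℝ` be smooth, `0 ≤ χ₀ ≤ 1`, `χ₀ = 1` on `x ≤ x₁`,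
`χ₀ = 0` on `x ≥ x₂`, `|χ₀'| ≤ C₀` (for instance `Real.smoothTransition ((x₂ - x)/(x₂ - x₁))`, derivative continuous with
compact support). `χ w = χ₀ (‖f.symm w - c‖ / r)`. On the open set `f '' ball c (x₁ r)` it is `1`, on the complement of
`f '' closedBall c (x₂ r)` it is `0`, on the open set `f '' Ann c r (λ r)` it is smooth: `f.symm` is holomorphic there (inverse of an
injective holomorphic function) and the norm is smooth away from `0`. These open sets cover `ℂ`. On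
`f '' Ann c r (q r)`: `‖dbar χ‖ ≤ ‖fderiv ℝ χ‖ ≤ C₀ ‖(f.symm)'‖ / r`, elsewhere `dbar χ = 0`. Cauchy-Schwarz:
`∫⁻ ‖(f.symm)'‖ ≤ volume (f '' Ann c r (q r))^(1/2) * (∫⁻ ‖(f.symm)'‖²)^(1/2)`, and the last integral is
`volume (Ann c r (q r)) = π (q²-1) r²` (`lintegral_cv` for `f.symm` and `k = 1`; or `≤ volume (ball c (q r))`). -/
def S_CUT : Prop := ∀ q : ℝ, 1 < q → ∃ C : ℝ≥0∞, C ≠ ⊤ ∧ ∀ (f : ℂ ≃ₜ ℂ) (c : ℂ) (r : ℝ), 0 < r →
  DifferentiableOn ℂ f (Ann c r (q * r)) → ∃ χ : ℂ → ℝ, ContDiff ℝ 1 χ ∧ (∀ w, 0 ≤ χ w) ∧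
    (∀ w, χ w ≤ 1) ∧ (∀ w ∈ f '' closedBall c r, ∀ᶠ x in 𝓝 w, χ x = 1) ∧
    (∀ w ∉ f '' closedBall c (√q * r), χ w = 0) ∧
    (∀ w ∉ f '' closedBall c (√q * r), dbar (fun w => (χ w : ℂ)) w = 0) ∧
    (∫⁻ w, ‖dbar (fun w => (χ w : ℂ)) w‖ₑ) ^ 2 ≤ C * volume (f '' Ann c r (q * r))

open Classical in
/-- **MOD** (no hypotheses). Modification of a function near the sets `L j`.
Proof. Claim, by induction on `s' ⊆ s` (`Finset.induction_on`): there is `Θ` with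
(1) `Θ` is `C¹` at every point outside of `⋃_{j ∈ s \ s'} L j`;
(2) `‖Θ w - Ψ w‖ ≤ ∑_{j ∈ s'} [w ∈ P j] b j`;
(3) `‖dbar Θ w‖ ≤ ∑_{k ∈ s'} ‖dbar (χ k) w‖ (∑_{j ∈ s} [w ∈ P j] b j) * 2` for `w ∉ ⋃_{j ∈ s \ s'} L j`.
For `s' = ∅` take `Θ = Ψ` (holomorphic off `⋃_{j ∈ s} L j`, `dbar_of_complex`). Step `s' ∪ {k}`: `Θ' = (1 - χ k) Θ + χ k * m k`. (1): off `L k` it
is `C¹` as `Θ` is; at a point of `L k` it is constant near the point. (2): `Θ' - Ψ = (1 - χ k)(Θ - Ψ) + χ k (m k - Ψ)`, and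
`‖m k - Ψ w‖ ≤ b k` for `w ∈ P k`, `χ k w = 0` for `w ∉ P k`. (3): at `w ∉ L k`:
`dbar Θ' = (1 - χ k) dbar Θ + dbar (χ k) (m k - Θ)` (`dbar_mul`, `dbar_sub`), and for `w ∈ P k`
`‖m k - Θ w‖ ≤ b k + ∑_{j ∈ s'} [w ∈ P j] b j ≤ 2 ∑_{j ∈ s} [w ∈ P j] b j`, for `w ∉ P k` `dbar (χ k) w = 0`; at
`w ∈ L k`: `dbar Θ' w = 0`. At the end `s' = s`. -/
def S_MOD : Prop := ∀ (ι : Type) (s : Finset ι) (L P : ι → Set ℂ) (Ψ : ℂ → ℂ) (χ : ι → ℂ → ℝ)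
  (m : ι → ℂ) (b : ι → ℝ), Continuous Ψ → (∀ j ∈ s, IsClosed (L j)) → (∀ j ∈ s, 0 ≤ b j) →
  DifferentiableOn ℂ Ψ (⋃ j ∈ s, L j)ᶜ → (∀ j ∈ s, ContDiff ℝ 1 (χ j)) →
  (∀ j ∈ s, ∀ w, 0 ≤ χ j w ∧ χ j w ≤ 1) → (∀ j ∈ s, ∀ w ∈ L j, ∀ᶠ x in 𝓝 w, χ j x = 1) →
  (∀ j ∈ s, ∀ w ∉ P j, χ j w = 0) → (∀ j ∈ s, ∀ w ∉ P j, dbar (fun w => (χ j w : ℂ)) w = 0) →
  (∀ j ∈ s, ∀ w ∈ P j, ‖m j - Ψ w‖ ≤ b j) →
  ∃ Θ : ℂ → ℂ, ContDiff ℝ 1 Θ ∧
    (∀ w, ‖Θ w - Ψ w‖ ≤ ∑ j ∈ s, if w ∈ P j then b j else 0) ∧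
    ∀ w, ‖dbar Θ w‖ ≤
      ∑ k ∈ s, ∑ j ∈ s, if w ∈ P j then 2 * ‖dbar (fun w => (χ k w : ℂ)) w‖ * b j else 0

/-- **WK** (from `S_RD`, `S_CUT`, `S_MOD`). The weak estimate.
Proof. `λ = √q > 1`, `A j = Ann (c j) (r j) (q r j)`, `L j = f '' closedBall (c j) (r j)`, `P j = f '' closedBall (c j) (λ r j)`,
`Ψ w = F (f.symm w)`, `m j = F (c j)`, `a j = volume (f '' A j)`,
`b j = √((2π/log λ) * (volume (F '' Ann (c j) (λ r j) (q r j))).toReal)` (finite: inside `closedBall 0 1`). By `S_RD` (radius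
`λ r j`, ratio `λ`) for `F`: `‖F x - F y‖ ≤ b j` for `x, y ∈ closedBall (c j) (λ r j)`, so `‖m j - Ψ w‖ ≤ b j` on `P j`; for `f`: the
diameter of `P j` is `≤ ((2π/log λ) a j)^(1/2)`, so `volume (P j) ≤ π (2π/log λ) a j`. Multiplicity (`Rings.nb`) and
`sum_lintegral_le`: `∑ b j² ≤ (2π/log λ) N π`, `∑ a j ≤ N A`, `A = volume (f '' ⋃_{j ∈ s} A j) ≤ A₁ := volume (f '' ball 0 R₁) < ⊤`; also
`b j ≤ C` with `C` depending only on `q`. With `χ j` from `S_CUT` and `Θ` from `S_MOD`: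
`∫ Ψ dbar φ = ∫ (Ψ - Θ) dbar φ + ∫ Θ dbar φ` and `∫ Θ dbar φ = - ∫ dbar Θ * φ` (`WD.of_contDiffOn` on `univ`), so
`|∫ Ψ dbar φ| ≤ ‖dbar φ‖_∞ ∑ b j volume (P j) + ‖φ‖_∞ ∑_k ∑_{j ~ k} 2 b j ∫ ‖dbar (χ k)‖`, where `j ~ k` means that `P j` and `P k` meet, (`dbar (χ k) = 0`
off `P k`); then `j` and `k` are neighbours, at most `N` of them for given `j` or `k` (`Rings.nb`). First sum `≤ C ∑ a j ≤ C N A ≤ C N A₁^(1/2) A^(1/2)`. Second:
`∫ ‖dbar (χ k)‖ ≤ C a k^(1/2)`, Cauchy-Schwarz over the pairs `(j,k)`, `j ~ k`: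
`≤ C (∑_{j ~ k} b j²)^(1/2) (∑_{j ~ k} a k)^(1/2) ≤ C (N ∑ b j²)^(1/2) (N ∑ a k)^(1/2) ≤ C' A^(1/2)`. -/
def S_WK : Prop := ∀ (q R₁ : ℝ) (N : ℕ) (E : Set ℂ) (f : ℂ ≃ₜ ℂ) (φ : ℂ → ℂ), 1 < q → 0 < R₁ →
  DifferentiableOn ℂ f Eᶜ → ContDiff ℝ ∞ φ → HasCompactSupport φ → ∃ C : ℝ≥0∞, C ≠ ⊤ ∧
  ∀ (ι : Type) (c : ι → ℂ) (r : ι → ℝ), Rings q R₁ N E c r →
  ∀ (s : Finset ι) (F : ℂ ≃ₜ ℂ), Good f E R₁ c r s F →
    ‖∫ w, F (f.symm w) * dbar φ w‖ₑ ^ 2 ≤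
      C * volume (f '' ⋃ j ∈ s, Ann (c j) (r j) (q * r j))

/-- **ONE** (from `S_EX`, `S_LC`, `S_LI`, `S_LH`, `S_AF`, `S_WK`). The theorem for one family of rings.
Proof. `C` from `S_WK`. Given the rings, choose `F s` by `S_EX` and an ultrafilter `𝒰 ≤ atTop` (`Ultrafilter.of`).
`S_LC`, `S_LI`, `S_LH`: the limit `Fi` is a homeomorphism, holomorphic off `E \ ⋃_j ball (c j) (r j)`, so entire by
hypothesis. The properties `Fi 0 = 0`, `‖Fi z‖ ≤ 1` for `‖z‖ ≤ R₁`, `‖Fi z‖ = 1` for some such `z` (the function `‖Fi‖` has a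
maximum on the disc, and it is the limit of the maxima `1` by uniform convergence), `‖Fi z‖ ≤ ‖z‖/R₁` pass to the limit, so `Fi z = α z`,
`‖α‖ R₁ = 1` (`S_AF`). `F s (f.symm w) → α f.symm w` uniformly on the compact set `tsupport φ`, so
`∫ F s (f.symm w) dbar φ → α ∫ f.symm w * dbar φ w` along `𝒰`, and the bound of `S_WK` (monotone in `s`) passes to the
limit. The constant is `C R₁²`. -/
def S_ONE : Prop := ∀ (q R₁ : ℝ) (N : ℕ) (E : Set ℂ) (f : ℂ ≃ₜ ℂ) (φ : ℂ → ℂ), 1 < q → 0 < R₁ →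
  DifferentiableOn ℂ f Eᶜ → ContDiff ℝ ∞ φ → HasCompactSupport φ → ∃ C : ℝ≥0∞, C ≠ ⊤ ∧
  ∀ (ι : Type) (c : ι → ℂ) (r : ι → ℝ), Rings q R₁ N E c r →
    Rm (E \ ⋃ j, ball (c j) (r j)) →
    ‖∫ w, f.symm w * dbar φ w‖ₑ ^ 2 ≤ C * volume (f '' ⋃ j, Ann (c j) (r j) (q * r j))

/-! ## Block S: selection of the rings, end of the proof -/

/-- **PKG** (no hypotheses). Packing in the plane.
Proof. `closedBall 0 ρ` is totally bounded: it is covered by finitely many, say `n`, balls of radius `η/2`; a set with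
distances `≥ η` has at most one point in each. (For a set `S ⊆ closedBall x (ρ t)` with distances `≥ η t`, `t > 0`, apply
this to `{(y - x)/t | y ∈ S}`.) -/
def S_PKG : Prop := ∀ ρ η : ℝ, 0 < η → ∃ n : ℕ, ∀ (x : ℂ) (t : ℝ), 0 < t → ∀ S : Set ℂ,
  S ⊆ closedBall x (ρ * t) → (∀ y ∈ S, ∀ z ∈ S, y ≠ z → η * t ≤ dist y z) → S.encard ≤ n

/-- **SEL** (from `S_PKG`). Selection of the rings.
Proof. `q = λ = √Q`, `θ = √Q - 1`, `R₁ = R_E + 1 + Q`. `𝒞` = the set of the `(c, r) : ℂ × ℝ` with `0 < r ≤ ε`, `E ∩ ball c r ≠ ∅`,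
`closedBall c (Q r) \ ball c r` disjoint from `E`. For `i : ℕ` let `ε_i = ε/λ^i`, `𝒞_i` the part `ε_{i+1} < r ≤ ε_i`. For
`U ⊆ ℂ` let `pick i U` be a maximal (Zorn, `zorn_subset`) subset `S` of `{(c,r) ∈ 𝒞_i | ¬ E ∩ ball c r ⊆ U}` with
`dist c c' ≥ θ ε_i` for different elements `(c,r)`, `(c',r')` of `S`. `V_0 = ∅`, `V_{i+1} = V_i ∪ ⋃_{(c,r) ∈ pick i V_i} ball c r`. The
index type `ι` is the subtype of the `(i, x)` with `x ∈ pick i V_i` (or of the union of the `pick i V_i`; `i` is determined by `r`).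
Covering: let `e ∈ E ∩ ball c r`, `(c,r) ∈ 𝒞_i`, `e ∉ V_i`. By maximality there is `(c',r') ∈ pick i V_i` with `dist c c' < θ ε_i` (maybe
equal to `(c,r)`); `dist e c' < ε_i + θ ε_i = √Q ε_i = Q ε_{i+1} < Q r'`, and `e ∈ E` is not in the ring of `(c',r')`, so `e ∈ ball c' r'`.
Neighbours: let `x = (c,r)` at level `i`, `y = (c',r')` at level `i' < i`, and let `closedBall c (q r)`, `closedBall c' (q r')` meet. There is
`e ∈ E ∩ ball c r`, `e ∉ V_i ⊇ ball c' r'`, so (ring of `y`) `dist e c' > Q r'`; `Q r' < r + q (r + r')`, so `(Q - q) r' < (1 + q) r`,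
and `λ^{i - i' - 1} < r'/r < (1+q)/(Q-q)`: `i - i' ≤ k₀`, `k₀ = k₀(Q)`. For given `x` at level `i`, and a level `i'` with `|i - i'| ≤ k₀`, the
centres of the neighbours at level `i'` are in `closedBall c (q (ε_i + ε_{i'}))`, with distances `≥ θ ε_{i'}`: at most `n = n(Q)` by
`S_PKG` (`t = ε_{i'}`, `ρ = q (λ^{k₀} + 1)`, `η = θ`). So `N = (2 k₀ + 1) n`. The other fields of `Rings`: `‖c‖ < R_E + 1`. -/
def S_SEL : Prop := ∀ Q : ℝ, 1 < Q → ∃ N : ℕ, ∀ (E : Set ℂ) (R_E : ℝ), IsCompact E → 0 < R_E →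
  E ⊆ ball 0 R_E → ∀ ε : ℝ, 0 < ε → ε ≤ 1 → ∃ (ι : Type) (c : ι → ℂ) (r : ι → ℝ),
    Rings (√Q) (R_E + 1 + Q) N E c r ∧ (∀ j, r j ≤ ε) ∧ (∀ j, (E ∩ ball (c j) (r j)).Nonempty) ∧
    E ∩ UU Q E ε ⊆ ⋃ j, ball (c j) (r j)

/-- **FIN** (from `S_ONE`, `S_SEL`; import `Pool.Agent.Lib_helper41.Remov.Weyl`). The theorem.
Proof. Let `f : ℂ ≃ₜ ℂ` be holomorphic off `E`, `E ⊆ ball 0 R_E`, `N` from `S_SEL`, `φ` a test function, `C` from `S_ONE` for `q = √Q`,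
`R₁ = R_E + 1 + Q`. For `0 < ε ≤ 1` take the rings of `S_SEL`; `E \ ⋃_j ball (c j) (r j) ⊆ E \ UU Q E ε` is removable. So
`‖∫ f.symm w dbar φ‖ₑ² ≤ C volume (f '' ⋃_j Ann)`, and `⋃_j Ann (c j) (r j) (√Q r j) ⊆ S_ε := {z ∈ ball 0 R₁ \ E | infDist z E ≤ (1 + √Q) ε}`
(the ring is off `E`, and there is a point of `E` in `ball (c j) (r j)`). The sets `f '' S_ε` decrease to `∅` as `ε → 0` (`E` is closed) and have
finite measure: `volume (f '' S_ε) → 0` (`tendsto_measure_iInter_atTop`). So `∫ f.symm w * dbar φ w = 0` for all `φ`: `WD univ f.symm 0`, and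
`WD.differentiableOn` (Weyl's lemma) shows that `f.symm` is entire; it is injective, so its derivative is never `0`
(`deriv_ne_zero_of_injOn`) and `f` is differentiable. (`E = ∅` is trivial.) -/
def S_FIN : Prop := ∀ (E : Set ℂ) (Q : ℝ), IsCompact E → 1 < Q →
  (∀ ε : ℝ, 0 < ε → Rm (E \ UU Q E ε)) → Rm E

/-- **CIR** (from `S_FIN`; import `Pool.Agent.Lib_helper41.Weld.Thick`). Circle domains.
Proof. `E = frontier Ω` (compact). By `S_FIN` it is enough that `Rm (E \ UU Q E ε)`. Let `F : ℂ ≃ₜ ℂ` be holomorphic off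
`E \ UU Q E ε` (this set is closed, `UU` is open); then `N = NH F ⊆ E \ UU Q E ε`, and `F` is holomorphic off `E`. By `NH_thick` `N` is thick. If
`x ∈ N`, `U = univ`: infinitely many `B ∈ Balls Ω` have `N ∩ B` not totally disconnected, in particular not empty. But
`B ⊆ UU Q E ε` for all but finitely many `B ∈ Balls Ω` (the ring `closedBall c (Q r) \ ball c r ⊆ Ω` misses `frontier Ω`). So
`N = ∅` and `F` is differentiable. -/
def S_CIR : Prop := ∀ Ω : Set ℂ, IsOpen Ω → IsConnected Ω → Bornology.IsBounded Ωᶜ →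
  (∀ x ∈ Ωᶜ, connectedComponentIn Ωᶜ x = {x} ∨
    ∃ c : ℂ, ∃ r : ℝ, 0 < r ∧ connectedComponentIn Ωᶜ x = Metric.closedBall c r) →
  (∀ K : Set ℂ, K ⊆ frontier Ω → K.Nonempty → IsCompact K → Perfect K →
    IsTotallyDisconnected K →
    ∀ f : ℂ ≃ₜ ℂ, DifferentiableOn ℂ (⇑f) Kᶜ → Differentiable ℂ (⇑f)) →
  ∀ Q : ℝ, 1 < Q →
  (∀ ε : ℝ, 0 < ε → {B : Set ℂ | (∃ x ∈ Ωᶜ, connectedComponentIn Ωᶜ x = B) ∧
    (∃ c : ℂ, ∃ r : ℝ, 0 < r ∧ B = Metric.closedBall c r) ∧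
    ¬ ∃ c : ℂ, ∃ r : ℝ, 0 < r ∧ r ≤ ε ∧ Metric.closedBall c (Q * r) \ Metric.ball c r ⊆ Ω ∧
      B ⊆ Metric.ball c r}.Finite) →
  ∀ f : ℂ ≃ₜ ℂ, DifferentiableOn ℂ (⇑f) (frontier Ω)ᶜ → Differentiable ℂ (⇑f)

end Pool.Agent.RGR
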